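import Pool.Agent.X33.DP.Bridge

/-!
# The periods of a tensor product, in coordinates
-/

set_option autoImplicit false
set_option linter.unusedSectionVars false

namespace Pool.Agent.X33.DP

open TensorProduct Module

namespace PMot

section defs

variable {E R : Type} [Field E] [CommRing R] [Algebra E R]

/-- the periods `c^±(M)` exist and are units -/
def UnitPeriods (M : PMot E R) : Prop :=
  ∀ s : ℤˣ, (∃ c, M.IsPeriod s c) ∧ ∀ c, M.IsPeriod s c → IsUnit c

/-- `c^s(T) / c^{-s}(T) = (c^s(M) / c^{-s}(M)) ^ (dim N^+ - dim N^-)` modulo `Eˣ` -/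
def RatioRelation (M N T : PMot E R) : Prop :=
  ∀ (s : ℤˣ) (c c' t t' : R), M.IsPeriod s c → M.IsPeriod (-s) c' →
    T.IsPeriod s t → T.IsPeriod (-s) t' →
    ∃ e : E, e ≠ 0 ∧ t * (c' ^ N.dim 1 * c ^ N.dim (-1)) =
      algebraMap E R e * (t' * (c ^ N.dim 1 * c' ^ N.dim (-1)))

/-- Deligne's formula for the value `y` at `m` of the `L`-function of `T`: `y ∼ (2πi)^(m n^ε) c^ε(T)`
with `ε` the sign of `(-1)^m`, `n^ε = dim T^ε` and `τ k = (2πi)^k` -/
def Formula (τ : ℤ → R) (T : PMot E R) (m : ℤ) (y : R) : Prop :=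
  ∀ t, T.IsPeriod ((-1) ^ m) t →
    ∃ e : E, y = algebraMap E R e * (τ (m * T.dim ((-1) ^ m)) * t)

/-- if Deligne's formula for `T` holds for the unit `y'` at `m'`, then Deligne's formula for `y` at an
integer `m` of the other parity is equivalent to the formula
`y / y' ∼ (2πi)^((m - m') dim T^+) (c^s(M) / c^{-s}(M)) ^ (dim N^+ - dim N^-)`, `s = (-1)^m` -/
def Transfer (τ : ℤ → R) (M N T : PMot E R) : Prop :=
  ∀ (m m' : ℤ) (c c' y y' : R), ((-1 : ℤˣ) ^ m') = -(-1) ^ m →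
    M.IsPeriod ((-1) ^ m) c → M.IsPeriod (-(-1) ^ m) c' → IsUnit y' → Formula τ T m' y' →
    (Formula τ T m y ↔
      ∃ e : E, y * (c' ^ N.dim 1 * c ^ N.dim (-1)) =
        algebraMap E R e * (τ ((m - m') * T.dim 1) * y' * (c ^ N.dim 1 * c' ^ N.dim (-1))))

end defs

variable {E R : Type} [Field E] [CommRing R] [Algebra E R] [CharZero E] [Nontrivial R]
  {M N T : PMot E R} {β : Matrix (Fin T.N) (Fin M.N × Fin N.N) E}

theorem unitPeriods (h0 : M.NoMiddle) : UnitPeriods M :=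
  fun s => ⟨M.exists_isPeriod h0 s, fun _ hc => isUnit_isPeriod h0 hc⟩

theorem ratioRelation (h : IsTensor M N T β) (hM : M.NoMiddle) (hT : T.NoMiddle) :
    RatioRelation M N T := by
  intro s c c' t t' hc hc' ht ht'
  rw [← finrank_toMot, ← finrank_toMot]
  exact Mot.main_sign (toMot_isTensor h) (toMot_noMiddle hM) (toMot_noMiddle hT) s
    (toMot_isPeriod hc) (toMot_isPeriod hc') (toMot_isPeriod ht) (toMot_isPeriod ht')

lemma dim_eq (h0 : M.NoMiddle) (s s' : ℤˣ) : M.dim s = M.dim s' := by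
  rw [← finrank_toMot, ← finrank_toMot]
  exact Mot.finrank_eig _ (toMot_noMiddle h0) s s'

theorem transfer (τ : ℤ → R) (hτ : ∀ k l, τ k * τ l = τ (k + l)) (h : IsTensor M N T β)
    (hM : M.NoMiddle) (hT : T.NoMiddle) : Transfer τ M N T := by
  intro m m' c c' y y' hm hc hc' hy hf
  obtain ⟨t, ht⟩ := T.exists_isPeriod hT ((-1) ^ m)
  obtain ⟨t', ht'⟩ := T.exists_isPeriod hT (-(-1) ^ m)
  have h1 := ratioRelation h hM hT _ c c' t t' hc hc' ht ht'
  have h2 := hf t' (by rw [hm]; exact ht')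
  rw [dim_eq hT _ 1] at h2
  rw [← formula_algebra τ hτ (isUnit_isPeriod hM hc) (isUnit_isPeriod hM hc') h1 h2 hy]
  constructor
  · intro hF
    have h3 := hF t ht
    rw [dim_eq hT _ 1] at h3
    exact h3
  · rintro ⟨e, he⟩ t1 ht1
    obtain ⟨e1, -, h4⟩ := Mot.period_unique _ (toMot_isPeriod ht) (toMot_isPeriod ht1)
    refine ⟨e * e1, ?_⟩
    rw [he, h4, dim_eq hT ((-1) ^ m) 1, map_mul]
    ring

end PMot

/-- the element `(2 π i)^k` of `E ⊗ ℂ` -/
noncomputable def tpi (E : Type) [Field E] [NumberField E] (k : ℤ) : E ⊗[ℚ] ℂ :=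
  (1 : E) ⊗ₜ[ℚ] ((2 * (Real.pi : ℂ) * Complex.I) ^ k)

lemma tpi_mul (E : Type) [Field E] [NumberField E] (k l : ℤ) : tpi E k * tpi E l = tpi E (k + l) := by
  rw [tpi, tpi, tpi, Algebra.TensorProduct.tmul_mul_tmul, one_mul, zpow_add₀]
  exact mul_ne_zero (mul_ne_zero two_ne_zero (by exact_mod_cast Real.pi_ne_zero)) Complex.I_ne_zero

end Pool.Agent.X33.DP
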