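import Pool.Agent.X33.DP.Sign

/-!
# Bases of the eigenspaces of tensor products, and the final formula
-/

set_option autoImplicit false
set_option linter.unusedSectionVars false

namespace Pool.Agent.X33.DP

open TensorProduct Module
open scoped Kronecker

namespace Mot

variable {E R : Type} [Field E] [CommRing R] [Algebra E R] [CharZero E]
  {M N T : Mot E R}

lemma isCompl_eig (M : Mot E R) : IsCompl (M.eig 1) (M.eig (-1)) := by
  constructor
  · rw [Submodule.disjoint_def]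
    intro x hx hx'
    have h1 : M.frob x = ((1 : ℤˣ) : ℤ) • x := hx
    have h2 : M.frob x = ((-1 : ℤˣ) : ℤ) • x := hx'
    rw [h1, Units.val_neg, Units.val_one, one_smul, neg_smul, one_smul] at h2
    have h3 : (2 : E) • x = 0 := by
      rw [two_smul]
      nth_rewrite 1 [h2]
      exact neg_add_cancel x
    exact (smul_eq_zero.1 h3).resolve_left two_ne_zero
  · rw [codisjoint_iff, Submodule.eq_top_iff']
    intro x
    rw [Submodule.mem_sup]
    refine ⟨M.pr0 1 x, (M.pr0 1 x).2, M.pr0 (-1) x, (M.pr0 (-1) x).2, ?_⟩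
    change (1 / 2 : E) • (x + ((1 : ℤˣ) : ℤ) • M.frob x) +
      (1 / 2 : E) • (x + ((-1 : ℤˣ) : ℤ) • M.frob x) = x
    rw [Units.val_neg, Units.val_one, one_smul, neg_smul, one_smul, ← smul_add,
      show x + M.frob x + (x + -M.frob x) = (2 : E) • x by rw [two_smul]; abel, smul_smul]
    norm_num

/-- the basis of the Betti realisation -/
noncomputable def bB (M : Mot E R) {ι ι' : Type} (b : Basis ι E (M.eig 1))
    (b' : Basis ι' E (M.eig (-1))) : Basis (ι ⊕ ι') E M.B :=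
  (b.prod b').map (Submodule.prodEquivOfIsCompl _ _ M.isCompl_eig)

lemma bB_inl (M : Mot E R) {ι ι' : Type} (b : Basis ι E (M.eig 1))
    (b' : Basis ι' E (M.eig (-1))) (i : ι) : M.bB b b' (Sum.inl i) = b i := by
  rw [bB, Basis.map_apply, Basis.prod_apply]
  change ((b i : M.B)) + ((0 : M.eig (-1)) : M.B) = b i
  rw [Submodule.coe_zero, add_zero]

lemma bB_inr (M : Mot E R) {ι ι' : Type} (b : Basis ι E (M.eig 1))
    (b' : Basis ι' E (M.eig (-1))) (i : ι') : M.bB b b' (Sum.inr i) = b' i := by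
  rw [bB, Basis.map_apply, Basis.prod_apply]
  change ((0 : M.eig 1) : M.B) + ((b' i : M.B)) = b' i
  rw [Submodule.coe_zero, zero_add]

/-- bases of the eigenspaces from a basis of eigenvectors -/
lemma eig_basis (T : Mot E R) {κ : Type} [Finite κ] (c : Basis κ E T.B) (a : κ → ℤˣ)
    (hc : ∀ k, T.frob (c k) = (a k : ℤ) • c k) {μ : Type} (s : ℤˣ) (f : μ → κ)
    (hf : Function.Injective f) (hfs : ∀ k, k ∈ Set.range f ↔ a k = s) :
    ∃ u : Basis μ E (T.eig s), ∀ m, (u m : T.B) = c (f m) := by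
  have hmem : ∀ m, c (f m) ∈ T.eig s := fun m => by
    change T.frob (c (f m)) = (s : ℤ) • c (f m)
    rw [hc, (hfs (f m)).1 ⟨m, rfl⟩]
  have hli : LinearIndependent E (fun m => (⟨c (f m), hmem m⟩ : T.eig s)) := by
    refine LinearIndependent.of_comp (T.eig s).subtype ?_
    exact c.linearIndependent.comp f hf
  have hsp : ⊤ ≤ Submodule.span E (Set.range fun m => (⟨c (f m), hmem m⟩ : T.eig s)) := by
    rintro ⟨x, hx⟩ -
    have h1 : ∀ k, k ∉ Set.range f → c.repr x k = 0 := by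
      intro k hk
      have h2 := repr_diag (R := E) c (A := T.frob) (a := fun k => ((a k : ℤ) : E))
        (fun k => by rw [hc, Int.cast_smul_eq_zsmul]) x k
      rw [show T.frob x = (s : ℤ) • x from hx, ← Int.cast_smul_eq_zsmul E, map_smul,
        Finsupp.smul_apply, smul_eq_mul] at h2
      have h3 : a k = -s := by
        have h4 : a k ≠ s := fun h => hk ((hfs k).2 h)
        rcases Int.units_eq_one_or (a k) with h5 | h5 <;>
          rcases Int.units_eq_one_or s with h6 | h6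
        · exact absurd (h5.trans h6.symm) h4
        · rw [h5, h6, neg_neg]
        · rw [h5, h6]
        · exact absurd (h5.trans h6.symm) h4
      rw [h3, Units.val_neg, Int.cast_neg] at h2
      have h5 : ((s : ℤ) : E) ≠ 0 := by
        rcases Int.units_eq_one_or s with h6 | h6 <;> rw [h6] <;> norm_num
      have h6 : (2 * ((s : ℤ) : E)) * c.repr x k = 0 := by linear_combination h2
      exact (mul_eq_zero.1 h6).resolve_left (mul_ne_zero two_ne_zero h5)
    have h2 : x ∈ Submodule.span E (Set.range fun m => c (f m)) := by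
      have : Fintype κ := Fintype.ofFinite κ
      rw [← c.sum_repr x]
      refine Submodule.sum_mem _ fun k _ => ?_
      by_cases hk : k ∈ Set.range f
      · obtain ⟨m, rfl⟩ := hk
        exact Submodule.smul_mem _ _ (Submodule.subset_span ⟨m, rfl⟩)
      · rw [h1 k hk, zero_smul]
        exact Submodule.zero_mem _
    have h3 : Submodule.map (T.eig s).subtype
        (Submodule.span E (Set.range fun m => (⟨c (f m), hmem m⟩ : T.eig s))) =
        Submodule.span E (Set.range fun m => c (f m)) := by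
      rw [Submodule.map_span, ← Set.range_comp]
      rfl
    rw [← h3] at h2
    obtain ⟨y, hy, hyx⟩ := h2
    rwa [show (⟨x, hx⟩ : T.eig s) = y from Subtype.ext hyx.symm]
  exact ⟨Basis.mk hli hsp, fun m => by rw [Basis.mk_apply]⟩

/-- the indices of the basis of `T^+` -/
def fP {n n' a b : ℕ} : (Fin n × Fin a) ⊕ (Fin n' × Fin b) → (Fin n ⊕ Fin n') × (Fin a ⊕ Fin b)
  | .inl (i, j) => (.inl i, .inl j)
  | .inr (i, j) => (.inr i, .inr j)

/-- the indices of the basis of `T^-` -/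
def fM {n n' a b : ℕ} : (Fin n' × Fin a) ⊕ (Fin n × Fin b) → (Fin n ⊕ Fin n') × (Fin a ⊕ Fin b)
  | .inl (i, j) => (.inr i, .inl j)
  | .inr (i, j) => (.inl i, .inr j)

/-- the sign -/
def sgn {X Y : Type} : X ⊕ Y → ℤˣ
  | .inl _ => 1
  | .inr _ => -1

lemma frob_bB (M : Mot E R) {ι ι' : Type} (b : Basis ι E (M.eig 1))
    (b' : Basis ι' E (M.eig (-1))) (k : ι ⊕ ι') :
    M.frob (M.bB b b' k) = (sgn k : ℤ) • M.bB b b' k := by
  rcases k with i | i
  · rw [bB_inl]
    exact (b i).2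
  · rw [bB_inr]
    exact (b' i).2

lemma exists_bases {β : (M.B ⊗[E] N.B) ≃ₗ[E] T.B} (h : IsTensor M N T β) {n a b : ℕ}
    (u : Basis (Fin n) E (M.eig 1)) (u' : Basis (Fin n) E (M.eig (-1)))
    (v : Basis (Fin a) E (N.eig 1)) (v' : Basis (Fin b) E (N.eig (-1))) :
    ∃ (t : Basis ((Fin n × Fin a) ⊕ (Fin n × Fin b)) E (T.eig 1))
      (t' : Basis ((Fin n × Fin a) ⊕ (Fin n × Fin b)) E (T.eig (-1))),
      (∀ i j, (t (.inl (i, j)) : T.B) = β ((u i : M.B) ⊗ₜ (v j : N.B))) ∧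
      (∀ i j, (t (.inr (i, j)) : T.B) = β ((u' i : M.B) ⊗ₜ (v' j : N.B))) ∧
      (∀ i j, (t' (.inl (i, j)) : T.B) = β ((u' i : M.B) ⊗ₜ (v j : N.B))) ∧
      (∀ i j, (t' (.inr (i, j)) : T.B) = β ((u i : M.B) ⊗ₜ (v' j : N.B))) := by
  let c : Basis ((Fin n ⊕ Fin n) × (Fin a ⊕ Fin b)) E T.B :=
    ((M.bB u u').tensorProduct (N.bB v v')).map β
  have hc0 : ∀ k l, c (k, l) = β (M.bB u u' k ⊗ₜ N.bB v v' l) := fun k l => by
    rw [Basis.map_apply, Basis.tensorProduct_apply]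
  have hc : ∀ k, T.frob (c k) = ((sgn k.1 * sgn k.2 : ℤˣ) : ℤ) • c k := by
    rintro ⟨k, l⟩
    rw [hc0, h.frob, frob_bB, frob_bB, ← smul_tmul', tmul_smul, smul_smul, map_zsmul, Units.val_mul]
  obtain ⟨t, ht⟩ := T.eig_basis c (fun k => sgn k.1 * sgn k.2) hc 1 (fP (n := n) (n' := n))
    (by
      rintro (⟨i, j⟩ | ⟨i, j⟩) (⟨k, l⟩ | ⟨k, l⟩) h <;> simp [fP] at h ⊢ <;> exact h)
    (by
      rintro ⟨k | k, l | l⟩
      · exact ⟨fun _ => by simp [sgn], fun _ => ⟨.inl (k, l), rfl⟩⟩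
      · refine ⟨?_, fun h => ?_⟩
        · rintro ⟨⟨i, j⟩ | ⟨i, j⟩, h⟩ <;> simp [fP] at h
        · simp [sgn] at h
      · refine ⟨?_, fun h => ?_⟩
        · rintro ⟨⟨i, j⟩ | ⟨i, j⟩, h⟩ <;> simp [fP] at h
        · simp [sgn] at h
      · exact ⟨fun _ => by simp [sgn], fun _ => ⟨.inr (k, l), rfl⟩⟩)
  obtain ⟨t', ht'⟩ := T.eig_basis c (fun k => sgn k.1 * sgn k.2) hc (-1) (fM (n := n) (n' := n))
    (by
      rintro (⟨i, j⟩ | ⟨i, j⟩) (⟨k, l⟩ | ⟨k, l⟩) h <;> simp [fM] at h ⊢ <;> exact h)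
    (by
      rintro ⟨k | k, l | l⟩
      · refine ⟨?_, fun h => ?_⟩
        · rintro ⟨⟨i, j⟩ | ⟨i, j⟩, h⟩ <;> simp [fM] at h
        · simp [sgn] at h
      · exact ⟨fun _ => by simp [sgn], fun _ => ⟨.inr (k, l), rfl⟩⟩
      · exact ⟨fun _ => by simp [sgn], fun _ => ⟨.inl (k, l), rfl⟩⟩
      · refine ⟨?_, fun h => ?_⟩
        · rintro ⟨⟨i, j⟩ | ⟨i, j⟩, h⟩ <;> simp [fM] at h
        · simp [sgn] at h)
  refine ⟨t, t', fun i j => ?_, fun i j => ?_, fun i j => ?_, fun i j => ?_⟩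
  · rw [ht, fP, hc0, bB_inl, bB_inl]
  · rw [ht, fP, hc0, bB_inr, bB_inr]
  · rw [ht', fM, hc0, bB_inr, bB_inl]
  · rw [ht', fM, hc0, bB_inl, bB_inr]

end Mot

end Pool.Agent.X33.DP
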