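import Pool.Agent.X33.DP.Defs

/-!
# The operator `J` and the ratio of the periods
-/

set_option autoImplicit false
set_option linter.unusedSectionVars false

namespace Pool.Agent.X33.DP

open TensorProduct Module

/-- the determinants of a linear map in two pairs of `E`-bases differ by a factor in `Eˣ` -/
lemma det_bases {E R V W : Type} [Field E] [CommRing R] [Algebra E R] [AddCommGroup V] [Module E V]
    [AddCommGroup W] [Module E W] {ι : Type} [Fintype ι] [DecidableEq ι]
    (b b' : Basis ι E V) (d d' : Basis ι E W) (f : (R ⊗[E] V) →ₗ[R] (R ⊗[E] W)) :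
    ∃ e : E, e ≠ 0 ∧ (LinearMap.toMatrix (b.baseChange R) (d.baseChange R) f).det =
      algebraMap E R e * (LinearMap.toMatrix (b'.baseChange R) (d'.baseChange R) f).det := by
  have key : ∀ {X : Type} [AddCommGroup X] [Module E X] (c c' : Basis ι E X),
      ((c.baseChange R).toMatrix (c'.baseChange R)).det = algebraMap E R (c.toMatrix c').det := by
    intro X _ _ c c'
    rw [RingHom.map_det]
    congr 1
    ext i j
    rw [Basis.toMatrix_apply, Basis.baseChange_apply, Basis.baseChange_repr_tmul]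
    simp [Basis.toMatrix_apply, Algebra.algebraMap_eq_smul_one]
  refine ⟨(d.toMatrix d').det * (b'.toMatrix b).det, ?_, ?_⟩
  · refine mul_ne_zero ?_ ?_
    · have h := congrArg Matrix.det (d.toMatrix_mul_toMatrix_flip d')
      rw [Matrix.det_mul, Matrix.det_one] at h
      exact left_ne_zero_of_mul_eq_one h
    · have h := congrArg Matrix.det (b'.toMatrix_mul_toMatrix_flip b)
      rw [Matrix.det_mul, Matrix.det_one] at h
      exact left_ne_zero_of_mul_eq_one h
  · rw [← basis_toMatrix_mul_linearMap_toMatrix_mul_basis_toMatrix (b := b.baseChange R)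
      (b' := b'.baseChange R) (c := d.baseChange R) (c' := d'.baseChange R), Matrix.det_mul,
      Matrix.det_mul, key, key, map_mul]
    ring

namespace Mot

variable {E R : Type} [Field E] [CommRing R] [Algebra E R]

/-- `F_∞` over `R` -/
noncomputable abbrev F (M : Mot E R) : (R ⊗[E] M.B) →ₗ[R] (R ⊗[E] M.B) := M.frob.baseChange R

lemma F_F (M : Mot E R) (x : R ⊗[E] M.B) : M.F (M.F x) = x := by
  have h : M.frob ∘ₗ M.frob = LinearMap.id := LinearMap.ext M.frob_frob
  have h1 : (M.frob ∘ₗ M.frob).baseChange R = M.F ∘ₗ M.F := LinearMap.baseChange_comp ..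
  rw [h, LinearMap.baseChange_id] at h1
  exact (LinearMap.congr_fun h1 x).symm

lemma units_mul_self (s : ℤˣ) : ((s : ℤ) * (s : ℤ)) = 1 := by
  rcases Int.units_eq_one_or s with h | h <;> subst h <;> norm_num

/-- the inclusion of `M^± ⊗ R` -/
noncomputable abbrev inc (M : Mot E R) (s : ℤˣ) : (R ⊗[E] M.eig s) →ₗ[R] (R ⊗[E] M.B) :=
  (M.eig s).subtype.baseChange R

variable [CharZero E]

/-- the projection of the Betti realisation to `M^±` -/
noncomputable def pr0 (M : Mot E R) (s : ℤˣ) : M.B →ₗ[E] M.eig s where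
  toFun x := ⟨(1 / 2 : E) • (x + (s : ℤ) • M.frob x), by
    change M.frob ((1 / 2 : E) • (x + (s : ℤ) • M.frob x)) =
      (s : ℤ) • ((1 / 2 : E) • (x + (s : ℤ) • M.frob x))
    rw [map_smul, map_add, map_zsmul, M.frob_frob, smul_comm (s : ℤ) (1 / 2 : E), smul_add (s : ℤ),
      smul_smul, units_mul_self, one_smul, add_comm]⟩
  map_add' x y := by
    apply Subtype.ext
    simp only [map_add, smul_add, Submodule.coe_add]
    abel
  map_smul' c x := by
    apply Subtype.ext
    simp only [map_smul, RingHom.id_apply, Submodule.coe_smul]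
    rw [smul_comm (s : ℤ) c, ← smul_add, smul_comm c (1 / 2 : E)]

/-- the projection to `M^± ⊗ R` -/
noncomputable abbrev pr (M : Mot E R) (s : ℤˣ) : (R ⊗[E] M.B) →ₗ[R] (R ⊗[E] M.eig s) :=
  (M.pr0 s).baseChange R

lemma pr_inc (M : Mot E R) (s : ℤˣ) (z : R ⊗[E] M.eig s) : M.pr s (M.inc s z) = z := by
  have h : M.pr0 s ∘ₗ (M.eig s).subtype = LinearMap.id := by
    ext x
    change (1 / 2 : E) • ((x : M.B) + (s : ℤ) • M.frob x) = x
    rw [show M.frob (x : M.B) = (s : ℤ) • (x : M.B) from x.2, smul_smul, units_mul_self, one_smul,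
      ← two_smul E, smul_smul]
    norm_num
  have h1 : (M.pr0 s ∘ₗ (M.eig s).subtype).baseChange R = M.pr s ∘ₗ M.inc s :=
    LinearMap.baseChange_comp ..
  rw [h, LinearMap.baseChange_id] at h1
  exact (LinearMap.congr_fun h1 z).symm

lemma inc_pr (M : Mot E R) (s : ℤˣ) (v : R ⊗[E] M.B) :
    M.inc s (M.pr s v) = (algebraMap E R (1 / 2)) • (v + (s : ℤ) • M.F v) := by
  have h : (M.eig s).subtype ∘ₗ M.pr0 s =
      (1 / 2 : E) • (LinearMap.id + (s : ℤ) • M.frob) := by
    ext x
    rfl
  have h1 : ((M.eig s).subtype ∘ₗ M.pr0 s).baseChange R = M.inc s ∘ₗ M.pr s :=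
    LinearMap.baseChange_comp ..
  have h2 : ((s : ℤ) • M.frob).baseChange R = (s : ℤ) • M.F := by
    rcases Int.units_eq_one_or s with h | h
    · subst h
      rw [Units.val_one, one_smul, one_smul]
    · subst h
      rw [Units.val_neg, Units.val_one, neg_one_smul, LinearMap.baseChange_neg]
      refine LinearMap.ext fun x => ?_
      rw [LinearMap.neg_apply, LinearMap.smul_apply, neg_smul, one_smul]
  rw [h, LinearMap.baseChange_smul, LinearMap.baseChange_add, LinearMap.baseChange_id, h2] at h1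
  rw [← LinearMap.comp_apply, ← h1, algebraMap_smul]
  rfl

lemma F_inc (M : Mot E R) (s : ℤˣ) (z : R ⊗[E] M.eig s) : M.F (M.inc s z) = (s : ℤ) • M.inc s z := by
  have h1 := M.inc_pr s (M.inc s z)
  rw [M.pr_inc] at h1
  have h2 : M.F (M.inc s z) = (algebraMap E R (1 / 2)) • (M.F (M.inc s z) + (s : ℤ) • M.inc s z) := by
    conv_lhs => rw [h1]
    rw [map_smul, map_add, map_zsmul, M.F_F]
  have h3 : (s : ℤ) • M.inc s z = (algebraMap E R (1 / 2)) • (M.F (M.inc s z) + (s : ℤ) • M.inc s z) := by
    conv_lhs => rw [h1]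
    rw [smul_comm (s : ℤ), smul_add (s : ℤ), smul_smul, units_mul_self, one_smul, add_comm]
  rw [h2]
  exact h3.symm

/-- a map of the Betti realisations that commutes or anticommutes with `F_∞` restricts to the
eigenspaces -/
lemma inc_pr_of (M : Mot E R) {s : ℤˣ} {v : R ⊗[E] M.B} (h : M.F v = (s : ℤ) • v) :
    M.inc s (M.pr s v) = v := by
  rw [M.inc_pr, h, smul_smul, units_mul_self, one_smul, ← two_smul R, smul_smul]
  have : algebraMap E R (1 / 2) * 2 = 1 := by
    rw [show (2 : R) = algebraMap E R 2 by rw [map_ofNat], ← map_mul]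
    norm_num
  rw [this, one_smul]

end Mot

end Pool.Agent.X33.DP
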