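import Mathlib

/-!
# Betti and de Rham data of a motive, in coordinates, and Deligne's periods
-/

set_option autoImplicit false

namespace Pool.Agent.X33.DP

/-- The Betti and the de Rham realisation of a pure motive of weight `w` over `ℚ` with coefficients in
`E`, in coordinates: bases of `M_B` and `M_DR` over `E` are fixed, so that `M_B = M_DR = E ^ N` and
`M_B ⊗ ℂ = M_DR ⊗ ℂ = R ^ N`, `R = E ⊗ ℂ`. `F` is the matrix of `F_∞`, `H p = M^{p, w - p}`, `fil i` is
the Hodge filtration `F^i M` and `P` the matrix of the comparison isomorphism `I_∞`. The `M^{p, w - p}` are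
spanned by parts of a basis of `R ^ N` (`hodge`), `F_∞` maps `M^{p, w - p}` to `M^{w - p, p}` (`swap`), and
`I_∞` maps `⊕_{p ≥ i} M^{p, w - p}` onto `F^i M ⊗ ℂ` (`comp`). -/
structure PMot (E R : Type) [Field E] [CommRing R] [Algebra E R] where
  /-- the rank -/
  N : ℕ
  /-- the weight -/
  w : ℤ
  /-- the involution `F_∞` of `M_B` -/
  F : Matrix (Fin N) (Fin N) E
  F_sq : F * F = 1
  /-- the Hodge decomposition, `H p = M^{p, w - p}` -/
  H : ℤ → Submodule R (Fin N → R)
  hodge : ∃ (v : Module.Basis (Fin N) R (Fin N → R)) (t : Fin N → ℤ),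
    ∀ p, H p = Submodule.span R (v '' {j | t j = p})
  swap : ∀ p, ∀ x ∈ H p, (F.map (algebraMap E R)).mulVec x ∈ H (w - p)
  /-- the Hodge filtration of `M_DR` -/
  fil : ℤ → Submodule E (Fin N → E)
  /-- the comparison isomorphism -/
  P : Matrix (Fin N) (Fin N) R
  P_unit : IsUnit P
  comp : ∀ i, (⨆ p, ⨆ (_ : i ≤ p), H p).map P.mulVecLin =
    Submodule.span R ((fun x j => algebraMap E R (x j)) '' (fil i : Set (Fin N → E)))

namespace PMot

variable {E R : Type} [Field E] [CommRing R] [Algebra E R]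

/-- the eigenspace `M^+` (`s = 1`) or `M^-` (`s = -1`) of `F_∞` in `M_B` -/
def eig (M : PMot E R) (s : ℤˣ) : Submodule E (Fin M.N → E) :=
  LinearMap.ker (M.F - ((s : ℤ) : E) • (1 : Matrix (Fin M.N) (Fin M.N) E)).mulVecLin

/-- `dim M^±` -/
noncomputable def dim (M : PMot E R) (s : ℤˣ) : ℕ := Module.finrank E (M.eig s)

/-- `c` is a Deligne period `c^±(M)`: the determinant of
`I_∞^± : M^± ⊗ ℂ → M_B ⊗ ℂ → M_DR ⊗ ℂ → (M_DR / F^±) ⊗ ℂ`, `F^± = F^{[(w + 1) / 2]}`, in `E`-bases of `M^±`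
and of `M_DR / F^±`; the columns of `B` are a basis of `M^±`, and `Q : M_DR → E ^ n` is the quotient map
to `M_DR / F^±`. -/
def IsPeriod (M : PMot E R) (s : ℤˣ) (c : R) : Prop :=
  ∃ (n : ℕ) (B : Matrix (Fin M.N) (Fin n) E) (Q : Matrix (Fin n) (Fin M.N) E),
    Function.Injective B.mulVec ∧ LinearMap.range B.mulVecLin = M.eig s ∧
    Function.Surjective Q.mulVec ∧ LinearMap.ker Q.mulVecLin = M.fil ((M.w + 1) / 2) ∧
    c = (Q.map (algebraMap E R) * M.P * B.map (algebraMap E R)).det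

/-- there are no `(w / 2, w / 2)`-classes -/
def NoMiddle (M : PMot E R) : Prop := ∀ p, 2 * p = M.w → M.H p = ⊥

/-- `β` is an isomorphism `M_B ⊗ N_B → T_B` compatible with `F_∞` and the Hodge decompositions -/
structure IsTensor (M N T : PMot E R) (β : Matrix (Fin T.N) (Fin M.N × Fin N.N) E) : Prop where
  weight : T.w = M.w + N.w
  iso : ∃ γ : Matrix (Fin M.N × Fin N.N) (Fin T.N) E, β * γ = 1 ∧ γ * β = 1
  frob : T.F * β = β * Matrix.kroneckerMap (fun a b => a * b) M.F N.F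
  hodge : ∀ a b, ∀ x ∈ M.H a, ∀ y ∈ N.H b,
    (β.map (algebraMap E R)).mulVec (fun k => x k.1 * y k.2) ∈ T.H (a + b)

end PMot

end Pool.Agent.X33.DP
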