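import Pool.Agent.X33.DP.LVal
import Pool.Agent.X33.DP.CDefs

/-!
# From the data in coordinates to the abstract data
-/

set_option autoImplicit false
set_option linter.unusedSectionVars false

namespace Pool.Agent.X33.DP

open TensorProduct Module

section phi

variable {E R : Type} [Field E] [CommRing R] [Algebra E R]

/-- `R ⊗ E ^ ι = R ^ ι` -/
noncomputable def phi (E R : Type) [Field E] [CommRing R] [Algebra E R] (ι : Type) [Fintype ι]
    [DecidableEq ι] : (R ⊗[E] (ι → E)) ≃ₗ[R] (ι → R) :=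
  TensorProduct.piScalarRight E R R ι

lemma phi_tmul {ι : Type} [Fintype ι] [DecidableEq ι] (r : R) (f : ι → E) :
    phi E R ι (r ⊗ₜ f) = fun j => f j • r := by
  rw [phi, piScalarRight_apply, piScalarRightHom_tmul]

lemma phi_symm {ι : Type} [Fintype ι] [DecidableEq ι] (f : ι → E) :
    (phi E R ι).symm (fun j => algebraMap E R (f j)) = 1 ⊗ₜ f := by
  rw [LinearEquiv.symm_apply_eq, phi_tmul]
  ext j
  rw [Algebra.smul_def, mul_one]

lemma phi_mulVec {ι κ : Type} [Fintype ι] [DecidableEq ι] [Fintype κ] [DecidableEq κ]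
    (A : Matrix κ ι E) (z : R ⊗[E] (ι → E)) :
    phi E R κ (A.mulVecLin.baseChange R z) = (A.map (algebraMap E R)).mulVec (phi E R ι z) := by
  have h : (phi E R κ).toLinearMap ∘ₗ A.mulVecLin.baseChange R =
      (A.map (algebraMap E R)).mulVecLin ∘ₗ (phi E R ι).toLinearMap := by
    refine TensorProduct.AlgebraTensorModule.ext fun r f => ?_
    change phi E R κ (A.mulVecLin.baseChange R (r ⊗ₜ f)) =
      (A.map (algebraMap E R)).mulVec (phi E R ι (r ⊗ₜ f))
    rw [LinearMap.baseChange_tmul, phi_tmul, phi_tmul]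
    ext j
    simp only [Matrix.mulVecLin_apply, Matrix.mulVec, dotProduct, Matrix.map_apply,
      Algebra.smul_def, map_sum, map_mul, Finset.sum_mul, mul_assoc]
  exact LinearMap.congr_fun h z

/-- the isomorphism given by an invertible matrix -/
noncomputable def mulEquiv {κ : Type} [Fintype κ] [DecidableEq κ] (P : Matrix κ κ R)
    (h : IsUnit P) : (κ → R) ≃ₗ[R] (κ → R) :=
  LinearEquiv.ofLinearMap P.mulVecLin ((h.unit⁻¹ : (Matrix κ κ R)ˣ) : Matrix κ κ R).mulVecLin
    (by
      rw [← Matrix.mulVecLin_mul, IsUnit.mul_val_inv, Matrix.mulVecLin_one])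
    (by
      rw [← Matrix.mulVecLin_mul, IsUnit.val_inv_mul, Matrix.mulVecLin_one])

lemma mulEquiv_apply {κ : Type} [Fintype κ] [DecidableEq κ] (P : Matrix κ κ R)
    (h : IsUnit P) (x : κ → R) : mulEquiv P h x = P.mulVec x := rfl

end phi

namespace PMot

variable {E R : Type} [Field E] [CommRing R] [Algebra E R]

/-- the abstract data -/
noncomputable abbrev toMot (M : PMot E R) : Mot E R where
  B := Fin M.N → E
  D := Fin M.N → E
  w := M.w
  frob := M.F.mulVecLin
  frob_frob x := by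
    rw [Matrix.mulVecLin_apply, Matrix.mulVecLin_apply, Matrix.mulVec_mulVec, M.F_sq,
      Matrix.one_mulVec]
  H p := (M.H p).map (phi E R (Fin M.N)).symm.toLinearMap
  hodge := by
    obtain ⟨v, t, h⟩ := M.hodge
    refine ⟨Fin M.N, inferInstance, v.map (phi E R (Fin M.N)).symm, t, fun p => ?_⟩
    rw [h p, Submodule.map_span, ← Set.image_comp]
    rfl
  swap p := by
    have key : ∀ q, ((M.H q).map (phi E R (Fin M.N)).symm.toLinearMap).map
        (M.F.mulVecLin.baseChange R) ≤
        (M.H (M.w - q)).map (phi E R (Fin M.N)).symm.toLinearMap := by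
      rintro q _ ⟨_, ⟨x, hx, rfl⟩, rfl⟩
      refine ⟨_, M.swap q x hx, ?_⟩
      change (phi E R (Fin M.N)).symm ((M.F.map (algebraMap E R)).mulVec x) = _
      rw [LinearEquiv.symm_apply_eq, phi_mulVec]
      congr 1
      exact ((phi E R (Fin M.N)).apply_symm_apply x).symm
    refine le_antisymm (key p) ?_
    intro z hz
    have h1 := key (M.w - p) (Submodule.mem_map_of_mem hz)
    rw [sub_sub_cancel] at h1
    refine ⟨_, h1, ?_⟩
    have h : M.F.mulVecLin ∘ₗ M.F.mulVecLin = (LinearMap.id : (Fin M.N → E) →ₗ[E] _) := by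
      refine LinearMap.ext fun x => ?_
      rw [LinearMap.comp_apply, Matrix.mulVecLin_apply, Matrix.mulVecLin_apply,
        Matrix.mulVec_mulVec, M.F_sq, Matrix.one_mulVec]
      rfl
    have h2 : (M.F.mulVecLin ∘ₗ M.F.mulVecLin).baseChange R =
        M.F.mulVecLin.baseChange R ∘ₗ M.F.mulVecLin.baseChange R := LinearMap.baseChange_comp ..
    rw [h, LinearMap.baseChange_id] at h2
    exact (LinearMap.congr_fun h2 z).symm
  fil := M.fil
  I := (phi E R (Fin M.N)).trans ((mulEquiv M.P M.P_unit).trans (phi E R (Fin M.N)).symm)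
  comp i := by
    have h1 : (⨆ p, ⨆ (_ : i ≤ p), (M.H p).map (phi E R (Fin M.N)).symm.toLinearMap) =
        (⨆ p, ⨆ (_ : i ≤ p), M.H p).map (phi E R (Fin M.N)).symm.toLinearMap := by
      simp only [Submodule.map_iSup]
    have h2 : ((phi E R (Fin M.N)).trans ((mulEquiv M.P M.P_unit).trans
        (phi E R (Fin M.N)).symm)).toLinearMap ∘ₗ (phi E R (Fin M.N)).symm.toLinearMap =
        (phi E R (Fin M.N)).symm.toLinearMap ∘ₗ M.P.mulVecLin := by
      refine LinearMap.ext fun x => ?_
      change (phi E R (Fin M.N)).symm (mulEquiv M.P M.P_unit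
        (phi E R (Fin M.N) ((phi E R (Fin M.N)).symm x))) = _
      rw [LinearEquiv.apply_symm_apply]
      rfl
    rw [h1, ← Submodule.map_comp, h2, Submodule.map_comp, M.comp, Submodule.map_span,
      Submodule.baseChange_eq_span, Submodule.map_coe, ← Set.image_comp]
    congr 1
    refine Set.image_congr fun x _ => ?_
    exact phi_symm x

lemma mem_eig (M : PMot E R) (s : ℤˣ) (x : Fin M.N → E) :
    x ∈ M.eig s ↔ M.F.mulVec x = (s : ℤ) • x := by
  rw [eig, LinearMap.mem_ker, Matrix.mulVecLin_apply, Matrix.sub_mulVec, Matrix.smul_mulVec,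
    Matrix.one_mulVec, sub_eq_zero, Int.cast_smul_eq_zsmul]

lemma eig_toMot (M : PMot E R) (s : ℤˣ) : M.toMot.eig s = M.eig s := by
  ext x
  rw [mem_eig]
  rfl

lemma finrank_toMot (M : PMot E R) (s : ℤˣ) : finrank E (M.toMot.eig s) = M.dim s := by
  rw [eig_toMot]
  rfl

lemma toMot_noMiddle {M : PMot E R} (h : M.NoMiddle) : M.toMot.NoMiddle := by
  intro p hp
  change (M.H p).map (phi E R (Fin M.N)).symm.toLinearMap = ⊥
  rw [h p hp, Submodule.map_bot]

/-- the entries of the matrix of `I_∞^±` -/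
lemma toMatrix_per (M : PMot E R) (s : ℤˣ) {n : ℕ} {B : Matrix (Fin M.N) (Fin n) E}
    {Q : Matrix (Fin n) (Fin M.N) E} (b : Basis (Fin n) E (M.toMot.eig s))
    (d : Basis (Fin n) E M.toMot.quo) (hb : ∀ j, (b j : Fin M.N → E) = B.mulVec (Pi.single j 1))
    (hd : ∀ x i, d.repr (Submodule.Quotient.mk x) i = Q.mulVec x i) :
    LinearMap.toMatrix (b.baseChange R) (d.baseChange R) (M.toMot.per s) =
      Q.map (algebraMap E R) * M.P * B.map (algebraMap E R) := by
  have h1 : ∀ (z : R ⊗[E] (Fin M.N → E)) i,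
      (d.baseChange R).repr (((M.fil ((M.w + 1) / 2)).mkQ.baseChange R) z) i =
        (Q.map (algebraMap E R)).mulVec (phi E R _ z) i := by
    intro z i
    induction z using TensorProduct.induction_on with
    | zero => simp
    | tmul r x =>
      rw [LinearMap.baseChange_tmul, Basis.baseChange_repr_tmul, Submodule.mkQ_apply, hd, phi_tmul]
      simp only [Matrix.mulVec, dotProduct, Matrix.map_apply, Algebra.smul_def, map_sum, map_mul,
        Finset.sum_mul, mul_assoc]
    | add x y hx hy =>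
      rw [map_add, map_add, Finsupp.add_apply, hx, hy, map_add, Matrix.mulVec_add, Pi.add_apply]
  ext i j
  rw [LinearMap.toMatrix_apply, Basis.baseChange_apply]
  change (d.baseChange R).repr (((M.fil ((M.w + 1) / 2)).mkQ.baseChange R)
    ((phi E R (Fin M.N)).symm (M.P.mulVec (phi E R (Fin M.N)
      ((M.toMot.eig s).subtype.baseChange R (1 ⊗ₜ b j)))))) i = _
  rw [h1, LinearEquiv.apply_symm_apply, LinearMap.baseChange_tmul]
  change ((Q.map (algebraMap E R)).mulVec (M.P.mulVec (phi E R (Fin M.N)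
    (1 ⊗ₜ (b j : Fin M.N → E))))) i = _
  rw [hb, phi_tmul, Matrix.mulVec_mulVec, Matrix.mul_apply]
  simp only [Matrix.mulVec, dotProduct, Matrix.map_apply, Algebra.smul_def, mul_one]
  refine Finset.sum_congr rfl fun k _ => ?_
  congr 1
  simp [Pi.single_apply]

lemma toMot_isPeriod {M : PMot E R} {s : ℤˣ} {c : R} (h : M.IsPeriod s c) :
    M.toMot.IsPeriod s c := by
  obtain ⟨n, B, Q, hB, hB', hQ, hQ', rfl⟩ := h
  have hmem : ∀ x, B.mulVecLin x ∈ M.toMot.eig s := fun x => by
    rw [eig_toMot, ← hB']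
    exact LinearMap.mem_range_self _ x
  let eB : (Fin n → E) ≃ₗ[E] M.toMot.eig s := LinearEquiv.ofBijective
    (B.mulVecLin.codRestrict _ hmem) ⟨fun x y hxy => hB (congrArg Subtype.val hxy), fun y => by
      have h1 : (y : Fin M.N → E) ∈ M.eig s := by
        rw [← eig_toMot]
        exact y.2
      rw [← hB'] at h1
      obtain ⟨x, hx⟩ := h1
      exact ⟨x, Subtype.ext hx⟩⟩
  let eQ : M.toMot.quo ≃ₗ[E] (Fin n → E) := (Submodule.quotEquivOfEq _ _ hQ'.symm).trans
    (Q.mulVecLin.quotKerEquivOfSurjective hQ)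
  refine ⟨n, (Pi.basisFun E (Fin n)).map eB, (Pi.basisFun E (Fin n)).map eQ.symm, ?_⟩
  rw [toMatrix_per M s (B := B) (Q := Q)]
  · intro j
    rw [Basis.map_apply, Pi.basisFun_apply]
    rfl
  · intro x i
    rw [Basis.map_repr]
    rfl

/-- the periods exist -/
lemma exists_isPeriod [CharZero E] [Nontrivial R] (M : PMot E R) (h0 : M.NoMiddle) (s : ℤˣ) :
    ∃ c, M.IsPeriod s c := by
  obtain ⟨c, n, b, d, -⟩ := M.toMot.exists_period (toMot_noMiddle h0) s
  let f : (Fin n → E) →ₗ[E] (Fin M.N → E) :=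
    (M.toMot.eig s).subtype ∘ₗ b.equivFun.symm.toLinearMap
  let g : (Fin M.N → E) →ₗ[E] (Fin n → E) :=
    d.equivFun.toLinearMap ∘ₗ (M.toMot.fil ((M.w + 1) / 2)).mkQ
  have hf : (LinearMap.toMatrix' f).mulVecLin = f := by
    rw [← Matrix.toLin'_apply', Matrix.toLin'_toMatrix']
  have hg : (LinearMap.toMatrix' g).mulVecLin = g := by
    rw [← Matrix.toLin'_apply', Matrix.toLin'_toMatrix']
  refine ⟨_, n, LinearMap.toMatrix' f, LinearMap.toMatrix' g, ?_, ?_, ?_, ?_, rfl⟩
  · intro x y hxy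
    have h1 : f x = f y := by
      rw [← hf]
      exact hxy
    exact b.equivFun.symm.injective (Subtype.ext h1)
  · rw [hf, LinearMap.range_comp, LinearEquiv.range, Submodule.map_top, Submodule.range_subtype,
      eig_toMot]
  · intro y
    obtain ⟨x, hx⟩ := Submodule.mkQ_surjective _ (d.equivFun.symm y)
    refine ⟨x, ?_⟩
    change (LinearMap.toMatrix' g).mulVecLin x = y
    rw [hg]
    change d.equivFun (Submodule.mkQ _ x) = y
    rw [hx, LinearEquiv.apply_symm_apply]
  · rw [hg]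
    change LinearMap.ker (d.equivFun.toLinearMap ∘ₗ _) = _
    rw [LinearEquiv.ker_comp, Submodule.ker_mkQ]

lemma isUnit_isPeriod [CharZero E] {M : PMot E R} (h0 : M.NoMiddle) {s : ℤˣ} {c : R}
    (h : M.IsPeriod s c) : IsUnit c :=
  M.toMot.isUnit_period (toMot_noMiddle h0) (toMot_isPeriod h)

section tensor

variable {M N T : PMot E R} {β : Matrix (Fin T.N) (Fin M.N × Fin N.N) E}

/-- `E ^ m ⊗ E ^ n = E ^ (m × n)` -/
noncomputable def kap (E : Type) [Field E] (m n : ℕ) :
    ((Fin m → E) ⊗[E] (Fin n → E)) ≃ₗ[E] (Fin m × Fin n → E) :=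
  ((Pi.basisFun E (Fin m)).tensorProduct (Pi.basisFun E (Fin n))).equivFun

lemma kap_tmul (E : Type) [Field E] (m n : ℕ) (x : Fin m → E) (y : Fin n → E) :
    kap E m n (x ⊗ₜ y) = fun k => x k.1 * y k.2 := by
  ext k
  rw [kap, Basis.equivFun_apply, Basis.tensorProduct_repr_tmul_apply, Pi.basisFun_repr,
    Pi.basisFun_repr, smul_eq_mul, mul_comm]

/-- the isomorphism given by `β` -/
noncomputable def betE (h : IsTensor M N T β) : (Fin M.N × Fin N.N → E) ≃ₗ[E] (Fin T.N → E) :=
  LinearEquiv.ofLinearMap β.mulVecLin h.iso.choose.mulVecLin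
    (by rw [← Matrix.mulVecLin_mul, h.iso.choose_spec.1, Matrix.mulVecLin_one])
    (by rw [← Matrix.mulVecLin_mul, h.iso.choose_spec.2, Matrix.mulVecLin_one])

/-- the abstract isomorphism -/
noncomputable def bet (h : IsTensor M N T β) :
    ((Fin M.N → E) ⊗[E] (Fin N.N → E)) ≃ₗ[E] (Fin T.N → E) :=
  (kap E M.N N.N).trans (betE h)

lemma bet_tmul (h : IsTensor M N T β) (x : Fin M.N → E) (y : Fin N.N → E) :
    bet h (x ⊗ₜ y) = β.mulVec (fun k => x k.1 * y k.2) := by
  change β.mulVec (kap E M.N N.N (x ⊗ₜ y)) = _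
  rw [kap_tmul]

lemma kron_mulVec {K : Type} [CommRing K] {m n m' n' : Type} [Fintype m] [Fintype n]
    (A : Matrix m' m K) (B : Matrix n' n K)
    (x : m → K) (y : n → K) :
    (Matrix.kroneckerMap (fun a b => a * b) A B).mulVec (fun k => x k.1 * y k.2) =
      fun k => A.mulVec x k.1 * B.mulVec y k.2 := by
  ext k
  simp only [Matrix.mulVec, dotProduct, Matrix.kroneckerMap_apply, Fintype.sum_prod_type,
    Finset.sum_mul_sum]
  refine Finset.sum_congr rfl fun i _ => Finset.sum_congr rfl fun j _ => ?_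
  ring

/-- `Mot.Phi` for modules -/
noncomputable def PhiG {V W X : Type} [AddCommGroup V] [Module E V] [AddCommGroup W] [Module E W]
    [AddCommGroup X] [Module E X] (β : (V ⊗[E] W) ≃ₗ[E] X) :
    ((R ⊗[E] V) ⊗[R] (R ⊗[E] W)) ≃ₗ[R] (R ⊗[E] X) :=
  (AlgebraTensorModule.distribBaseChange E R V W).symm ≪≫ₗ β.baseChange E R _ _

lemma PhiG_pure {V W X : Type} [AddCommGroup V] [Module E V] [AddCommGroup W] [Module E W]
    [AddCommGroup X] [Module E X] (β : (V ⊗[E] W) ≃ₗ[E] X) (r r' : R) (m : V) (n : W) :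
    PhiG (R := R) β ((r ⊗ₜ m) ⊗ₜ (r' ⊗ₜ n)) = (r * r') ⊗ₜ β (m ⊗ₜ n) := by
  rw [PhiG, LinearEquiv.trans_apply, AlgebraTensorModule.distribBaseChange_symm_tmul,
    LinearEquiv.baseChange_tmul]

lemma phi_bet (h : IsTensor M N T β) (x : R ⊗[E] (Fin M.N → E)) (y : R ⊗[E] (Fin N.N → E)) :
    phi E R (Fin T.N) (PhiG (bet h) (x ⊗ₜ y)) =
      (β.map (algebraMap E R)).mulVec
        (fun k => phi E R (Fin M.N) x k.1 * phi E R (Fin N.N) y k.2) := by
  induction x using TensorProduct.induction_on with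
  | zero =>
    rw [zero_tmul, LinearEquiv.map_zero, LinearEquiv.map_zero, LinearEquiv.map_zero]
    ext j
    simp [Matrix.mulVec, dotProduct]
  | add x x' hx hx' =>
    rw [add_tmul, LinearEquiv.map_add, LinearEquiv.map_add, hx, hx', LinearEquiv.map_add,
      ← Matrix.mulVec_add]
    congr 1
    ext k
    simp only [Pi.add_apply, add_mul]
  | tmul r f =>
    induction y using TensorProduct.induction_on with
    | zero =>
      rw [tmul_zero, LinearEquiv.map_zero, LinearEquiv.map_zero, LinearEquiv.map_zero]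
      ext j
      simp [Matrix.mulVec, dotProduct]
    | add y y' hy hy' =>
      rw [tmul_add, LinearEquiv.map_add, LinearEquiv.map_add, hy, hy', LinearEquiv.map_add,
        ← Matrix.mulVec_add]
      congr 1
      ext k
      simp only [Pi.add_apply, mul_add]
    | tmul r' g =>
      rw [PhiG_pure, phi_tmul, phi_tmul, phi_tmul]
      ext j
      rw [bet_tmul]
      simp only [Matrix.mulVec, dotProduct, Matrix.map_apply, Algebra.smul_def, map_sum, map_mul,
        Finset.sum_mul]
      refine Finset.sum_congr rfl fun k _ => ?_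
      ring

lemma toMot_isTensor (h : IsTensor M N T β) : Mot.IsTensor M.toMot N.toMot T.toMot (bet h) where
  weight := h.weight
  frob x y := by
    change T.F.mulVec (bet h (x ⊗ₜ y)) = bet h (M.F.mulVec x ⊗ₜ N.F.mulVec y)
    rw [bet_tmul, bet_tmul, Matrix.mulVec_mulVec, h.frob, ← Matrix.mulVec_mulVec, kron_mulVec]
  hodge a b x hx y hy := by
    obtain ⟨x', hx', rfl⟩ := hx
    obtain ⟨y', hy', rfl⟩ := hy
    refine ⟨_, h.hodge a b x' hx' y' hy', ?_⟩
    change (phi E R (Fin T.N)).symm _ = PhiG (bet h)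
      (((phi E R (Fin M.N)).symm x') ⊗ₜ ((phi E R (Fin N.N)).symm y'))
    rw [LinearEquiv.symm_apply_eq, phi_bet, LinearEquiv.apply_symm_apply,
      LinearEquiv.apply_symm_apply]

end tensor

end PMot

end Pool.Agent.X33.DP
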