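import Mathlib

/-!
# Traces of permutations of the factors of a tensor power
-/

set_option autoImplicit false
set_option linter.unusedSectionVars false

namespace Pool.Agent.X33.DP

open Equiv

variable {k : ℕ}

/-- the set of cycles of `σ`, fixed points included -/
abbrev Cyc (σ : Perm (Fin k)) : Type := Quotient (Perm.SameCycle.setoid σ)

noncomputable instance (σ : Perm (Fin k)) : Fintype (Cyc σ) := Fintype.ofFinite _

noncomputable instance (σ : Perm (Fin k)) : DecidableEq (Cyc σ) := Classical.decEq _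

/-- the number of cycles of `σ`, fixed points included -/
noncomputable def numCyc (σ : Perm (Fin k)) : ℕ := Fintype.card (Cyc σ)

/-- the length of a cycle -/
noncomputable def len (σ : Perm (Fin k)) (q : Cyc σ) : ℕ :=
  (Finset.univ.filter fun i : Fin k => (Quotient.mk _ i : Cyc σ) = q).card

open Classical in
/-- the length of the cycle of odd length of `σ`, if there is exactly one, and `0` otherwise -/
noncomputable def oddLen (σ : Perm (Fin k)) : ℕ :=
  ∑ q : Cyc σ, if ∀ q', Odd (len σ q') ↔ q' = q then len σ q else 0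

lemma comp_zpow {I : Type} {σ : Perm (Fin k)} {s : Fin k → I} (h : s ∘ σ = s) (j : ℤ) (x : Fin k) :
    s ((σ ^ j) x) = s x := by
  let H : Subgroup (Perm (Fin k)) :=
    { carrier := {τ | ∀ x, s (τ x) = s x}
      mul_mem' := fun {a b} ha hb x => by
        rw [Perm.mul_apply]
        exact (ha _).trans (hb x)
      one_mem' := fun x => rfl
      inv_mem' := fun {a} ha x => by
        have := ha (a⁻¹ x)
        rw [← Perm.mul_apply, mul_inv_cancel, Perm.one_apply] at this
        exact this.symm }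
  have h1 : σ ∈ H := fun x => congrFun h x
  exact (H.zpow_mem h1 j) x

/-- colorings fixed by `σ` are functions on the cycles -/
noncomputable def colEquiv (σ : Perm (Fin k)) (I : Type) :
    (Cyc σ → I) ≃ {s : Fin k → I // s ∘ σ = s} where
  toFun r := ⟨fun i => r (Quotient.mk _ i), by
    funext i
    change r (Quotient.mk _ (σ i)) = r (Quotient.mk _ i)
    congr 1
    exact Quotient.sound ((Perm.sameCycle_apply_left).2 (Perm.SameCycle.refl σ i))⟩
  invFun s := Quotient.lift s.1 (by
    rintro a b ⟨j, hj⟩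
    rw [← hj, comp_zpow s.2])
  left_inv r := by
    funext q
    induction q using Quotient.inductionOn with
    | h i => rfl
  right_inv s := by
    apply Subtype.ext
    rfl

lemma sum_fixed {I A : Type} [Fintype I] [DecidableEq I] [AddCommMonoid A] (σ : Perm (Fin k))
    (f : (Fin k → I) → A) :
    ∑ s : Fin k → I, (if s ∘ σ = s then f s else 0) =
      ∑ r : Cyc σ → I, f (fun i => r (Quotient.mk _ i)) := by
  rw [← Finset.sum_filter, Finset.sum_subtype (p := fun s : Fin k → I => s ∘ σ = s) _ (by simp)]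
  exact (Fintype.sum_equiv (colEquiv σ I) _ _ fun r => rfl).symm

lemma prod_cyc {A : Type} [CommMonoid A] (σ : Perm (Fin k)) (g : Cyc σ → A) :
    ∏ i : Fin k, g (Quotient.mk _ i) = ∏ q, g q ^ len σ q := by
  rw [← Finset.prod_fiberwise (g := fun i : Fin k => (Quotient.mk _ i : Cyc σ))]
  refine Finset.prod_congr rfl fun q _ => ?_
  rw [len, ← Finset.prod_const]
  refine Finset.prod_congr rfl fun i hi => ?_
  rw [(Finset.mem_filter.1 hi).2]

lemma sum_cyc {A : Type} [AddCommMonoid A] (σ : Perm (Fin k)) (g : Cyc σ → A) :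
    ∑ i : Fin k, g (Quotient.mk _ i) = ∑ q, len σ q • g q := by
  rw [← Finset.sum_fiberwise (g := fun i : Fin k => (Quotient.mk _ i : Cyc σ))]
  refine Finset.sum_congr rfl fun q _ => ?_
  rw [len, ← Finset.sum_const]
  refine Finset.sum_congr rfl fun i hi => ?_
  rw [(Finset.mem_filter.1 hi).2]

/-- the sign of an index -/
def eps {n : ℕ} : Fin n ⊕ Fin n → ℤ
  | .inl _ => 1
  | .inr _ => -1

lemma sum_eps_pow (n j : ℕ) : ∑ x : Fin n ⊕ Fin n, eps x ^ j = if Even j then 2 * (n : ℤ) else 0 := by
  rw [Fintype.sum_sum_type]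
  simp only [eps, one_pow, Finset.sum_const, Finset.card_univ, Fintype.card_fin, nsmul_eq_mul,
    mul_one]
  split_ifs with h
  · rw [h.neg_one_pow]
    ring
  · rw [(Nat.not_even_iff_odd.1 h).neg_one_pow]
    ring

/-- the weighted number of colorings fixed by `σ` -/
lemma sum_fixed_eps (n : ℕ) (σ : Perm (Fin k)) :
    ∑ s : Fin k → Fin n ⊕ Fin n, (if s ∘ σ = s then (∑ i, eps (s i)) * ∏ i, eps (s i) else 0) =
      oddLen σ * (2 * (n : ℤ)) ^ numCyc σ := by
  classical
  rw [sum_fixed σ fun s => (∑ i, eps (s i)) * ∏ i, eps (s i)]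
  have h1 : ∀ r : Cyc σ → Fin n ⊕ Fin n,
      (∑ i : Fin k, eps (r (Quotient.mk _ i))) * ∏ i : Fin k, eps (r (Quotient.mk _ i)) =
      ∑ q' : Cyc σ, (len σ q' : ℤ) * ∏ q, eps (r q) ^ (len σ q + if q = q' then 1 else 0) := by
    intro r
    rw [sum_cyc σ fun q => eps (r q), prod_cyc σ fun q => eps (r q), Finset.sum_mul]
    refine Finset.sum_congr rfl fun q' _ => ?_
    simp only [pow_add, Finset.prod_mul_distrib, pow_ite, pow_one, pow_zero, Finset.prod_ite_eq',
      Finset.mem_univ, if_true, nsmul_eq_mul]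
    ring
  rw [Finset.sum_congr rfl fun r _ => h1 r, Finset.sum_comm]
  rw [oddLen, Nat.cast_sum, Finset.sum_mul]
  refine Finset.sum_congr rfl fun q' _ => ?_
  rw [← Finset.mul_sum]
  have h2 : ∑ r : Cyc σ → Fin n ⊕ Fin n,
      ∏ q, eps (r q) ^ (len σ q + if q = q' then 1 else 0) =
      ∏ q : Cyc σ, ∑ x : Fin n ⊕ Fin n, eps x ^ (len σ q + if q = q' then 1 else 0) := by
    rw [Finset.prod_univ_sum, Fintype.piFinset_univ]
  rw [h2]
  simp only [sum_eps_pow]
  by_cases hq : ∀ q, Odd (len σ q) ↔ q = q'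
  · have h5 : ∀ q, Even (len σ q + if q = q' then 1 else 0) := by
      intro q
      by_cases h3 : q = q'
      · rw [if_pos h3]
        exact ((hq q).2 h3).add_odd odd_one
      · rw [if_neg h3, add_zero]
        exact Nat.not_odd_iff_even.1 fun h4 => h3 ((hq q).1 h4)
    rw [if_pos hq, Finset.prod_congr rfl (g := fun _ => 2 * (n : ℤ)) (fun q _ => if_pos (h5 q)),
      Finset.prod_const, Finset.card_univ, numCyc]
  · rw [if_neg hq, Nat.cast_zero, zero_mul]
    push Not at hq
    obtain ⟨q, hq⟩ := hq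
    have h5 : ¬ Even (len σ q + if q = q' then 1 else 0) := by
      rcases hq with ⟨h3, h4⟩ | ⟨h3, h4⟩
      · rw [if_neg h4, add_zero]
        exact Nat.not_even_iff_odd.2 h3
      · rw [if_pos h4]
        exact Nat.not_even_iff_odd.2 ((Nat.not_odd_iff_even.1 h3).add_odd odd_one)
    rw [Finset.prod_eq_zero (Finset.mem_univ q) (if_neg h5), mul_zero]

end Pool.Agent.X33.DP
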