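import Mathlib

/-!
# Realisations of motives and Deligne's periods

Betti and de Rham realisations of a pure motive over `ℚ` with coefficients in a field `E`, the
comparison isomorphism over an `E`-algebra `R` (for motives `R = E ⊗ ℂ`), the involution `F_∞` and
the Hodge decomposition.
-/

set_option autoImplicit false

namespace Pool.Agent.X33.DP

open TensorProduct Module

/-- The Betti and the de Rham realisation of a pure motive of weight `w` over `ℚ` with coefficients in
`E`, with the involution `F_∞` (`frob`), the Hodge decomposition `M_B ⊗ ℂ = ⊕ M^{p, w - p}`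
(`H p = M^{p, w - p}`, free modules over `E ⊗ ℂ`, exchanged by `F_∞`), the Hodge filtration `fil` and
the comparison isomorphism `I`, which maps `⊕_{p ≥ i} M^{p, w - p}` onto `F^i M ⊗ ℂ`. The ring `R` is
`E ⊗ ℂ`. -/
structure Mot (E R : Type) [Field E] [CommRing R] [Algebra E R] where
  /-- the Betti realisation -/
  B : Type
  [grB : AddCommGroup B]
  [modB : Module E B]
  [finB : FiniteDimensional E B]
  /-- the de Rham realisation -/
  D : Type
  [grD : AddCommGroup D]
  [modD : Module E D]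
  [finD : FiniteDimensional E D]
  /-- the weight -/
  w : ℤ
  /-- the involution `F_∞` -/
  frob : B →ₗ[E] B
  frob_frob : ∀ x, frob (frob x) = x
  /-- the Hodge decomposition, `H p = M^{p, w - p}` -/
  H : ℤ → Submodule R (R ⊗[E] B)
  hodge : ∃ (ι : Type) (_ : Fintype ι) (v : Basis ι R (R ⊗[E] B)) (t : ι → ℤ),
    ∀ p, H p = Submodule.span R (v '' {j | t j = p})
  swap : ∀ p, (H p).map (frob.baseChange R) = H (w - p)
  /-- the Hodge filtration -/
  fil : ℤ → Submodule E D
  /-- the comparison isomorphism -/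
  I : (R ⊗[E] B) ≃ₗ[R] (R ⊗[E] D)
  comp : ∀ i, (⨆ p, ⨆ (_ : i ≤ p), H p).map (I : (R ⊗[E] B) →ₗ[R] (R ⊗[E] D)) =
    (fil i).baseChange R

attribute [instance] Mot.grB Mot.modB Mot.finB Mot.grD Mot.modD Mot.finD

namespace Mot

variable {E R : Type} [Field E] [CommRing R] [Algebra E R]

/-- the eigenspace `M^+` (`s = 1`) or `M^-` (`s = -1`) of `F_∞` in the Betti realisation -/
def eig (M : Mot E R) (s : ℤˣ) : Submodule E M.B where
  carrier := {x | M.frob x = (s : ℤ) • x}
  zero_mem' := by simp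
  add_mem' := by
    intro a b ha hb
    change M.frob (a + b) = (s : ℤ) • (a + b)
    rw [map_add, smul_add, show M.frob a = (s : ℤ) • a from ha, show M.frob b = (s : ℤ) • b from hb]
  smul_mem' := by
    intro c a ha
    change M.frob (c • a) = (s : ℤ) • (c • a)
    rw [map_smul, show M.frob a = (s : ℤ) • a from ha, smul_comm]

/-- the quotient of the de Rham realisation by `F^± M = F^{[(w + 1) / 2]} M` -/
abbrev quo (M : Mot E R) : Type := M.D ⧸ M.fil ((M.w + 1) / 2)

/-- the map `I_∞^±` from `M^± ⊗ ℂ` to `(M_DR / F^± M) ⊗ ℂ` -/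
noncomputable def per (M : Mot E R) (s : ℤˣ) : (R ⊗[E] M.eig s) →ₗ[R] (R ⊗[E] M.quo) :=
  ((M.fil ((M.w + 1) / 2)).mkQ.baseChange R) ∘ₗ (M.I : (R ⊗[E] M.B) →ₗ[R] (R ⊗[E] M.D)) ∘ₗ
    ((M.eig s).subtype.baseChange R)

/-- `c` is a Deligne period `c^±(M)`: the determinant of `I_∞^±` in `E`-bases of `M^±` and of
`M_DR / F^± M` -/
def IsPeriod (M : Mot E R) (s : ℤˣ) (c : R) : Prop :=
  ∃ (n : ℕ) (b : Basis (Fin n) E (M.eig s)) (d : Basis (Fin n) E M.quo),
    c = (LinearMap.toMatrix (b.baseChange R) (d.baseChange R) (M.per s)).det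

/-- there are no `(w / 2, w / 2)`-classes -/
def NoMiddle (M : Mot E R) : Prop := ∀ p, 2 * p = M.w → M.H p = ⊥

/-- `x ⊗ y` for `x` in `M_B ⊗ ℂ` and `y` in `N_B ⊗ ℂ`, an element of `(M_B ⊗ N_B) ⊗ ℂ` -/
noncomputable def tens {B B' : Type} [AddCommGroup B] [Module E B] [AddCommGroup B'] [Module E B']
    (x : R ⊗[E] B) (y : R ⊗[E] B') : R ⊗[E] (B ⊗[E] B') :=
  (AlgebraTensorModule.distribBaseChange E R B B').symm (x ⊗ₜ[R] y)

/-- `β` is an isomorphism of `M_B ⊗ N_B` and `T_B` compatible with `F_∞` and the Hodge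
decompositions -/
structure IsTensor (M N T : Mot E R) (β : (M.B ⊗[E] N.B) ≃ₗ[E] T.B) : Prop where
  weight : T.w = M.w + N.w
  frob : ∀ x y, T.frob (β (x ⊗ₜ y)) = β (M.frob x ⊗ₜ N.frob y)
  hodge : ∀ a b, ∀ x ∈ M.H a, ∀ y ∈ N.H b, (β.baseChange E R _ _) (tens x y) ∈ T.H (a + b)

end Mot

end Pool.Agent.X33.DP
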