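import Pool.Agent.X33.DP.Bas

/-!
# The formula for the ratio of the periods of a tensor product
-/

set_option autoImplicit false
set_option linter.unusedSectionVars false

namespace Pool.Agent.X33.DP

open TensorProduct Module
open scoped Kronecker

namespace Mot

variable {E R : Type} [Field E] [CommRing R] [Algebra E R] [CharZero E]
  {M N T : Mot E R}

/-- the matrix of `J` in `E`-bases -/
noncomputable def mJ (M : Mot E R) (s s' : ℤˣ) {ι ι' : Type} [Fintype ι] [Finite ι']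
    [DecidableEq ι] (b : Basis ι E (M.eig s)) (b' : Basis ι' E (M.eig s')) : Matrix ι' ι R :=
  LinearMap.toMatrix (b.baseChange R) (b'.baseChange R) (M.res M.J s s')

lemma J_inc (M : Mot E R) {s s' : ℤˣ} (hs : s' = -s) {ι ι' : Type} [Fintype ι] [Fintype ι']
    [DecidableEq ι] (b : Basis ι E (M.eig s)) (b' : Basis ι' E (M.eig s')) (i : ι) :
    M.J (1 ⊗ₜ (b i : M.B)) = ∑ k, M.mJ s s' b b' k i • (1 ⊗ₜ (b' k : M.B)) := by
  have h1 := M.inc_J hs (1 ⊗ₜ b i)
  have h2 : M.inc s (1 ⊗ₜ b i) = 1 ⊗ₜ (b i : M.B) := rfl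
  rw [h2] at h1
  rw [← h1, show (1 : R) ⊗ₜ[E] b i = b.baseChange R i by rw [Basis.baseChange_apply]]
  have h3 : M.res M.J s s' (b.baseChange R i) = ∑ k, M.mJ s s' b b' k i • b'.baseChange R k := by
    rw [← Matrix.toLin_self (b.baseChange R) (b'.baseChange R), mJ, Matrix.toLin_toMatrix]
  rw [h3, map_sum]
  refine Finset.sum_congr rfl fun k _ => ?_
  rw [map_smul, Basis.baseChange_apply]
  rfl

lemma mJ_mul (M : Mot E R) (h0 : M.NoMiddle) {s s' : ℤˣ} (hs : s' = -s) {ι ι' : Type} [Fintype ι]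
    [Fintype ι'] [DecidableEq ι] [DecidableEq ι'] (b : Basis ι E (M.eig s))
    (b' : Basis ι' E (M.eig s')) : M.mJ s' s b' b * M.mJ s s' b b' = 1 := by
  rw [mJ, mJ, ← LinearMap.toMatrix_comp, M.res_res (c := -1) M.F_J (by rw [hs, neg_one_mul]),
    show M.J ∘ₗ M.J = LinearMap.id from LinearMap.ext (M.J_J h0), M.res_id, LinearMap.toMatrix_id]

/-- the matrix of `J ⊗ 1` -/
lemma matrix_K {β : (M.B ⊗[E] N.B) ≃ₗ[E] T.B} (h : IsTensor M N T β) {n a b : ℕ}
    (u : Basis (Fin n) E (M.eig 1)) (u' : Basis (Fin n) E (M.eig (-1)))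
    (v : Basis (Fin a) E (N.eig 1)) (v' : Basis (Fin b) E (N.eig (-1)))
    (t : Basis ((Fin n × Fin a) ⊕ (Fin n × Fin b)) E (T.eig 1))
    (t' : Basis ((Fin n × Fin a) ⊕ (Fin n × Fin b)) E (T.eig (-1)))
    (h1 : ∀ i j, (t (.inl (i, j)) : T.B) = β ((u i : M.B) ⊗ₜ (v j : N.B)))
    (h2 : ∀ i j, (t (.inr (i, j)) : T.B) = β ((u' i : M.B) ⊗ₜ (v' j : N.B)))
    (h3 : ∀ i j, (t' (.inl (i, j)) : T.B) = β ((u' i : M.B) ⊗ₜ (v j : N.B)))
    (h4 : ∀ i j, (t' (.inr (i, j)) : T.B) = β ((u i : M.B) ⊗ₜ (v' j : N.B))) :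
    LinearMap.toMatrix (t.baseChange R) (t'.baseChange R) (T.res (K β) 1 (-1)) =
      Matrix.fromBlocks (M.mJ 1 (-1) u u' ⊗ₖ (1 : Matrix (Fin a) (Fin a) R)) 0 0
        (M.mJ (-1) 1 u' u ⊗ₖ (1 : Matrix (Fin b) (Fin b) R)) := by
  refine (Matrix.toLin (t.baseChange R) (t'.baseChange R)).injective ?_
  rw [Matrix.toLin_toMatrix]
  refine (t.baseChange R).ext fun p => ?_
  rw [Matrix.toLin_self, Fintype.sum_sum_type, Fintype.sum_prod_type, Fintype.sum_prod_type]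
  have hF := F_K h
  rcases p with ⟨i, j⟩ | ⟨i, j⟩
  · simp only [Matrix.fromBlocks_apply₁₁, Matrix.fromBlocks_apply₂₁, Matrix.kroneckerMap_apply,
      Matrix.zero_apply, zero_smul, Finset.sum_const_zero, add_zero, Matrix.one_apply, mul_ite,
      mul_one, mul_zero, ite_smul, Finset.sum_ite_eq', Finset.mem_univ, if_true]
    refine T.inc_inj (-1) ?_
    rw [T.inc_res (c := -1) (A := K β) hF (by rw [neg_one_mul]), map_sum]
    rw [Basis.baseChange_apply, show T.inc 1 (1 ⊗ₜ t (.inl (i, j))) = 1 ⊗ₜ (t (.inl (i, j)) : T.B)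
      from rfl, h1, ← mul_one (1 : R), ← Phi_pure, K_Phi, M.J_inc rfl u u', sum_tmul, map_sum]
    refine Finset.sum_congr rfl fun k _ => ?_
    rw [← smul_tmul', (Phi β).map_smul, Phi_pure, mul_one, map_smul, Basis.baseChange_apply,
      show T.inc (-1) (1 ⊗ₜ t' (.inl (k, j))) = 1 ⊗ₜ (t' (.inl (k, j)) : T.B) from rfl, h3]
  · simp only [Matrix.fromBlocks_apply₂₂, Matrix.fromBlocks_apply₁₂, Matrix.kroneckerMap_apply,
      Matrix.zero_apply, zero_smul, Finset.sum_const_zero, zero_add, Matrix.one_apply, mul_ite,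
      mul_one, mul_zero, ite_smul, Finset.sum_ite_eq', Finset.mem_univ, if_true]
    refine T.inc_inj (-1) ?_
    rw [T.inc_res (c := -1) (A := K β) hF (by rw [neg_one_mul]), map_sum]
    rw [Basis.baseChange_apply, show T.inc 1 (1 ⊗ₜ t (.inr (i, j))) = 1 ⊗ₜ (t (.inr (i, j)) : T.B)
      from rfl, h2, ← mul_one (1 : R), ← Phi_pure, K_Phi, M.J_inc (s := -1) (s' := 1)
      (by rw [neg_neg]) u' u, sum_tmul, map_sum]
    refine Finset.sum_congr rfl fun k _ => ?_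
    rw [← smul_tmul', (Phi β).map_smul, Phi_pure, mul_one, map_smul, Basis.baseChange_apply,
      show T.inc (-1) (1 ⊗ₜ t' (.inr (k, j))) = 1 ⊗ₜ (t' (.inr (k, j)) : T.B) from rfl, h4]

end Mot

end Pool.Agent.X33.DP
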