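import Mathlib

/-!
# Multiplicative functions of matrices factor through the determinant
-/

set_option autoImplicit false

namespace Pool.Agent.X33.DP

open Matrix

variable {K : Type} [Field K] [CharZero K] {n : Type} [Fintype n] [DecidableEq n]

lemma mult_ne_zero (ρ : Matrix n n K →* K) {A B : Matrix n n K} (h : A * B = 1) : ρ A ≠ 0 := by
  intro h0
  have h1 : ρ (A * B) = 1 := by rw [h, map_one]
  rw [map_mul, h0, zero_mul] at h1
  exact zero_ne_one h1

/-- a multiplicative function of matrices is trivial on transvections -/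
lemma mult_transvection (ρ : Matrix n n K →* K) {i j : n} (hij : i ≠ j) (c : K) :
    ρ (transvection i j c) = 1 := by
  have h1 : diagonal (Pi.mulSingle i (2 : K)) * transvection i j c =
      transvection i j c * transvection i j c * diagonal (Pi.mulSingle i (2 : K)) := by
    rw [transvection_mul_transvection_same i j hij]
    ext a b
    rw [diagonal_mul, mul_diagonal, transvection, transvection, Matrix.add_apply,
      Matrix.add_apply, single_apply, single_apply, one_apply]
    by_cases ha : i = a
    · subst ha
      by_cases hb : j = b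
      · subst hb
        simp [hij, hij.symm]
        ring
      · by_cases hab : i = b
        · subst hab
          simp [hb]
        · simp [hb, hab]
    · by_cases hab : a = b
      · subst hab
        simp [ha, Ne.symm ha]
      · simp [ha, hab]
  have h2 : ρ (transvection i j c) ≠ 0 := mult_ne_zero ρ (B := transvection i j (-c)) (by
    rw [transvection_mul_transvection_same i j hij, add_neg_cancel, transvection_zero])
  have h3 : ρ (diagonal (Pi.mulSingle i (2 : K))) ≠ 0 :=
    mult_ne_zero ρ (B := diagonal (Pi.mulSingle i (2⁻¹ : K))) (by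
      rw [diagonal_mul_diagonal]
      have h5 : (fun k => (Pi.mulSingle i (2 : K) : n → K) k * (Pi.mulSingle i (2⁻¹ : K) : n → K) k) =
          (1 : n → K) := by
        have h6 := Pi.mulSingle_mul (f := fun _ : n => K) i (2 : K) 2⁻¹
        rw [mul_inv_cancel₀ two_ne_zero, Pi.mulSingle_one] at h6
        exact h6.symm
      rw [h5]
      exact diagonal_one)
  have h4 := congrArg ρ h1
  rw [map_mul, map_mul, map_mul] at h4
  have h5 : ρ (transvection i j c) * (ρ (transvection i j c) * ρ (diagonal (Pi.mulSingle i (2 : K)))) =
      1 * (ρ (transvection i j c) * ρ (diagonal (Pi.mulSingle i (2 : K)))) := by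
    rw [← mul_assoc, ← h4]
    ring
  exact mul_right_cancel₀ (mul_ne_zero h2 h3) h5

/-- a multiplicative function of matrices is `1` on matrices of determinant `1` -/
theorem mult_det_one (ρ : Matrix n n K →* K) {A : Matrix n n K} (hA : A.det = 1) : ρ A = 1 := by
  refine diagonal_transvection_induction (fun A => ρ A = 1) A ?_ ?_ ?_
  · intro D hD
    rw [hA, det_diagonal] at hD
    cases isEmpty_or_nonempty n with
    | inl h =>
      rw [show diagonal D = (1 : Matrix n n K) from Subsingleton.elim _ _, map_one]
    | inr h =>
      obtain ⟨i0⟩ := h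
      let r : (n → K) →* K :=
        { toFun := fun D => ρ (diagonal D)
          map_one' := by
            rw [show diagonal (1 : n → K) = 1 from diagonal_one, map_one]
          map_mul' := fun D D' => by
            rw [← map_mul, diagonal_mul_diagonal]
            rfl }
      have hr : ∀ D, r D = ρ (diagonal D) := fun _ => rfl
      have hsw : ∀ i d, r (Pi.mulSingle i d) = r (Pi.mulSingle i0 d) := by
        intro i d
        have h1 : Matrix.swap K i i0 * diagonal (Pi.mulSingle i d) =
            diagonal (Pi.mulSingle i0 d) * Matrix.swap K i i0 := by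
          ext a b
          rw [mul_diagonal, diagonal_mul, Matrix.swap, Equiv.Perm.permMatrix, PEquiv.toMatrix_apply]
          by_cases hab : b ∈ (Equiv.swap i i0).toPEquiv a
          · rw [if_pos hab, one_mul, mul_one]
            have h5 : Equiv.swap i i0 a = b := by
              rw [Equiv.toPEquiv_apply, Option.mem_some_iff] at hab
              exact hab
            rw [← h5]
            by_cases ha : a = i0
            · rw [ha, Equiv.swap_apply_right, Pi.mulSingle_eq_same, Pi.mulSingle_eq_same]
            · rw [Pi.mulSingle_eq_of_ne ha, Pi.mulSingle_eq_of_ne]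
              intro h6
              exact ha (Equiv.injective (Equiv.swap i i0) (h6.trans (Equiv.swap_apply_right i i0).symm))
          · rw [if_neg hab, zero_mul, mul_zero]
        have h2 : ρ (Matrix.swap K i i0) ≠ 0 := mult_ne_zero ρ (Matrix.swap_mul_self i i0)
        have h3 := congrArg ρ h1
        rw [map_mul, map_mul, mul_comm] at h3
        exact mul_right_cancel₀ h2 h3
      rw [← hr, ← Finset.univ_prod_mulSingle D, map_prod]
      simp only [hsw]
      let r0 : K →* K := r.comp (MonoidHom.mulSingle (fun _ : n => K) i0)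
      have h4 : ∀ d, r (Pi.mulSingle i0 d) = r0 d := fun _ => rfl
      simp only [h4]
      rw [← map_prod, hD, map_one]
  · intro t
    exact mult_transvection ρ t.hij t.c
  · intro A B hA hB
    rw [map_mul, hA, hB, one_mul]

/-- a multiplicative function of matrices that is `c ^ α` on the scalar matrices is a power of the
determinant -/
theorem mult_eq_pow [IsAlgClosed K] {k α : ℕ} (ρ : Matrix (Fin k) (Fin k) K →* K)
    (h : ∀ c : K, c ≠ 0 → ρ (c • (1 : Matrix (Fin k) (Fin k) K)) = c ^ α) :
    ∃ α' : ℕ, α = k * α' ∧ ∀ A : Matrix (Fin k) (Fin k) K, A.det ≠ 0 → ρ A = A.det ^ α' := by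
  rcases Nat.eq_zero_or_pos k with rfl | hk
  · have h1 := h 2 two_ne_zero
    rw [show (2 : K) • (1 : Matrix (Fin 0) (Fin 0) K) = 1 from Subsingleton.elim _ _, map_one] at h1
    have h2 : α = 0 := by
      by_contra hα
      have h3 : (2 : ℕ) ^ α = 1 := by exact_mod_cast h1.symm
      rw [Nat.pow_eq_one] at h3
      omega
    refine ⟨0, by rw [h2], fun A _ => ?_⟩
    rw [show A = 1 from Subsingleton.elim _ _, map_one, pow_zero]
  · have : NeZero (k : K) := ⟨by exact_mod_cast hk.ne'⟩
    obtain ⟨ζ, hζ⟩ := HasEnoughRootsOfUnity.exists_primitiveRoot K k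
    have hζ0 : ζ ≠ 0 := hζ.ne_zero hk.ne'
    have h1 : ρ (ζ • (1 : Matrix (Fin k) (Fin k) K)) = 1 := mult_det_one ρ (by
      rw [Matrix.det_smul, Matrix.det_one, mul_one, Fintype.card_fin, hζ.pow_eq_one])
    rw [h ζ hζ0] at h1
    obtain ⟨α', rfl⟩ := (hζ.pow_eq_one_iff_dvd α).1 h1
    refine ⟨α', rfl, fun A hA => ?_⟩
    obtain ⟨c, hc⟩ := IsAlgClosed.exists_pow_nat_eq A.det hk
    have hc0 : c ≠ 0 := by
      rintro rfl
      rw [zero_pow hk.ne'] at hc
      exact hA hc.symm
    have h2 : A = (c • (1 : Matrix (Fin k) (Fin k) K)) * (c⁻¹ • A) := by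
      rw [smul_mul_smul_comm, mul_inv_cancel₀ hc0, one_smul, one_mul]
    have h3 : ρ (c⁻¹ • A) = 1 := mult_det_one ρ (by
      rw [Matrix.det_smul, Fintype.card_fin, ← hc, ← mul_pow, inv_mul_cancel₀ hc0, one_pow])
    rw [h2, map_mul, h3, mul_one, h c hc0, ← h2, ← hc, pow_mul]

end Pool.Agent.X33.DP
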