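import Pool.Agent.X33.DP.Cyc

/-!
# Weighted injections
-/

set_option autoImplicit false
set_option linter.unusedSectionVars false

namespace Pool.Agent.X33.DP

open Polynomial

/-- `k!` times the coefficients of `(1 + X)^p (1 - X)^q` -/
def cc : ℕ → ℕ → ℕ → ℤ
  | 0, _, _ => 1
  | k + 1, p, q => p * cc k (p - 1) q - q * cc k p (q - 1)

lemma cc_eq (k p q : ℕ) :
    cc k p q = (k.factorial : ℤ) * (((1 + X) ^ p * (1 - X) ^ q : ℤ[X]).coeff k) := by
  induction k generalizing p q with
  | zero =>
    rw [cc, Polynomial.coeff_zero_eq_eval_zero]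
    simp
  | succ k ih =>
    have h1 : (derivative ((1 + X) ^ p * (1 - X) ^ q : ℤ[X])).coeff k =
        p * ((1 + X) ^ (p - 1) * (1 - X) ^ q : ℤ[X]).coeff k -
          q * ((1 + X) ^ p * (1 - X) ^ (q - 1) : ℤ[X]).coeff k := by
      have h2 : derivative ((1 + X) ^ p * (1 - X) ^ q : ℤ[X]) =
          C (p : ℤ) * ((1 + X) ^ (p - 1) * (1 - X) ^ q) -
            C (q : ℤ) * ((1 + X) ^ p * (1 - X) ^ (q - 1)) := by
        rw [derivative_mul, derivative_pow, derivative_pow]
        simp only [derivative_add, derivative_sub, derivative_one, derivative_X, zero_add, mul_one,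
          zero_sub]
        ring
      rw [h2, coeff_sub, coeff_C_mul, coeff_C_mul]
    rw [coeff_derivative] at h1
    rw [cc, ih, ih, Nat.factorial_succ]
    push_cast
    linear_combination (-(k.factorial : ℤ)) * h1

section Q

variable {I : Type} [Fintype I] [DecidableEq I] (w : I → ℤ)

open Classical in
/-- the weighted number of injections into `A` -/
noncomputable def Qf (k : ℕ) (A : Finset I) : ℤ :=
  ∑ s : Fin k → I, if Function.Injective s ∧ (∀ i, s i ∈ A) then ∏ i, w (s i) else 0

lemma sum_cons {B : Type} [AddCommMonoid B] (k : ℕ) (f : (Fin (k + 1) → I) → B) :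
    ∑ s : Fin (k + 1) → I, f s = ∑ x : I, ∑ s : Fin k → I, f (Fin.cons x s) := by
  rw [← Fintype.sum_prod_type']
  exact (Fintype.sum_equiv (Fin.consEquiv fun _ => I) _ _ fun x => rfl).symm

lemma cons_iff (k : ℕ) (A : Finset I) (x : I) (s : Fin k → I) :
    (Function.Injective (Fin.cons x s : Fin (k + 1) → I) ∧
      ∀ i, (Fin.cons x s : Fin (k + 1) → I) i ∈ A) ↔
      x ∈ A ∧ Function.Injective s ∧ ∀ i, s i ∈ A.erase x := by
  rw [Fin.cons_injective_iff, Fin.forall_fin_succ]
  simp only [Fin.cons_zero, Fin.cons_succ, Finset.mem_erase, Set.mem_range, not_exists]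
  constructor
  · rintro ⟨⟨h1, h2⟩, h3, h4⟩
    exact ⟨h3, h2, fun i => ⟨h1 i, h4 i⟩⟩
  · rintro ⟨h3, h2, h4⟩
    exact ⟨⟨fun i => (h4 i).1, h2⟩, h3, fun i => (h4 i).2⟩

lemma Qf_succ (k : ℕ) (A : Finset I) : Qf w (k + 1) A = ∑ x ∈ A, w x * Qf w k (A.erase x) := by
  classical
  rw [Qf, sum_cons]
  simp only [cons_iff, Fin.prod_univ_succ, Fin.cons_zero, Fin.cons_succ]
  rw [← Finset.sum_filter_add_sum_filter_not Finset.univ (fun x => x ∈ A)]
  rw [Finset.sum_eq_zero (s := Finset.univ.filter fun x => x ∉ A), add_zero]
  · refine Finset.sum_congr (by ext; simp) fun x hx => ?_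
    rw [Qf, Finset.mul_sum]
    refine Finset.sum_congr rfl fun s _ => ?_
    simp only [hx, true_and]
    split_ifs
    · rfl
    · rw [mul_zero]
  · intro x hx
    rw [Finset.mem_filter] at hx
    refine Finset.sum_eq_zero fun s _ => ?_
    rw [if_neg (fun h => hx.2 h.1)]

variable (hw : ∀ x, w x = 1 ∨ w x = -1)

include hw in
lemma Qf_eq (k : ℕ) (A : Finset I) :
    Qf w k A = cc k (A.filter fun x => w x = 1).card (A.filter fun x => w x = -1).card := by
  induction k generalizing A with
  | zero =>
    rw [Qf, cc]
    simp [Function.injective_of_subsingleton]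
  | succ k ih =>
    rw [Qf_succ, cc, ← Finset.sum_filter_add_sum_filter_not A (fun x => w x = 1)]
    have h1 : ∑ x ∈ A with w x = 1, w x * Qf w k (A.erase x) =
        ((A.filter fun x => w x = 1).card : ℤ) *
          cc k ((A.filter fun x => w x = 1).card - 1) (A.filter fun x => w x = -1).card := by
      rw [Finset.sum_congr rfl (g := fun _ =>
        cc k ((A.filter fun x => w x = 1).card - 1) (A.filter fun x => w x = -1).card),
        Finset.sum_const, nsmul_eq_mul]
      intro x hx
      rw [Finset.mem_filter] at hx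
      rw [ih, hx.2, one_mul, Finset.filter_erase, Finset.filter_erase,
        Finset.card_erase_of_mem (Finset.mem_filter.2 hx),
        Finset.erase_eq_of_notMem (a := x) (s := A.filter fun x => w x = -1)]
      intro h
      have := (Finset.mem_filter.1 h).2
      rw [hx.2] at this
      norm_num at this
    have h2 : ∑ x ∈ A with ¬ w x = 1, w x * Qf w k (A.erase x) =
        -((A.filter fun x => w x = -1).card : ℤ) *
          cc k (A.filter fun x => w x = 1).card ((A.filter fun x => w x = -1).card - 1) := by
      have h3 : (A.filter fun x => ¬ w x = 1) = A.filter fun x => w x = -1 := by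
        ext x
        rw [Finset.mem_filter, Finset.mem_filter]
        refine and_congr_right fun _ => ?_
        rcases hw x with h | h <;> rw [h] <;> norm_num
      rw [h3, Finset.sum_congr rfl (g := fun _ =>
        -cc k (A.filter fun x => w x = 1).card ((A.filter fun x => w x = -1).card - 1)),
        Finset.sum_const, nsmul_eq_mul, mul_neg, neg_mul]
      intro x hx
      rw [Finset.mem_filter] at hx
      rw [ih, hx.2, neg_one_mul, Finset.filter_erase, Finset.filter_erase,
        Finset.card_erase_of_mem (s := A.filter fun x => w x = -1) (Finset.mem_filter.2 hx),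
        Finset.erase_eq_of_notMem (a := x) (s := A.filter fun x => w x = 1)]
      intro h
      have := (Finset.mem_filter.1 h).2
      rw [hx.2] at this
      norm_num at this
    rw [h1, h2]
    ring

include hw in
open Classical in
/-- the derivative of the weighted number of injections -/
lemma sum_inj (k : ℕ) :
    ∑ s : Fin (k + 1) → I, (if Function.Injective s then (∑ i, w (s i)) * ∏ i, w (s i) else 0) =
      (k + 1) * ∑ x : I, Qf w k (Finset.univ.erase x) := by
  have h1 : ∀ j : Fin (k + 1), ∑ s : Fin (k + 1) → I,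
      (if Function.Injective s then w (s j) * ∏ i, w (s i) else 0) =
      ∑ s : Fin (k + 1) → I, (if Function.Injective s then w (s 0) * ∏ i, w (s i) else 0) := by
    intro j
    refine Fintype.sum_equiv (Equiv.arrowCongr (Equiv.swap 0 j) (Equiv.refl I)) _ _ fun s => ?_
    have h2 : (Equiv.arrowCongr (Equiv.swap 0 j) (Equiv.refl I)) s = s ∘ Equiv.swap 0 j := by
      funext i
      rfl
    rw [h2, Equiv.prod_comp (Equiv.swap 0 j) (fun i => w (s i)) |>.symm]
    have h3 : Function.Injective (s ∘ Equiv.swap 0 j) ↔ Function.Injective s :=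
      Function.Injective.of_comp_iff' s (Equiv.bijective _)
    simp only [h3, Function.comp_apply, Equiv.swap_apply_left]
  have h2 : ∀ s : Fin (k + 1) → I,
      (if Function.Injective s then (∑ i, w (s i)) * ∏ i, w (s i) else 0) =
      ∑ j, (if Function.Injective s then w (s j) * ∏ i, w (s i) else 0) := by
    intro s
    split_ifs
    · rw [Finset.sum_mul]
    · rw [Finset.sum_const_zero]
  rw [Finset.sum_congr rfl fun s _ => h2 s, Finset.sum_comm, Finset.sum_congr rfl fun j _ => h1 j,
    Finset.sum_const, Finset.card_univ, Fintype.card_fin, nsmul_eq_mul, sum_cons]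
  push_cast
  congr 1
  refine Finset.sum_congr rfl fun x _ => ?_
  rw [Qf]
  refine Finset.sum_congr rfl fun s _ => ?_
  have h3 := cons_iff k Finset.univ x s
  simp only [Finset.mem_univ, implies_true, and_true, true_and] at h3
  simp only [h3, Fin.prod_univ_succ, Fin.cons_zero, Fin.cons_succ]
  split_ifs
  · rw [← mul_assoc]
    rcases hw x with h | h <;> rw [h] <;> ring
  · rfl

end Q

end Pool.Agent.X33.DP
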