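import Pool.Agent.X33.DP.Basic

/-!
# The operator `J`: `1` on `M^{p,q}`, `p > q`, and `-1` on `M^{p,q}`, `p < q`
-/

set_option autoImplicit false
set_option linter.unusedSectionVars false

namespace Pool.Agent.X33.DP

open TensorProduct Module

namespace Mot

variable {E R : Type} [Field E] [CommRing R] [Algebra E R]

/-- `sign (2 p - w)` -/
def sg (M : Mot E R) (p : ℤ) : ℤ := (2 * p - M.w).sign

lemma sg_swap (M : Mot E R) (p : ℤ) : M.sg (M.w - p) = -M.sg p := by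
  unfold sg
  rw [← Int.sign_neg]
  congr 1
  ring

lemma sg_sq (M : Mot E R) {p : ℤ} (h : 2 * p ≠ M.w) : M.sg p * M.sg p = 1 := by
  unfold sg
  rcases lt_or_gt_of_ne h with h | h
  · rw [Int.sign_eq_neg_one_of_neg (by omega)]; norm_num
  · rw [Int.sign_eq_one_of_pos (by omega)]; norm_num

lemma exists_J (M : Mot E R) : ∃ J : (R ⊗[E] M.B) →ₗ[R] (R ⊗[E] M.B),
    ∀ p, ∀ x ∈ M.H p, J x = M.sg p • x := by
  obtain ⟨ι, _, v, t, h⟩ := M.hodge
  refine ⟨v.constr ℕ fun j => M.sg (t j) • v j, fun p x hx => ?_⟩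
  rw [h p] at hx
  induction hx using Submodule.span_induction with
  | mem x hx =>
    obtain ⟨j, hj, rfl⟩ := hx
    rw [Basis.constr_basis, show t j = p from hj]
  | zero => rw [map_zero, smul_zero]
  | add x y _ _ hx hy => rw [map_add, hx, hy, smul_add]
  | smul c x _ hx => rw [map_smul, hx, smul_comm]

/-- the operator `J` -/
noncomputable def J (M : Mot E R) : (R ⊗[E] M.B) →ₗ[R] (R ⊗[E] M.B) := M.exists_J.choose

lemma J_mem (M : Mot E R) {p : ℤ} {x : R ⊗[E] M.B} (hx : x ∈ M.H p) : M.J x = M.sg p • x :=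
  M.exists_J.choose_spec p x hx

/-- to prove a linear statement it suffices to look at the `M^{p,q}` -/
lemma ext_H (M : Mot E R) {W : Type} [AddCommGroup W] [Module R W]
    {f g : (R ⊗[E] M.B) →ₗ[R] W} (h : ∀ p, ∀ x ∈ M.H p, f x = g x) : f = g := by
  obtain ⟨ι, _, v, t, hv⟩ := M.hodge
  refine v.ext fun j => h (t j) _ ?_
  rw [hv]
  exact Submodule.subset_span ⟨j, rfl, rfl⟩

lemma F_mem (M : Mot E R) {p : ℤ} {x : R ⊗[E] M.B} (hx : x ∈ M.H p) : M.F x ∈ M.H (M.w - p) := by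
  rw [← M.swap p]
  exact Submodule.mem_map_of_mem hx

lemma J_F (M : Mot E R) (x : R ⊗[E] M.B) : M.J (M.F x) = -M.F (M.J x) := by
  have h : M.J ∘ₗ M.F = -(M.F ∘ₗ M.J) := M.ext_H fun p x hx => by
    change M.J (M.F x) = -M.F (M.J x)
    rw [M.J_mem (M.F_mem hx), M.J_mem hx, sg_swap, map_zsmul, neg_smul]
  exact LinearMap.congr_fun h x

lemma J_J (M : Mot E R) (h0 : M.NoMiddle) (x : R ⊗[E] M.B) : M.J (M.J x) = x := by
  have h : M.J ∘ₗ M.J = LinearMap.id := M.ext_H fun p x hx => by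
    change M.J (M.J x) = x
    rw [M.J_mem hx, map_zsmul, M.J_mem hx, smul_smul]
    by_cases hp : 2 * p = M.w
    · rw [h0 p hp, Submodule.mem_bot] at hx
      rw [hx, smul_zero]
    · rw [M.sg_sq hp, one_smul]
  exact LinearMap.congr_fun h x

/-- the map to `(M_DR / F^±) ⊗ ℂ` -/
noncomputable def pj (M : Mot E R) : (R ⊗[E] M.B) →ₗ[R] (R ⊗[E] M.quo) :=
  ((M.fil ((M.w + 1) / 2)).mkQ.baseChange R) ∘ₗ (M.I : (R ⊗[E] M.B) →ₗ[R] (R ⊗[E] M.D))

lemma per_apply (M : Mot E R) (s : ℤˣ) (z : R ⊗[E] M.eig s) : M.per s z = M.pj (M.inc s z) := rfl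

lemma pj_mem (M : Mot E R) {p : ℤ} (hp : (M.w + 1) / 2 ≤ p) {x : R ⊗[E] M.B} (hx : x ∈ M.H p) :
    M.pj x = 0 := by
  have h1 : M.I x ∈ (M.fil ((M.w + 1) / 2)).baseChange R := by
    rw [← M.comp]
    exact ⟨x, Submodule.mem_iSup_of_mem p (Submodule.mem_iSup_of_mem hp hx), rfl⟩
  have h2 : (M.fil ((M.w + 1) / 2)).baseChange R ≤
      LinearMap.ker ((M.fil ((M.w + 1) / 2)).mkQ.baseChange R) := by
    rw [Submodule.baseChange_eq_span, Submodule.span_le]
    rintro _ ⟨y, hy, rfl⟩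
    change (M.fil ((M.w + 1) / 2)).mkQ.baseChange R (1 ⊗ₜ y) = 0
    rw [LinearMap.baseChange_tmul, Submodule.mkQ_apply, (Submodule.Quotient.mk_eq_zero _).2 hy,
      tmul_zero]
  exact h2 h1

lemma pj_J (M : Mot E R) (h0 : M.NoMiddle) (x : R ⊗[E] M.B) : M.pj (M.J x) = -M.pj x := by
  have h : M.pj ∘ₗ M.J = -M.pj := M.ext_H fun p x hx => by
    change M.pj (M.J x) = -M.pj x
    rw [M.J_mem hx, map_zsmul]
    by_cases hp : 2 * p = M.w
    · rw [h0 p hp, Submodule.mem_bot] at hx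
      rw [hx, map_zero, smul_zero, neg_zero]
    · by_cases hp' : M.w < 2 * p
      · rw [M.pj_mem (by omega) hx, smul_zero, neg_zero]
      · have : M.sg p = -1 := Int.sign_eq_neg_one_of_neg (by omega)
        rw [this, neg_one_smul]
  exact LinearMap.congr_fun h x

end Mot

end Pool.Agent.X33.DP
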