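import Pool.Agent.X33.DP.Main

/-!
# Deligne's formula at two integers of opposite parity
-/

set_option autoImplicit false
set_option linter.unusedSectionVars false

namespace Pool.Agent.X33.DP

open TensorProduct Module

namespace Mot

variable {E R : Type} [Field E] [CommRing R] [Algebra E R]

/-- both signs -/
theorem main_sign [CharZero E] {M N T : Mot E R}
    [Nontrivial R] {β : (M.B ⊗[E] N.B) ≃ₗ[E] T.B} (h : IsTensor M N T β)
    (hM : M.NoMiddle) (hT : T.NoMiddle) (s : ℤˣ) {c c' t t' : R} (hc : M.IsPeriod s c)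
    (hc' : M.IsPeriod (-s) c') (ht : T.IsPeriod s t) (ht' : T.IsPeriod (-s) t') :
    ∃ e : E, e ≠ 0 ∧
      t * (c' ^ finrank E (N.eig 1) * c ^ finrank E (N.eig (-1))) = algebraMap E R e *
        (t' * (c ^ finrank E (N.eig 1) * c' ^ finrank E (N.eig (-1)))) := by
  rcases Int.units_eq_one_or s with rfl | rfl
  · exact main h hM hT hc hc' ht ht'
  · rw [neg_neg] at hc' ht'
    obtain ⟨e, he, h1⟩ := main h hM hT hc' hc ht' ht
    refine ⟨e⁻¹, inv_ne_zero he, ?_⟩
    rw [h1, ← mul_assoc (algebraMap E R e⁻¹), ← map_mul, inv_mul_cancel₀ he, map_one, one_mul]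

/-- the dimension of the eigenspaces -/
lemma finrank_eig [CharZero E] [Nontrivial R] (M : Mot E R) (h0 : M.NoMiddle) (s s' : ℤˣ) :
    finrank E (M.eig s) = finrank E (M.eig s') := by
  have h1 : ∀ s, finrank E (M.eig s) = finrank E M.quo := fun s => by
    rw [← Module.finrank_baseChange (R := R) (M' := M.eig s),
      (LinearEquiv.ofBijective _ (M.per_bij h0 s)).finrank_eq, Module.finrank_baseChange]
  rw [h1, h1]

/-- the period is unique up to a factor in `Eˣ` -/
lemma period_unique (T : Mot E R) {s : ℤˣ} {t t1 : R} (ht : T.IsPeriod s t)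
    (ht1 : T.IsPeriod s t1) : ∃ e : E, e ≠ 0 ∧ t = algebraMap E R e * t1 := by
  obtain ⟨k, b1, d1, rfl⟩ := id ht
  obtain ⟨k', b2, d2, rfl⟩ := id ht1
  obtain ⟨e2, he2, h7⟩ := det_bases b1 (b2.reindex (b2.indexEquiv b1)) d1
    (d2.reindex (b2.indexEquiv b1)) (T.per s)
  refine ⟨e2, he2, ?_⟩
  rw [h7]
  have h8 : ∀ (x : Basis (Fin k') E (T.eig s)) (f : Fin k' ≃ Fin k),
      (x.reindex f).baseChange R = (x.baseChange R).reindex f := by
    intro x f
    ext i
    simp
  have h9 : ∀ (x : Basis (Fin k') E T.quo) (f : Fin k' ≃ Fin k),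
      (x.reindex f).baseChange R = (x.baseChange R).reindex f := by
    intro x f
    ext i
    simp
  have h10 : (LinearMap.toMatrix ((b2.reindex (b2.indexEquiv b1)).baseChange R)
      ((d2.reindex (b2.indexEquiv b1)).baseChange R) (T.per s)).det =
      (LinearMap.toMatrix (b2.baseChange R) (d2.baseChange R) (T.per s)).det := by
    rw [← Matrix.det_reindex_self (b2.indexEquiv b1)]
    congr 1
    ext i j
    rw [LinearMap.toMatrix_apply, h8, h9, Matrix.reindex_apply, Matrix.submatrix_apply,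
      LinearMap.toMatrix_apply, Basis.reindex_apply, Basis.repr_reindex_apply]
  rw [h10]

end Mot

/-- the algebra behind the comparison of Deligne's formulas at `m` and `m'` -/
theorem formula_algebra {E R : Type} [Field E] [CommRing R] [Nontrivial R] [Algebra E R] (τ : ℤ → R)
    (hτ : ∀ k l, τ k * τ l = τ (k + l)) {c c' t t' y y' : R} (hc : IsUnit c) (hc' : IsUnit c')
    {a b n : ℕ} {m m' : ℤ}
    (h1 : ∃ e : E, e ≠ 0 ∧ t * (c' ^ a * c ^ b) = algebraMap E R e * (t' * (c ^ a * c' ^ b)))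
    (h2 : ∃ e : E, y' = algebraMap E R e * (τ (m' * n) * t')) (hy : IsUnit y') :
    (∃ e : E, y = algebraMap E R e * (τ (m * n) * t)) ↔
      ∃ e : E, y * (c' ^ a * c ^ b) =
        algebraMap E R e * (τ ((m - m') * n) * y' * (c ^ a * c' ^ b)) := by
  obtain ⟨e, he, h1⟩ := h1
  obtain ⟨e', h2⟩ := h2
  have he' : e' ≠ 0 := by
    rintro rfl
    rw [map_zero, zero_mul] at h2
    rw [h2] at hy
    exact not_isUnit_zero hy
  have hinv : ∀ x : E, x ≠ 0 → algebraMap E R x⁻¹ * algebraMap E R x = 1 := fun x hx => by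
    rw [← map_mul, inv_mul_cancel₀ hx, map_one]
  have htt : τ ((m - m') * n) * τ (m' * n) = τ (m * n) := by
    rw [hτ]
    congr 1
    ring
  have h3 : τ ((m - m') * n) * y' * (c ^ a * c' ^ b) =
      algebraMap E R (e' * e⁻¹) * (τ (m * n) * t) * (c' ^ a * c ^ b) := by
    rw [h2, map_mul, ← htt]
    have h4 : algebraMap E R e⁻¹ * (t * (c' ^ a * c ^ b)) = t' * (c ^ a * c' ^ b) := by
      rw [h1, ← mul_assoc, hinv e he, one_mul]
    linear_combination (-(algebraMap E R e' * τ ((m - m') * n) * τ (m' * n))) * h4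
  rw [h3]
  have hu : IsUnit (c' ^ a * c ^ b) := (hc'.pow _).mul (hc.pow _)
  constructor
  · rintro ⟨e1, h5⟩
    refine ⟨e1 * (e * e'⁻¹), ?_⟩
    rw [h5]
    simp only [map_mul]
    linear_combination (-(algebraMap E R e1 * τ (m * n) * t * (c' ^ a * c ^ b))) * (hinv e he) -
      (algebraMap E R e1 * τ (m * n) * t * (c' ^ a * c ^ b) * algebraMap E R e⁻¹ *
        algebraMap E R e) * (hinv e' he')
  · rintro ⟨e1, h5⟩
    refine ⟨e1 * (e' * e⁻¹), ?_⟩
    refine hu.mul_left_injective ?_
    beta_reduce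
    rw [h5]
    simp only [map_mul]
    ring

end Pool.Agent.X33.DP
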