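import Pool.Agent.X33.DP.Cyc

/-!
# The sign of a permutation and the number of its cycles
-/

set_option autoImplicit false

namespace Pool.Agent.X33.DP

open Equiv

variable {k : ℕ}

/-- the cycles are the fixed points and the cycles of the cycle decomposition -/
lemma numCyc_eq (σ : Perm (Fin k)) :
    numCyc σ = Fintype.card (Function.fixedPoints σ) + σ.cycleFactorsFinset.card := by
  classical
  let F : Fin k → (Function.fixedPoints σ) ⊕ σ.cycleFactorsFinset := fun i =>
    if h : σ i = i then Sum.inl ⟨i, h⟩ else Sum.inr ⟨σ.cycleOf i,
      Perm.cycleOf_mem_cycleFactorsFinset_iff.2 (Perm.mem_support.2 h)⟩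
  have hF : ∀ a b, (Perm.SameCycle.setoid σ) a b → F a = F b := by
    intro a b hab
    have hab' : σ.SameCycle a b := hab
    by_cases ha : σ a = a
    · have h1 : a = b := by
        obtain ⟨j, hj⟩ := hab'
        rw [← hj, Perm.zpow_apply_eq_self_of_apply_eq_self ha]
      rw [h1]
    · have hb : σ b ≠ b := by
        intro hb
        apply ha
        obtain ⟨j, hj⟩ := hab'.symm
        rw [Perm.zpow_apply_eq_self_of_apply_eq_self hb] at hj
        rw [← hj, hb]
      simp only [F, dif_neg ha, dif_neg hb]
      congr 2
      exact hab'.cycleOf_eq
  let G : Cyc σ → (Function.fixedPoints σ) ⊕ σ.cycleFactorsFinset := Quotient.lift F hF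
  have hG : Function.Bijective G := by
    constructor
    · intro p q
      induction p using Quotient.inductionOn with
      | h a =>
        induction q using Quotient.inductionOn with
        | h b =>
          intro hab
          have hab' : F a = F b := hab
          apply Quotient.sound
          change σ.SameCycle a b
          by_cases ha : σ a = a
          · by_cases hb : σ b = b
            · simp only [F, dif_pos ha, dif_pos hb, Sum.inl.injEq] at hab'
              rw [show a = b from congrArg Subtype.val hab']
            · simp only [F, dif_pos ha, dif_neg hb, reduceCtorEq] at hab'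
          · by_cases hb : σ b = b
            · simp only [F, dif_neg ha, dif_pos hb, reduceCtorEq] at hab'
            · simp only [F, dif_neg ha, dif_neg hb, Sum.inr.injEq, Subtype.mk.injEq] at hab'
              exact (Perm.sameCycle_iff_cycleOf_eq_of_mem_support (Perm.mem_support.2 ha)
                (Perm.mem_support.2 hb)).2 hab'
    · rintro (⟨i, hi⟩ | ⟨c, hc⟩)
      · refine ⟨Quotient.mk _ i, ?_⟩
        change F i = _
        exact dif_pos hi
      · obtain ⟨i, hi⟩ := (Perm.mem_cycleFactorsFinset_iff.1 hc).1.nonempty_support
        have h1 : σ.cycleOf i = c := (Perm.cycle_is_cycleOf hi hc).symm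
        have h2 : σ i ≠ i := by
          rw [← Perm.mem_support, ← Perm.cycleOf_mem_cycleFactorsFinset_iff, h1]
          exact hc
        refine ⟨Quotient.mk _ i, ?_⟩
        change F i = _
        simp only [F, dif_neg h2]
        congr 2
  rw [numCyc, Fintype.card_of_bijective hG, Fintype.card_sum, Fintype.card_coe]

/-- the sign of a permutation -/
lemma sign_eq (σ : Perm (Fin k)) : ((Perm.sign σ : ℤˣ) : ℤ) * (-1) ^ numCyc σ = (-1) ^ k := by
  have h1 : Multiset.card σ.cycleType = σ.cycleFactorsFinset.card := by
    rw [Perm.cycleType_def, Multiset.card_map]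
    rfl
  have h2 : σ.cycleType.sum ≤ k := by
    have := Perm.sum_cycleType_le σ
    rwa [Fintype.card_fin] at this
  rw [Perm.sign_of_cycleType, numCyc_eq, Perm.card_fixedPoints, h1, Fintype.card_fin,
    Units.val_pow_eq_pow_val, Units.val_neg, Units.val_one, ← pow_add,
    show σ.cycleType.sum + σ.cycleFactorsFinset.card + (k - σ.cycleType.sum +
      σ.cycleFactorsFinset.card) = k + 2 * σ.cycleFactorsFinset.card by omega, pow_add, pow_mul]
  norm_num

end Pool.Agent.X33.DP
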