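import Pool.Agent.X33.DP.Inj
import Pool.Agent.X33.DP.Sgn

/-!
# The exponents for exterior and symmetric powers
-/

set_option autoImplicit false
set_option linter.unusedSectionVars false

namespace Pool.Agent.X33.DP

open Polynomial Equiv

lemma coeff_one_sub_X_pow (m l : ℕ) :
    ((1 - X) ^ m : ℤ[X]).coeff l = (-1) ^ l * (m.choose l : ℤ) := by
  induction m generalizing l with
  | zero =>
    rw [pow_zero, Polynomial.coeff_one]
    cases l with
    | zero => simp
    | succ l => simp
  | succ m ih =>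
    have h : ((1 - X) ^ (m + 1) : ℤ[X]) = (1 - X) ^ m - (1 - X) ^ m * X := by ring
    cases l with
    | zero =>
      rw [h, coeff_sub, ih, coeff_mul_X_zero]
      simp
    | succ l =>
      rw [h, coeff_sub, ih, coeff_mul_X, ih, Nat.choose_succ_succ]
      push_cast
      ring

lemma one_sub_sq (m : ℕ) : ((1 + X) ^ m * (1 - X) ^ m : ℤ[X]) = expand ℤ 2 ((1 - X) ^ m) := by
  rw [← mul_pow, map_pow, map_sub, map_one, expand_X]
  congr 1
  ring

lemma coeff_even (m l : ℕ) :
    ((1 + X) ^ m * (1 - X) ^ m : ℤ[X]).coeff (2 * l) = (-1) ^ l * (m.choose l : ℤ) := by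
  rw [one_sub_sq, coeff_expand_mul' two_pos, coeff_one_sub_X_pow]

lemma coeff_odd (m l : ℕ) : ((1 + X) ^ m * (1 - X) ^ m : ℤ[X]).coeff (2 * l + 1) = 0 := by
  rw [one_sub_sq, coeff_expand two_pos, if_neg (by omega)]

lemma coeff_a (m l : ℕ) :
    ((1 + X) ^ m * (1 - X) ^ (m + 1) : ℤ[X]).coeff (2 * l) = (-1) ^ l * (m.choose l : ℤ) := by
  have h : ((1 + X) ^ m * (1 - X) ^ (m + 1) : ℤ[X]) =
      (1 + X) ^ m * (1 - X) ^ m - (1 + X) ^ m * (1 - X) ^ m * X := by ring
  rw [h, coeff_sub, coeff_even]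
  cases l with
  | zero => simp
  | succ l =>
    rw [show 2 * (l + 1) = (2 * l + 1) + 1 by ring, coeff_mul_X, coeff_odd, sub_zero]

lemma coeff_b (m l : ℕ) :
    ((1 + X) ^ (m + 1) * (1 - X) ^ m : ℤ[X]).coeff (2 * l) = (-1) ^ l * (m.choose l : ℤ) := by
  have h : ((1 + X) ^ (m + 1) * (1 - X) ^ m : ℤ[X]) =
      (1 + X) ^ m * (1 - X) ^ m + (1 + X) ^ m * (1 - X) ^ m * X := by ring
  rw [h, coeff_add, coeff_even]
  cases l with
  | zero => simp
  | succ l =>
    rw [show 2 * (l + 1) = (2 * l + 1) + 1 by ring, coeff_mul_X, coeff_odd, add_zero]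

lemma eps_inl {n : ℕ} (i : Fin n) : eps (Sum.inl i : Fin n ⊕ Fin n) = 1 := rfl

lemma eps_inr {n : ℕ} (i : Fin n) : eps (Sum.inr i : Fin n ⊕ Fin n) = -1 := rfl

lemma eps_pm {n : ℕ} (x : Fin n ⊕ Fin n) : eps x = 1 ∨ eps x = -1 := by
  rcases x with i | i
  · exact Or.inl rfl
  · exact Or.inr rfl

lemma card_plus (n : ℕ) : (Finset.univ.filter fun x : Fin n ⊕ Fin n => eps x = 1).card = n := by
  have h : (Finset.univ.filter fun x : Fin n ⊕ Fin n => eps x = 1) =
      Finset.univ.map ⟨Sum.inl, Sum.inl_injective⟩ := by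
    ext x
    rw [Finset.mem_filter]
    rcases x with i | i
    · simp [eps_inl]
    · rw [eps_inr]
      norm_num
      intro x h
      cases h
  rw [h, Finset.card_map, Finset.card_univ, Fintype.card_fin]

lemma card_minus (n : ℕ) : (Finset.univ.filter fun x : Fin n ⊕ Fin n => eps x = -1).card = n := by
  have h : (Finset.univ.filter fun x : Fin n ⊕ Fin n => eps x = -1) =
      Finset.univ.map ⟨Sum.inr, Sum.inr_injective⟩ := by
    ext x
    rw [Finset.mem_filter]
    rcases x with i | i
    · rw [eps_inl]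
      norm_num
      intro x h
      cases h
    · simp [eps_inr]
  rw [h, Finset.card_map, Finset.card_univ, Fintype.card_fin]

lemma Qf_erase (n k : ℕ) (x : Fin n ⊕ Fin n) :
    Qf eps k (Finset.univ.erase x) = if eps x = 1 then cc k (n - 1) n else cc k n (n - 1) := by
  rw [Qf_eq eps eps_pm, Finset.filter_erase, Finset.filter_erase]
  rcases x with i | i
  · rw [if_pos (eps_inl i), Finset.card_erase_of_mem
      (s := Finset.univ.filter fun x : Fin n ⊕ Fin n => eps x = 1)
      (Finset.mem_filter.2 ⟨Finset.mem_univ _, eps_inl i⟩), card_plus,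
      Finset.erase_eq_of_notMem (fun h => by
        have h1 := (Finset.mem_filter.1 h).2
        rw [eps_inl] at h1
        norm_num at h1), card_minus]
  · rw [if_neg (by rw [eps_inr]; norm_num), Finset.erase_eq_of_notMem (fun h => by
        have h1 := (Finset.mem_filter.1 h).2
        rw [eps_inr] at h1
        norm_num at h1), card_plus,
      Finset.card_erase_of_mem (s := Finset.univ.filter fun x : Fin n ⊕ Fin n => eps x = -1)
      (Finset.mem_filter.2 ⟨Finset.mem_univ _, eps_inr i⟩), card_minus]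

/-- the weighted number of injections -/
lemma sum_inj_eps (n l : ℕ) : ∑ x : Fin n ⊕ Fin n, Qf eps (2 * l) (Finset.univ.erase x) =
    ((2 * l).factorial : ℤ) * (2 * n * ((-1) ^ l * ((n - 1).choose l : ℤ))) := by
  simp only [Qf_erase]
  rw [Fintype.sum_sum_type]
  simp only [eps_inl, eps_inr]
  rcases Nat.eq_zero_or_pos n with rfl | hn
  · simp
  · obtain ⟨m, rfl⟩ := Nat.exists_eq_succ_of_ne_zero hn.ne'
    simp only [Nat.succ_eq_add_one, Nat.add_sub_cancel, cc_eq, coeff_a, coeff_b, if_true,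
      Finset.sum_const, Finset.card_univ, Fintype.card_fin, nsmul_eq_mul]
    rw [if_neg (by norm_num)]
    push_cast
    ring

/-- the signed number of permutations fixing a coloring -/
lemma sum_sign {k : ℕ} {I : Type} [DecidableEq I] (s : Fin k → I) :
    (Function.Injective s →
      ∑ σ : Perm (Fin k), (if s ∘ σ = s then ((Perm.sign σ : ℤˣ) : ℤ) else 0) = 1) ∧
    (¬ Function.Injective s →
      ∑ σ : Perm (Fin k), (if s ∘ σ = s then ((Perm.sign σ : ℤˣ) : ℤ) else 0) = 0) := by
  constructor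
  · intro hs
    rw [Finset.sum_eq_single 1]
    · simp
    · intro σ _ hσ
      rw [if_neg]
      intro h
      apply hσ
      ext i
      exact congrArg Fin.val (hs (congrFun h i))
    · intro h
      exact absurd (Finset.mem_univ _) h
  · intro hs
    simp only [Function.Injective, not_forall] at hs
    obtain ⟨i, j, hij, hne⟩ := hs
    have hτ : s ∘ (swap i j) = s := by
      funext x
      rw [Function.comp_apply]
      by_cases h1 : x = i
      · rw [h1, swap_apply_left, hij]
      · by_cases h2 : x = j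
        · rw [h2, swap_apply_right, hij]
        · rw [swap_apply_of_ne_of_ne h1 h2]
    have h1 : ∑ σ : Perm (Fin k), (if s ∘ σ = s then ((Perm.sign σ : ℤˣ) : ℤ) else 0) =
        ∑ σ : Perm (Fin k), -(if s ∘ σ = s then ((Perm.sign σ : ℤˣ) : ℤ) else 0) := by
      refine Fintype.sum_equiv (Equiv.mulRight (swap i j)) _ _ fun σ => ?_
      rw [Equiv.coe_mulRight, Perm.sign_mul, Perm.sign_swap hne]
      have h2 : s ∘ ⇑(σ * swap i j) = s ↔ s ∘ σ = s := by
        rw [Perm.coe_mul, ← Function.comp_assoc]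
        constructor
        · intro h
          have h3 := congrArg (fun f => f ∘ (swap i j)) h
          simp only [Function.comp_assoc] at h3
          rw [show (⇑(swap i j) ∘ ⇑(swap i j)) = id by
            funext x
            simp, Function.comp_id, hτ] at h3
          exact h3
        · intro h
          rw [h, hτ]
      simp only [h2]
      split_ifs
      · push_cast
        ring
      · ring
    rw [Finset.sum_neg_distrib] at h1
    linarith

/-- the exponent for exterior powers -/
lemma sum_oddLen_sign (n l : ℕ) :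
    ∑ σ : Perm (Fin (2 * l + 1)), ((Perm.sign σ : ℤˣ) : ℤ) *
      (oddLen σ * (2 * (n : ℤ)) ^ numCyc σ) =
      ((2 * l + 1).factorial : ℤ) * (2 * n * ((-1) ^ l * ((n - 1).choose l : ℤ))) := by
  classical
  have h0 : ∀ σ : Perm (Fin (2 * l + 1)), ((Perm.sign σ : ℤˣ) : ℤ) *
      (oddLen σ * (2 * (n : ℤ)) ^ numCyc σ) = ∑ s : Fin (2 * l + 1) → Fin n ⊕ Fin n,
      ((Perm.sign σ : ℤˣ) : ℤ) *
        (if s ∘ σ = s then (∑ i, eps (s i)) * ∏ i, eps (s i) else 0) := fun σ => by
    rw [← sum_fixed_eps, Finset.mul_sum]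
  refine (Finset.sum_congr rfl fun σ _ => h0 σ).trans ?_
  rw [Finset.sum_comm]
  have h1 : ∀ s : Fin (2 * l + 1) → Fin n ⊕ Fin n,
      ∑ σ : Perm (Fin (2 * l + 1)), ((Perm.sign σ : ℤˣ) : ℤ) *
        (if s ∘ σ = s then (∑ i, eps (s i)) * ∏ i, eps (s i) else 0) =
      if Function.Injective s then (∑ i, eps (s i)) * ∏ i, eps (s i) else 0 := by
    intro s
    have h3 : ∑ σ : Perm (Fin (2 * l + 1)), ((Perm.sign σ : ℤˣ) : ℤ) *
        (if s ∘ σ = s then (∑ i, eps (s i)) * ∏ i, eps (s i) else 0) =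
        (∑ σ : Perm (Fin (2 * l + 1)), (if s ∘ σ = s then ((Perm.sign σ : ℤˣ) : ℤ) else 0)) *
          ((∑ i, eps (s i)) * ∏ i, eps (s i)) := by
      generalize (∑ i, eps (s i)) * ∏ i, eps (s i) = c
      rw [Finset.sum_mul]
      refine Finset.sum_congr rfl fun σ _ => ?_
      by_cases h : s ∘ σ = s
      · rw [if_pos h, if_pos h]
      · rw [if_neg h, if_neg h]
        ring
    rw [h3]
    by_cases hs : Function.Injective s
    · rw [if_pos hs, (sum_sign s).1 hs, one_mul]
    · rw [if_neg hs, (sum_sign s).2 hs, zero_mul]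
  refine (Finset.sum_congr rfl fun s _ => h1 s).trans ?_
  rw [sum_inj eps eps_pm (2 * l), sum_inj_eps, Nat.factorial_succ]
  push_cast
  ring

end Pool.Agent.X33.DP
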