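import Pool.Agent.X33.DP.Fin

/-!
# The ratio of the periods of a tensor product
-/

set_option autoImplicit false
set_option linter.unusedSectionVars false

namespace Pool.Agent.X33.DP

open TensorProduct Module
open scoped Kronecker

namespace Mot

variable {E R : Type} [Field E] [CommRing R] [Algebra E R] [CharZero E]
  {M N T : Mot E R}

/-- the determinant of `J` on `T^+ ⊗ R` for a tensor product `T` -/
lemma det_J [Nontrivial R] {β : (M.B ⊗[E] N.B) ≃ₗ[E] T.B} (h : IsTensor M N T β)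
    (hM : M.NoMiddle) (hT : T.NoMiddle) {n a b : ℕ}
    (u : Basis (Fin n) E (M.eig 1)) (u' : Basis (Fin n) E (M.eig (-1)))
    (v : Basis (Fin a) E (N.eig 1)) (v' : Basis (Fin b) E (N.eig (-1))) :
    ∃ (t : Basis ((Fin n × Fin a) ⊕ (Fin n × Fin b)) E (T.eig 1))
      (t' : Basis ((Fin n × Fin a) ⊕ (Fin n × Fin b)) E (T.eig (-1))) (c : ℤ),
      (c = 1 ∨ c = -1) ∧ (T.mJ 1 (-1) t t').det =
        (M.mJ 1 (-1) u u').det ^ a * (M.mJ (-1) 1 u' u).det ^ b * (c : R) := by
  obtain ⟨t, t', h1, h2, h3, h4⟩ := exists_bases h u u' v v'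
  have hK := matrix_K h u u' v v' t t' h1 h2 h3 h4
  have hF := F_K h
  -- the composition
  have hcomp : T.res (K β) 1 (-1) ∘ₗ T.res (K β ∘ₗ T.J) 1 1 = T.res T.J 1 (-1) := by
    rw [T.res_res (c := 1) (fun x => by
      rw [LinearMap.comp_apply, hF, T.F_J, map_zsmul, smul_smul, Units.val_one, one_smul,
        Units.val_neg, Units.val_one]
      norm_num) (by rw [one_mul]), ← LinearMap.comp_assoc, K_K β hM, LinearMap.id_comp]
  -- the sign
  obtain ⟨ι, _, x, p, hx⟩ := M.hodge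
  obtain ⟨κ, _, y, q, hy⟩ := N.hodge
  have hxm : ∀ i, x i ∈ M.H (p i) := fun i => by
    rw [hx]
    exact Submodule.subset_span ⟨i, rfl, rfl⟩
  have hym : ∀ i, y i ∈ N.H (q i) := fun i => by
    rw [hy]
    exact Submodule.subset_span ⟨i, rfl, rfl⟩
  let z : Basis (ι × κ) R (R ⊗[E] T.B) := (x.tensorProduct y).map (Phi β)
  have hz : ∀ k, z k = Phi β (x k.1 ⊗ₜ y k.2) := fun k => by
    rw [Basis.map_apply, Basis.tensorProduct_apply']
  have hzm : ∀ k, z k ∈ T.H (p k.1 + q k.2) := fun k => by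
    rw [hz]
    exact h.hodge _ _ _ (hxm _) _ (hym _)
  have hne : ∀ {X : Mot E R}, X.NoMiddle → ∀ {μ : Type} (w : Basis μ R (R ⊗[E] X.B)) (r : μ → ℤ),
      (∀ k, w k ∈ X.H (r k)) → ∀ k, X.sg (r k) = 1 ∨ X.sg (r k) = -1 := by
    intro X hX μ w r hw k
    have h5 : 2 * r k ≠ X.w := by
      intro h5
      have := hw k
      rw [hX _ h5, Submodule.mem_bot] at this
      exact w.ne_zero k this
    unfold sg
    rcases lt_or_gt_of_ne h5 with h5 | h5
    · exact Or.inr (Int.sign_eq_neg_one_of_neg (by omega))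
    · exact Or.inl (Int.sign_eq_one_of_pos (by omega))
  have hg := hne hT z (fun k => p k.1 + q k.2) hzm
  have hg' := hne hM x p hxm
  obtain ⟨c, hc, hdet⟩ := T.det_sign z (fun k => T.sg (p k.1 + q k.2)) hg
    (fun k => (T.J_mem (hzm k)).trans (Int.cast_smul_eq_zsmul R _ _).symm)
    (fun k => M.sg (p k.1) * T.sg (p k.1 + q k.2))
    (fun k => by
      rcases hg' k.1 with h5 | h5 <;> rcases hg k with h6 | h6 <;> rw [h5, h6] <;> norm_num)
    (A := K β ∘ₗ T.J)
    (fun k => by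
      have h7 : (K β ∘ₗ T.J) (z k) = (M.sg (p k.1) * T.sg (p k.1 + q k.2)) • z k := by
        have h8 : Phi β ((M.sg (p k.1) • x k.1) ⊗ₜ[R] y k.2) = M.sg (p k.1) • Phi β (x k.1 ⊗ₜ y k.2) :=
          map_zsmul ((Phi β).toLinearMap ∘ₗ (TensorProduct.mk R _ _).flip (y k.2)) _ _
        rw [LinearMap.comp_apply, T.J_mem (hzm k), map_zsmul, hz, K_Phi, M.J_mem (hxm k.1), h8,
          smul_smul, mul_comm]
      exact h7.trans (Int.cast_smul_eq_zsmul R (M.sg (p k.1) * T.sg (p k.1 + q k.2)) (z k)).symm)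
    (fun x => by
      rw [LinearMap.comp_apply, LinearMap.comp_apply, hF, T.F_J, map_zsmul, smul_smul,
        Units.val_neg, Units.val_one]
      norm_num)
  refine ⟨t, t', c, hc, ?_⟩
  rw [mJ, ← hcomp, LinearMap.toMatrix_comp (t.baseChange R) (t.baseChange R) (t'.baseChange R),
    Matrix.det_mul, hK, LinearMap.det_toMatrix, hdet, Matrix.det_fromBlocks_zero₂₁,
    Matrix.det_kronecker, Matrix.det_kronecker, Matrix.det_one, Matrix.det_one, one_pow,
    mul_one, mul_one, Fintype.card_fin, Fintype.card_fin]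

/-- **the ratio of the periods of a tensor product** -/
theorem main [Nontrivial R] {β : (M.B ⊗[E] N.B) ≃ₗ[E] T.B} (h : IsTensor M N T β)
    (hM : M.NoMiddle) (hT : T.NoMiddle) {cp cm tp tm : R} (hcp : M.IsPeriod 1 cp)
    (hcm : M.IsPeriod (-1) cm) (htp : T.IsPeriod 1 tp) (htm : T.IsPeriod (-1) tm) :
    ∃ e : E, e ≠ 0 ∧
      tp * (cm ^ finrank E (N.eig 1) * cp ^ finrank E (N.eig (-1))) = algebraMap E R e *
        (tm * (cp ^ finrank E (N.eig 1) * cm ^ finrank E (N.eig (-1)))) := by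
  set a := finrank E (N.eig 1)
  set b := finrank E (N.eig (-1))
  obtain ⟨n, u, d, -⟩ := id hcp
  obtain ⟨n', u0, d', -⟩ := id hcm
  let u' : Basis (Fin n) E (M.eig (-1)) := u0.reindex (d'.indexEquiv d)
  let v : Basis (Fin a) E (N.eig 1) := finBasis E _
  let v' : Basis (Fin b) E (N.eig (-1)) := finBasis E _
  obtain ⟨t, t', c, hc, hdet⟩ := det_J h hM hT u u' v v'
  obtain ⟨e1, he1, h1⟩ := M.ratio hM (s := 1) (s' := -1) rfl hcp hcm u u'
  obtain ⟨e2, he2, h2⟩ := T.ratio hT (s := 1) (s' := -1) rfl htp htm t t'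
  change cp = algebraMap E R e1 * (cm * (M.mJ 1 (-1) u u').det) at h1
  change tp = algebraMap E R e2 * (tm * (T.mJ 1 (-1) t t').det) at h2
  have h3 : (M.mJ (-1) 1 u' u).det * (M.mJ 1 (-1) u u').det = 1 := by
    rw [← Matrix.det_mul, M.mJ_mul hM rfl, Matrix.det_one]
  set X := (M.mJ 1 (-1) u u').det
  set Y := (M.mJ (-1) 1 u' u).det
  have hi : algebraMap E R e1⁻¹ * algebraMap E R e1 = 1 := by
    rw [← map_mul, inv_mul_cancel₀ he1, map_one]
  have hX : cm * X = algebraMap E R e1⁻¹ * cp := by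
    rw [h1]
    linear_combination -(cm * X) * hi
  have hY : cp * Y = algebraMap E R e1 * cm := by
    rw [h1]
    linear_combination (algebraMap E R e1 * cm) * h3
  have hc' : (c : E) ≠ 0 := by
    rcases hc with rfl | rfl <;> norm_num
  refine ⟨e2 * (c : E) * (e1⁻¹ ^ a * e1 ^ b), mul_ne_zero (mul_ne_zero he2 hc')
    (mul_ne_zero (pow_ne_zero _ (inv_ne_zero he1)) (pow_ne_zero _ he1)), ?_⟩
  have h4 : cm ^ a * X ^ a = algebraMap E R e1⁻¹ ^ a * cp ^ a := by
    rw [← mul_pow, hX, mul_pow]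
  have h5 : cp ^ b * Y ^ b = algebraMap E R e1 ^ b * cm ^ b := by
    rw [← mul_pow, hY, mul_pow]
  rw [h2, hdet]
  simp only [map_mul, map_pow, map_intCast]
  calc algebraMap E R e2 * (tm * (X ^ a * Y ^ b * (c : R))) * (cm ^ a * cp ^ b)
      = algebraMap E R e2 * tm * (c : R) * (cm ^ a * X ^ a) * (cp ^ b * Y ^ b) := by ring
    _ = _ := by rw [h4, h5]; ring

/-- the maps `I_∞^±` are isomorphisms -/
lemma per_bij (M : Mot E R) (h0 : M.NoMiddle) (s : ℤˣ) : Function.Bijective (M.per s) := by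
  have h2 := half_two E R
  constructor
  · rw [← LinearMap.ker_eq_bot, LinearMap.ker_eq_bot']
    intro z hz
    rw [M.per_apply] at hz
    have h1 : M.I (M.inc s z) ∈ (M.fil ((M.w + 1) / 2)).baseChange R := by
      have h3 : M.I (M.inc s z) ∈ LinearMap.ker ((M.fil ((M.w + 1) / 2)).mkQ.lTensor R) := hz
      rw [lTensor_mkQ] at h3
      exact h3
    rw [← M.comp] at h1
    obtain ⟨x, hx, hxz⟩ := h1
    have h3 : x = M.inc s z := M.I.injective hxz
    have h4 : ∀ y ∈ (⨆ p, ⨆ (_ : (M.w + 1) / 2 ≤ p), M.H p), M.J y = y := by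
      intro y hy
      have h5 : (⨆ p, ⨆ (_ : (M.w + 1) / 2 ≤ p), M.H p) ≤ LinearMap.eqLocus M.J LinearMap.id := by
        refine iSup₂_le fun p hp y hy => ?_
        rw [LinearMap.mem_eqLocus, LinearMap.id_apply, M.J_mem hy]
        by_cases hp' : 2 * p = M.w
        · rw [h0 p hp', Submodule.mem_bot] at hy
          rw [hy, smul_zero]
        · rw [show M.sg p = 1 from Int.sign_eq_one_of_pos (by omega), one_smul]
      exact h5 hy
    have h5 := h4 x hx
    rw [h3] at h5
    have h6 := M.J_F (M.inc s z)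
    rw [M.F_inc, map_zsmul, h5, M.F_inc] at h6
    have h7 : (2 : R) • M.inc s z = 0 := by
      rw [two_smul]
      have h8 := congrArg (fun y => (s : ℤ) • y) h6
      simp only [smul_neg, smul_smul, units_mul_self, one_smul] at h8
      nth_rewrite 1 [h8]
      exact neg_add_cancel _
    have h8 : M.inc s z = 0 := by
      rw [← one_smul R (M.inc s z), ← h2, mul_smul, h7, smul_zero]
    refine M.inc_inj s ?_
    rw [h8, map_zero]
  · intro y
    have hs : Function.Surjective M.pj := by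
      intro y
      obtain ⟨x, rfl⟩ := LinearMap.baseChange_surjective
        (g := (M.fil ((M.w + 1) / 2)).mkQ) R
        (Submodule.mkQ_surjective (M.fil ((M.w + 1) / 2))) y
      obtain ⟨z, rfl⟩ := M.I.surjective x
      exact ⟨z, rfl⟩
    obtain ⟨x, rfl⟩ := hs y
    set x' : R ⊗[E] M.B := algebraMap E R (1 / 2) • (x - M.J x) with hx'
    have h1 : M.pj x' = M.pj x := by
      rw [hx', map_smul, map_sub, M.pj_J h0, sub_neg_eq_add, ← two_smul R, smul_smul, h2, one_smul]
    have h3 : M.J x' = -x' := by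
      rw [hx', map_smul, map_sub, M.J_J h0]
      refine eq_neg_of_add_eq_zero_left ?_
      rw [← smul_add, sub_add_sub_cancel, sub_self, smul_zero]
    have h4 : M.pj (M.F x') = 0 := by
      have h5 : M.J (M.F x') = M.F x' := by rw [M.J_F, h3, map_neg, neg_neg]
      have h6 := M.pj_J h0 (M.F x')
      rw [h5] at h6
      have h7 : (2 : R) • M.pj (M.F x') = 0 := by
        rw [two_smul]
        nth_rewrite 1 [h6]
        exact neg_add_cancel _
      rw [← one_smul R (M.pj (M.F x')), ← h2, mul_smul, h7, smul_zero]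
    refine ⟨M.pr s ((2 : R) • x'), ?_⟩
    rw [M.per_apply, M.inc_pr, M.F.map_smul, smul_comm (s : ℤ) (2 : R), ← smul_add, smul_smul, h2,
      one_smul, map_add, map_zsmul, h4, smul_zero, add_zero, h1]

/-- the periods exist -/
lemma exists_period [Nontrivial R] (M : Mot E R) (h0 : M.NoMiddle) (s : ℤˣ) :
    ∃ c, M.IsPeriod s c := by
  let f : (R ⊗[E] M.eig s) ≃ₗ[R] (R ⊗[E] M.quo) := LinearEquiv.ofBijective _ (M.per_bij h0 s)
  have h1 : finrank E (M.eig s) = finrank E M.quo := by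
    rw [← Module.finrank_baseChange (R := R) (M' := M.eig s), f.finrank_eq,
      Module.finrank_baseChange]
  exact ⟨_, _, finBasis E (M.eig s), finBasisOfFinrankEq E M.quo h1.symm, rfl⟩

/-- the periods are units -/
lemma isUnit_period (M : Mot E R) (h0 : M.NoMiddle) {s : ℤˣ} {c : R} (hc : M.IsPeriod s c) :
    IsUnit c := by
  obtain ⟨n, b, d, rfl⟩ := hc
  exact LinearEquiv.isUnit_det (LinearEquiv.ofBijective _ (M.per_bij h0 s)) (b.baseChange R)
    (d.baseChange R)

end Mot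

end Pool.Agent.X33.DP
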