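import Pool.Agent.X33.DP.Jop

/-!
# The ratio of `c^+` and `c^-` is a determinant of `J`
-/

set_option autoImplicit false
set_option linter.unusedSectionVars false

namespace Pool.Agent.X33.DP

open TensorProduct Module

namespace Mot

variable {E R : Type} [Field E] [CommRing R] [Algebra E R] [CharZero E]

/-- the restriction of an operator to the eigenspaces of `F_∞` -/
noncomputable def res (M : Mot E R) (A : (R ⊗[E] M.B) →ₗ[R] (R ⊗[E] M.B)) (s s' : ℤˣ) :
    (R ⊗[E] M.eig s) →ₗ[R] (R ⊗[E] M.eig s') := M.pr s' ∘ₗ A ∘ₗ M.inc s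

lemma inc_res (M : Mot E R) {A : (R ⊗[E] M.B) →ₗ[R] (R ⊗[E] M.B)} {c s s' : ℤˣ}
    (hA : ∀ x, M.F (A x) = (c : ℤ) • A (M.F x)) (hs : s' = c * s) (z : R ⊗[E] M.eig s) :
    M.inc s' (M.res A s s' z) = A (M.inc s z) := by
  refine M.inc_pr_of ?_
  change M.F (A (M.inc s z)) = (s' : ℤ) • A (M.inc s z)
  rw [hA, M.F_inc, map_zsmul, smul_smul, hs, Units.val_mul]

lemma inc_inj (M : Mot E R) (s : ℤˣ) {y z : R ⊗[E] M.eig s} (h : M.inc s y = M.inc s z) : y = z := by
  rw [← M.pr_inc s y, h, M.pr_inc]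

lemma F_J (M : Mot E R) (x : R ⊗[E] M.B) : M.F (M.J x) = ((-1 : ℤˣ) : ℤ) • M.J (M.F x) := by
  rw [M.J_F, Units.val_neg, Units.val_one, neg_smul, one_smul, neg_neg]

lemma inc_J (M : Mot E R) {s s' : ℤˣ} (hs : s' = -s) (z : R ⊗[E] M.eig s) :
    M.inc s' (M.res M.J s s' z) = M.J (M.inc s z) :=
  M.inc_res M.F_J (by rw [hs, neg_one_mul]) z

lemma per_res (M : Mot E R) (h0 : M.NoMiddle) {s s' : ℤˣ} (hs : s' = -s) :
    M.per s' ∘ₗ M.res M.J s s' = -M.per s := by
  ext z
  change M.per s' (M.res M.J s s' (1 ⊗ₜ z)) = -M.per s (1 ⊗ₜ z)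
  rw [M.per_apply, M.per_apply, M.inc_J hs, M.pj_J h0]

lemma res_res (M : Mot E R) {A A' : (R ⊗[E] M.B) →ₗ[R] (R ⊗[E] M.B)} {c s s' s'' : ℤˣ}
    (hA : ∀ x, M.F (A x) = (c : ℤ) • A (M.F x)) (hs : s' = c * s) :
    M.res A' s' s'' ∘ₗ M.res A s s' = M.res (A' ∘ₗ A) s s'' := by
  ext z
  change M.pr s'' (A' (M.inc s' (M.res A s s' (1 ⊗ₜ z)))) = M.pr s'' (A' (A (M.inc s (1 ⊗ₜ z))))
  rw [M.inc_res hA hs]

lemma res_id (M : Mot E R) (s : ℤˣ) : M.res LinearMap.id s s = LinearMap.id := by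
  exact LinearMap.ext fun z => M.pr_inc s z

/-- the period in terms of arbitrary bases -/
lemma period_bases (M : Mot E R) {s : ℤˣ} {c : R} (hc : M.IsPeriod s c) {κ : Type} [Fintype κ]
    [DecidableEq κ] (b : Basis κ E (M.eig s)) (d : Basis κ E M.quo) :
    ∃ e : E, e ≠ 0 ∧ c = algebraMap E R e *
      (LinearMap.toMatrix (b.baseChange R) (d.baseChange R) (M.per s)).det := by
  obtain ⟨n, b0, d0, rfl⟩ := hc
  let σ : κ ≃ Fin n := b.indexEquiv b0
  obtain ⟨e, he, h⟩ := det_bases (R := R) b0 (b.reindex σ) d0 (d.reindex σ) (M.per s)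
  refine ⟨e, he, h.trans ?_⟩
  congr 1
  have h1 : ∀ {X : Type} [AddCommGroup X] [Module E X] (u : Basis κ E X),
      (u.reindex σ).baseChange R = (u.baseChange R).reindex σ := by
    intro X _ _ u
    refine Basis.eq_of_apply_eq fun i => ?_
    rw [Basis.baseChange_apply, Basis.reindex_apply, Basis.reindex_apply, Basis.baseChange_apply]
  rw [h1, h1, ← Matrix.det_submatrix_equiv_self σ.symm
    (LinearMap.toMatrix (b.baseChange R) (d.baseChange R) (M.per s))]
  congr 1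
  ext i j
  rw [Matrix.submatrix_apply, LinearMap.toMatrix_apply, LinearMap.toMatrix_apply,
    Basis.reindex_apply, Basis.repr_reindex_apply]

/-- **the ratio of the periods** -/
lemma ratio (M : Mot E R) (h0 : M.NoMiddle) {s s' : ℤˣ} (hs : s' = -s) {c c' : R}
    (hc : M.IsPeriod s c) (hc' : M.IsPeriod s' c') {κ : Type} [Fintype κ]
    [DecidableEq κ] (b : Basis κ E (M.eig s)) (b' : Basis κ E (M.eig s')) :
    ∃ e : E, e ≠ 0 ∧ c = algebraMap E R e * (c' *
      (LinearMap.toMatrix (b.baseChange R) (b'.baseChange R) (M.res M.J s s')).det) := by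
  obtain ⟨n, b1, d1, -⟩ := id hc
  let d : Basis κ E M.quo := d1.reindex (b1.indexEquiv b)
  obtain ⟨e, he, h⟩ := M.period_bases hc b d
  obtain ⟨e', he', h'⟩ := M.period_bases hc' b' d
  have h2 : LinearMap.toMatrix (b.baseChange R) (d.baseChange R) (M.per s) =
      -(LinearMap.toMatrix (b'.baseChange R) (d.baseChange R) (M.per s') *
        LinearMap.toMatrix (b.baseChange R) (b'.baseChange R) (M.res M.J s s')) := by
    rw [← LinearMap.toMatrix_comp, M.per_res h0 hs]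
    ext i j
    rw [Matrix.neg_apply, LinearMap.toMatrix_apply, LinearMap.toMatrix_apply, LinearMap.neg_apply,
      map_neg, Finsupp.neg_apply, neg_neg]
  rw [h2, Matrix.det_neg, Matrix.det_mul] at h
  refine ⟨e * (-1) ^ Fintype.card κ * e'⁻¹, mul_ne_zero (mul_ne_zero he (pow_ne_zero _ (by norm_num))) (inv_ne_zero he'), ?_⟩
  have h3 : algebraMap E R e'⁻¹ * algebraMap E R e' = 1 := by
    rw [← map_mul, inv_mul_cancel₀ he', map_one]
  rw [h, h', map_mul, map_mul, map_pow, map_neg, map_one]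
  linear_combination -(algebraMap E R e * (-1) ^ Fintype.card κ *
    (LinearMap.toMatrix (b'.baseChange R) (d.baseChange R) (M.per s')).det *
    (LinearMap.toMatrix (b.baseChange R) (b'.baseChange R) (M.res M.J s s')).det) * h3

end Mot

end Pool.Agent.X33.DP
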