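import Mathlib

/-!
# Tensor powers in coordinates
-/

set_option autoImplicit false

namespace Pool.Agent.X33.DP

section

variable {R : Type} [CommRing R] {k : ℕ} {ι κ μ : Type}

/-- the tensor product `A 1 ⊗ … ⊗ A k` -/
def tq (A : Fin k → Matrix ι κ R) : Matrix (Fin k → ι) (Fin k → κ) R :=
  Matrix.of fun s t => ∏ i, A i (s i) (t i)

/-- the tensor power `A ⊗ … ⊗ A` -/
def tens (k : ℕ) (A : Matrix ι κ R) : Matrix (Fin k → ι) (Fin k → κ) R :=
  tq fun _ => A

/-- the derivation `∑ 1 ⊗ … ⊗ A ⊗ … ⊗ 1` -/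
def der [DecidableEq ι] (k : ℕ) (A : Matrix ι ι R) : Matrix (Fin k → ι) (Fin k → ι) R :=
  ∑ i, tq (Function.update (fun _ : Fin k => (1 : Matrix ι ι R)) i A)

/-- the operator `∑ e σ σ` -/
def sym (ι : Type) [DecidableEq ι] (e : Equiv.Perm (Fin k) → R) :
    Matrix (Fin k → ι) (Fin k → ι) R :=
  Matrix.of fun s t => ∑ σ : Equiv.Perm (Fin k), if s ∘ σ = t then e σ else 0

/-- `x 1 ⊗ … ⊗ x k` -/
def tv (x : Fin k → ι → R) : (Fin k → ι) → R := fun s => ∏ i, x i (s i)

lemma tq_mul [Fintype κ] (A : Fin k → Matrix ι κ R) (B : Fin k → Matrix κ μ R) :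
    tq A * tq B = tq (fun i => A i * B i) := by
  classical
  ext s t
  rw [Matrix.mul_apply, tq, tq, tq, Matrix.of_apply]
  simp only [Matrix.of_apply, Matrix.mul_apply, ← Finset.prod_mul_distrib]
  rw [Finset.prod_univ_sum, Fintype.piFinset_univ]

lemma tq_mulVec [Fintype κ] (A : Fin k → Matrix ι κ R) (x : Fin k → κ → R) :
    (tq A).mulVec (tv x) = tv (fun i => (A i).mulVec (x i)) := by
  classical
  ext s
  simp only [tq, tv, Matrix.mulVec, dotProduct, Matrix.of_apply, ← Finset.prod_mul_distrib]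
  rw [Finset.prod_univ_sum, Fintype.piFinset_univ]

lemma tq_one [DecidableEq ι] : tq (fun _ : Fin k => (1 : Matrix ι ι R)) = 1 := by
  ext s t
  rw [tq, Matrix.of_apply, Matrix.one_apply]
  simp only [Matrix.one_apply]
  by_cases h : s = t
  · subst h
    simp
  · rw [if_neg h]
    obtain ⟨i, hi⟩ := Function.ne_iff.1 h
    exact Finset.prod_eq_zero (Finset.mem_univ i) (if_neg hi)

lemma tens_mul [Fintype κ] (A : Matrix ι κ R) (B : Matrix κ μ R) :
    tens k A * tens k B = tens k (A * B) := tq_mul _ _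

lemma tens_one [DecidableEq ι] : tens k (1 : Matrix ι ι R) = 1 := tq_one

lemma tens_neg (A : Matrix ι κ R) (hk : Odd k) : tens k (-A) = -tens k A := by
  ext s t
  rw [tens, tq, Matrix.of_apply, Matrix.neg_apply, tens, tq, Matrix.of_apply]
  simp only [Matrix.neg_apply, Finset.prod_neg, Finset.card_univ, Fintype.card_fin, hk.neg_one_pow,
    neg_one_mul]

lemma tens_mulVec [Fintype κ] (A : Matrix ι κ R) (x : Fin k → κ → R) :
    (tens k A).mulVec (tv x) = tv (fun i => A.mulVec (x i)) := tq_mulVec _ _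

/-- a matrix on tensors that commutes with the permutations of the factors -/
def Inv (G : Matrix (Fin k → ι) (Fin k → κ) R) : Prop :=
  ∀ (σ : Equiv.Perm (Fin k)) s t, G (s ∘ σ) (t ∘ σ) = G s t

lemma inv_tens (A : Matrix ι κ R) : Inv (tens k A) := by
  intro σ s t
  rw [tens, tq, Matrix.of_apply, Matrix.of_apply]
  exact Equiv.prod_comp σ fun i => A (s i) (t i)

lemma inv_der [DecidableEq ι] (A : Matrix ι ι R) : Inv (der k A) := by
  intro σ s t
  rw [der, Matrix.sum_apply, Matrix.sum_apply]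
  refine Fintype.sum_equiv σ _ _ fun i => ?_
  rw [tq, Matrix.of_apply, tq, Matrix.of_apply]
  refine Fintype.prod_equiv σ _ _ fun j => ?_
  by_cases hj : j = i
  · subst hj
    simp
  · rw [Function.update_of_ne hj, Function.update_of_ne (fun h => hj (σ.injective h))]
    rfl

lemma inv_mul [Fintype κ] {G : Matrix (Fin k → ι) (Fin k → κ) R}
    {H : Matrix (Fin k → κ) (Fin k → μ) R} (hG : Inv G) (hH : Inv H) : Inv (G * H) := by
  intro σ s t
  rw [Matrix.mul_apply, Matrix.mul_apply]
  refine (Fintype.sum_equiv (Equiv.arrowCongr σ.symm (Equiv.refl κ)) _ _ fun r => ?_).symm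
  have h1 : (Equiv.arrowCongr σ.symm (Equiv.refl κ)) r = r ∘ σ := rfl
  rw [h1, hG, hH]

lemma sym_mul_apply [DecidableEq ι] [Fintype ι] (e : Equiv.Perm (Fin k) → R)
    (G : Matrix (Fin k → ι) (Fin k → κ) R) (s : Fin k → ι) (t : Fin k → κ) :
    (sym ι e * G) s t = ∑ σ : Equiv.Perm (Fin k), e σ * G (s ∘ σ) t := by
  rw [Matrix.mul_apply]
  simp only [sym, Matrix.of_apply, Finset.sum_mul, ite_mul, zero_mul]
  rw [Finset.sum_comm]
  refine Finset.sum_congr rfl fun σ _ => ?_
  rw [Finset.sum_ite_eq, if_pos (Finset.mem_univ _)]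

lemma mul_sym_apply [DecidableEq κ] [Fintype κ] (e : Equiv.Perm (Fin k) → R)
    (G : Matrix (Fin k → ι) (Fin k → κ) R) (s : Fin k → ι) (t : Fin k → κ) :
    (G * sym κ e) s t = ∑ σ : Equiv.Perm (Fin k), e σ * G s (t ∘ σ.symm) := by
  rw [Matrix.mul_apply]
  simp only [sym, Matrix.of_apply, Finset.mul_sum, mul_ite, mul_zero]
  rw [Finset.sum_comm]
  refine Finset.sum_congr rfl fun σ _ => ?_
  rw [Finset.sum_eq_single (t ∘ σ.symm)]
  · rw [if_pos, mul_comm]
    ext i
    simp
  · intro r _ hr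
    rw [if_neg]
    rintro rfl
    apply hr
    ext i
    simp
  · intro h
    exact absurd (Finset.mem_univ _) h

/-- the group algebra commutes with invariant matrices -/
lemma sym_comm [DecidableEq ι] [Fintype ι] [DecidableEq κ] [Fintype κ]
    (e : Equiv.Perm (Fin k) → R) {G : Matrix (Fin k → ι) (Fin k → κ) R} (hG : Inv G) :
    sym ι e * G = G * sym κ e := by
  ext s t
  rw [sym_mul_apply, mul_sym_apply]
  refine Finset.sum_congr rfl fun σ _ => ?_
  rw [← hG σ s (t ∘ σ.symm)]
  congr 2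
  ext i
  simp

lemma map_tens {S : Type} [CommRing S] (f : R →+* S) (A : Matrix ι κ R) :
    (tens k A).map f = tens k (A.map f) := by
  ext s t
  simp only [tens, tq, Matrix.map_apply, Matrix.of_apply, map_prod]

lemma map_sym {S : Type} [CommRing S] (f : R →+* S) [DecidableEq ι]
    (e : Equiv.Perm (Fin k) → R) : (sym ι e).map f = sym ι (fun σ => f (e σ)) := by
  ext s t
  simp only [sym, Matrix.map_apply, Matrix.of_apply, map_sum, apply_ite f, map_zero]

/-- the multilinear map `(x 1, …, x k) ↦ x 1 ⊗ … ⊗ x k` -/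
noncomputable def tvM (R ι : Type) [CommRing R] (k : ℕ) :
    MultilinearMap R (fun _ : Fin k => ι → R) ((Fin k → ι) → R) :=
  MultilinearMap.pi fun s =>
    (MultilinearMap.mkPiAlgebra R (Fin k) R).compLinearMap fun i => LinearMap.proj (s i)

lemma tvM_apply (x : Fin k → ι → R) : tvM R ι k x = tv x := by
  ext s
  simp [tvM, tv]

lemma tv_single [DecidableEq ι] (s : Fin k → ι) :
    tv (fun i => (Pi.single (s i) (1 : R) : ι → R)) = Pi.single s 1 := by
  ext t
  rw [tv]
  by_cases h : t = s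
  · subst h
    simp
  · rw [Pi.single_eq_of_ne h]
    obtain ⟨i, hi⟩ := Function.ne_iff.1 h
    exact Finset.prod_eq_zero (Finset.mem_univ i) (Pi.single_eq_of_ne hi _)

lemma tv_smul (c : Fin k → R) (x : Fin k → ι → R) :
    tv (fun i => c i • x i) = (∏ i, c i) • tv x := by
  ext s
  simp only [tv, Pi.smul_apply, smul_eq_mul, Finset.prod_mul_distrib]

lemma tv_zsmul (c : Fin k → ℤ) (x : Fin k → ι → R) :
    tv (fun i => c i • x i) = (∏ i, c i) • tv x := by
  have h := tv_smul (fun i => ((c i : ℤ) : R)) x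
  simp only [Int.cast_smul_eq_zsmul, ← Int.cast_prod] at h
  exact h

/-- two linear maps on tensors that agree on the tensors of basis vectors are equal -/
lemma tv_ext [Fintype ι] [DecidableEq ι] {W ν : Type} [Finite ν] [AddCommGroup W] [Module R W]
    (v : Module.Basis ν R (ι → R)) {f g : ((Fin k → ι) → R) →ₗ[R] W}
    (h : ∀ j : Fin k → ν, f (tv fun i => v (j i)) = g (tv fun i => v (j i))) : f = g := by
  have h1 : f.compMultilinearMap (tvM R ι k) = g.compMultilinearMap (tvM R ι k) := by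
    refine Module.Basis.ext_multilinear (fun _ => v) fun j => ?_
    rw [LinearMap.compMultilinearMap_apply, LinearMap.compMultilinearMap_apply, tvM_apply]
    exact h j
  refine (Pi.basisFun R (Fin k → ι)).ext fun s => ?_
  have h2 := congrArg (fun F => F (fun i => (Pi.single (s i) (1 : R) : ι → R))) h1
  simp only [LinearMap.compMultilinearMap_apply, tvM_apply, tv_single] at h2
  rw [Pi.basisFun_apply]
  exact h2

end

end Pool.Agent.X33.DP
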