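import Pool.Agent.X33.DP.CDefs
import Pool.Agent.X33.DP.Ten

/-!
# Schur functors of motives, in coordinates
-/

set_option autoImplicit false

namespace Pool.Agent.X33.DP

namespace PMot

variable {E R : Type} [Field E] [CommRing R] [Algebra E R]

/-- `T = e (M^{⊗ k})` for an element `e = ∑ e σ σ` of the group algebra `E[S_k]`: the matrices `π` and `γ`
give maps `π : M_B^{⊗ k} → T_B` and `γ : T_B → M_B^{⊗ k}` with `π γ = 1` and `γ π = e`, and `π` is
compatible with `F_∞` and the Hodge decompositions. -/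
structure IsSchur (M T : PMot E R) (k : ℕ) (e : Equiv.Perm (Fin k) → E)
    (π : Matrix (Fin T.N) (Fin k → Fin M.N) E) (γ : Matrix (Fin k → Fin M.N) (Fin T.N) E) :
    Prop where
  weight : T.w = k * M.w
  proj : π * γ = 1
  sect : γ * π = sym (Fin M.N) e
  frob : T.F * π = π * tens k M.F
  hodge : ∀ (a : Fin k → ℤ) (x : Fin k → Fin M.N → R), (∀ i, x i ∈ M.H (a i)) →
    (π.map (algebraMap E R)).mulVec (tv x) ∈ T.H (∑ i, a i)

end PMot

end Pool.Agent.X33.DP
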