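import Pool.Agent.X33.DP.Lam

/-!
# The exponents for symmetric powers
-/

set_option autoImplicit false
set_option linter.unusedSectionVars false

namespace Pool.Agent.X33.DP

open Polynomial Equiv

/-- the signed cycle polynomial -/
noncomputable def Pm (k : ℕ) : ℤ[X] :=
  ∑ σ : Perm (Fin k), C (((Perm.sign σ : ℤˣ) : ℤ) * oddLen σ) * X ^ numCyc σ

lemma Pm_eval (k : ℕ) (x : ℤ) : (Pm k).eval x =
    ∑ σ : Perm (Fin k), ((Perm.sign σ : ℤˣ) : ℤ) * (oddLen σ * x ^ numCyc σ) := by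
  rw [Pm, eval_finsetSum]
  refine Finset.sum_congr rfl fun σ _ => ?_
  rw [eval_mul, eval_C, eval_pow, eval_X]
  ring

lemma Pm_eval_neg (k : ℕ) (x : ℤ) : (-1) ^ k * (Pm k).eval (-x) =
    ∑ σ : Perm (Fin k), (oddLen σ * x ^ numCyc σ : ℤ) := by
  rw [Pm_eval, Finset.mul_sum]
  refine Finset.sum_congr rfl fun σ _ => ?_
  rw [← sign_eq σ, neg_pow x]
  have h1 : (((Perm.sign σ : ℤˣ) : ℤ)) * ((Perm.sign σ : ℤˣ) : ℤ) = 1 := by
    rcases Int.units_eq_one_or (Perm.sign σ) with h | h <;> rw [h] <;> norm_num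
  have h2 : ((-1 : ℤ) ^ numCyc σ) * (-1) ^ numCyc σ = 1 := by
    rw [← mul_pow]
    norm_num
  linear_combination (oddLen σ * x ^ numCyc σ * ((-1) ^ numCyc σ * (-1) ^ numCyc σ) : ℤ) * h1 +
    (oddLen σ * x ^ numCyc σ : ℤ) * h2

lemma Pm_comp (l : ℕ) : C (l.factorial : ℤ) * (Pm (2 * l + 1)).comp (2 * X) =
    C (((2 * l + 1).factorial : ℤ) * (-1) ^ l) * (2 * X) *
      (descPochhammer ℤ l).comp (X - 1) := by
  refine Polynomial.eq_of_infinite_eval_eq _ _ (Set.infinite_of_injective_forall_mem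
    (f := fun n : ℕ => ((n + 1 : ℕ) : ℤ)) (fun a b h => by
      have : ((a + 1 : ℕ) : ℤ) = ((b + 1 : ℕ) : ℤ) := h
      omega) fun n => ?_)
  rw [Set.mem_ofPred_eq]
  simp only [eval_mul, eval_C, eval_comp, eval_ofNat, eval_X, eval_sub, eval_one]
  rw [Pm_eval, sum_oddLen_sign, Nat.add_sub_cancel,
    show (((n + 1 : ℕ) : ℤ) - 1) = ((n : ℕ) : ℤ) by push_cast; ring,
    descPochhammer_eval_eq_descFactorial, Nat.descFactorial_eq_factorial_mul_choose]
  push_cast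
  ring

/-- the exponent for symmetric powers -/
lemma sum_oddLen (n l : ℕ) :
    ∑ σ : Perm (Fin (2 * l + 1)), (oddLen σ * (2 * (n : ℤ)) ^ numCyc σ : ℤ) =
      ((2 * l + 1).factorial : ℤ) * (2 * n * ((n + l).choose l : ℤ)) := by
  rw [← Pm_eval_neg]
  have h1 := congrArg (eval (-(n : ℤ))) (Pm_comp l)
  simp only [eval_mul, eval_C, eval_comp, eval_ofNat, eval_X, eval_sub, eval_one] at h1
  have h2 : (descPochhammer ℤ l).eval (-(n : ℤ) - 1) =
      (-1) ^ l * ((l.factorial : ℤ) * ((n + l).choose l : ℤ)) := by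
    have h3 := ascPochhammer_eval_neg_eq_descPochhammer ℤ (-(n : ℤ) - 1) l
    rw [show -(-(n : ℤ) - 1) = ((n + 1 : ℕ) : ℤ) by push_cast; ring,
      ascPochhammer_nat_eq_natCast_ascFactorial, Nat.ascFactorial_eq_factorial_mul_choose] at h3
    have h4 : ((-1 : ℤ) ^ l) * (-1) ^ l = 1 := by
      rw [← mul_pow]
      norm_num
    push_cast at h3
    linear_combination (-1) ^ l * (-h3) - (eval (-(n : ℤ) - 1) (descPochhammer ℤ l)) * h4
  have h5 : (l.factorial : ℤ) ≠ 0 := by exact_mod_cast l.factorial_ne_zero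
  refine mul_left_cancel₀ h5 ?_
  rw [h2] at h1
  have h4 : ((-1 : ℤ) ^ l) * (-1) ^ l = 1 := by
    rw [← mul_pow]
    norm_num
  have h6 : ((-1 : ℤ)) ^ (2 * l + 1) = -1 := by
    rw [pow_succ, pow_mul]
    norm_num
  rw [h6, show -(2 * (n : ℤ)) = 2 * -(n : ℤ) by ring]
  linear_combination (-1 : ℤ) * h1 + (((2 * l + 1).factorial : ℤ) * (2 * n) *
    ((l.factorial : ℤ) * ((n + l).choose l : ℤ))) * h4

end Pool.Agent.X33.DP
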