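import Pool.Agent.X33.DP.Trace
import Pool.Agent.X33.DP.Sy
import Pool.Agent.X33.DP.CMain

/-!
# The periods of Schur functors, exterior and symmetric powers
-/

set_option autoImplicit false
set_option linter.unusedSectionVars false

namespace Pool.Agent.X33.DP

open TensorProduct Module Equiv

namespace PMot

section defs

variable {E K : Type} [Field E] [Field K] [Algebra E K]

/-- `c^s(T) / c^{-s}(T) = (c^s(M) / c^{-s}(M)) ^ r` modulo `Eˣ` -/
def RatioPow (M T : PMot E K) (r : ℤ) : Prop :=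
  ∀ (s : ℤˣ) (c c' t t' : K), M.IsPeriod s c → M.IsPeriod (-s) c' →
    T.IsPeriod s t → T.IsPeriod (-s) t' →
    ∃ e : E, e ≠ 0 ∧ t / t' = algebraMap E K e * (c / c') ^ r

/-- if Deligne's formula for `T` holds for `y' ≠ 0` at `m'`, then Deligne's formula for `y` at an
integer `m` of the other parity is equivalent to the formula
`y / y' ∼ (2πi)^((m - m') dim T^+) (c^s(M) / c^{-s}(M)) ^ r`, `s = (-1)^m` -/
def TransferPow (τ : ℤ → K) (M T : PMot E K) (r : ℤ) : Prop :=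
  ∀ (m m' : ℤ) (c c' y y' : K), ((-1 : ℤˣ) ^ m') = -(-1) ^ m →
    M.IsPeriod ((-1) ^ m) c → M.IsPeriod (-(-1) ^ m) c' → y' ≠ 0 → Formula τ T m' y' →
    (Formula τ T m y ↔
      ∃ e : E, y / y' = algebraMap E K e * (τ ((m - m') * T.dim 1) * (c / c') ^ r))

end defs

variable {E K : Type} [Field E] [Field K] [Algebra E K] [CharZero E] [CharZero K]
  {M T : PMot E K}

lemma ratioPow_of {r : ℤ} (h : ∀ cp cm tp tm : K, M.IsPeriod 1 cp → M.IsPeriod (-1) cm →
      T.IsPeriod 1 tp → T.IsPeriod (-1) tm →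
      ∃ e : E, e ≠ 0 ∧ tp / tm = algebraMap E K e * (cp / cm) ^ r) : RatioPow M T r := by
  intro s c c' t t' hc hc' ht ht'
  rcases Int.units_eq_one_or s with rfl | rfl
  · exact h c c' t t' hc hc' ht ht'
  · rw [neg_neg] at hc' ht'
    obtain ⟨e, he, h1⟩ := h c' c t' t hc' hc ht' ht
    refine ⟨e⁻¹, inv_ne_zero he, ?_⟩
    rw [← inv_div, h1, mul_inv, map_inv₀, ← inv_zpow, inv_div]

theorem transferPow (τ : ℤ → K) (hτ : ∀ k l, τ k * τ l = τ (k + l)) (hτ0 : ∀ k, τ k ≠ 0)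
    (hT : T.NoMiddle) {r : ℤ} (h : RatioPow M T r) : TransferPow τ M T r := by
  intro m m' c c' y y' hm hc hc' hy hf
  obtain ⟨t, ht⟩ := T.exists_isPeriod hT ((-1) ^ m)
  obtain ⟨t', ht'⟩ := T.exists_isPeriod hT (-(-1) ^ m)
  obtain ⟨e, he, h1⟩ := h _ c c' t t' hc hc' ht ht'
  obtain ⟨e', h2⟩ := hf t' (by rw [hm]; exact ht')
  rw [dim_eq hT _ 1] at h2
  have ht0 : t ≠ 0 := (isUnit_isPeriod hT ht).ne_zero
  have ht0' : t' ≠ 0 := (isUnit_isPeriod hT ht').ne_zero
  have he0 : algebraMap E K e ≠ 0 := by rwa [Ne, FaithfulSMul.algebraMap_eq_zero_iff]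
  have he0' : algebraMap E K e' ≠ 0 := by
    intro h3
    rw [h3, zero_mul] at h2
    exact hy h2
  have he1' : e' ≠ 0 := by
    rintro rfl
    exact he0' (map_zero _)
  have hr : (c / c') ^ r = (algebraMap E K e)⁻¹ * (t / t') := by
    rw [h1, ← mul_assoc, inv_mul_cancel₀ he0, one_mul]
  have htt : τ ((m - m') * T.dim 1) * τ (m' * T.dim 1) = τ (m * T.dim 1) := by
    rw [hτ]
    congr 1
    ring
  have hc0 := hτ0 ((m - m') * T.dim 1)
  have hc1 := hτ0 (m' * T.dim 1)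
  constructor
  · intro hF
    obtain ⟨e1, h3⟩ := hF t ht
    rw [dim_eq hT _ 1] at h3
    refine ⟨e1 * e * e'⁻¹, ?_⟩
    rw [hr, h3, h2, map_mul, map_mul, map_inv₀, ← htt]
    field_simp
  · rintro ⟨e1, h3⟩ t1 ht1
    obtain ⟨e2, he2, h4⟩ := Mot.period_unique _ (toMot_isPeriod ht) (toMot_isPeriod ht1)
    refine ⟨e1 * e⁻¹ * e' * e2, ?_⟩
    rw [div_eq_iff hy] at h3
    rw [h3, dim_eq hT ((-1) ^ m) 1, hr, h2, h4, map_mul, map_mul, map_mul, map_inv₀, ← htt]
    field_simp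

variable {k : ℕ} {e : Perm (Fin k) → E} {π : Matrix (Fin T.N) (Fin k → Fin M.N) E}
  {γ : Matrix (Fin k → Fin M.N) (Fin T.N) E} [IsAlgClosed K]

/-- the ratio of the periods of a Schur functor in terms of the cycles of permutations -/
theorem schur_cyc (h : IsSchur M T k e π γ) (hk : Odd k) (hM : M.NoMiddle) (hT : T.NoMiddle) :
    ∃ r : ℤ, (r : E) * M.N = ∑ σ : Perm (Fin k), e σ * (oddLen σ * (M.N : E) ^ numCyc σ) ∧
      RatioPow M T r := by
  obtain ⟨r, h1, h2⟩ := schur_main h hk hM hT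
  refine ⟨r, ?_, ratioPow_of h2⟩
  have hM' := toMot_noMiddle hM
  have hn' : finrank E (M.toMot.eig (-1)) = finrank E (M.toMot.eig 1) :=
    Mot.finrank_eig _ hM' _ _
  let u : Basis (Fin (finrank E (M.toMot.eig 1))) E (M.toMot.eig 1) := finBasis E _
  let u' : Basis (Fin (finrank E (M.toMot.eig 1))) E (M.toMot.eig (-1)) :=
    finBasisOfFinrankEq E _ hn'
  have hN : M.N = 2 * finrank E (M.toMot.eig 1) := by
    have h3 := Module.finrank_eq_card_basis (M.toMot.bB u u')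
    rw [Fintype.card_sum, Fintype.card_fin] at h3
    have h4 : finrank E M.toMot.B = M.N := Module.finrank_fin_fun E
    omega
  rw [h1, trace_cyc h u u', hN]
  push_cast
  rfl

lemma N_eq (hM : M.NoMiddle) : M.N = 2 * M.dim 1 := by
  have hM' := toMot_noMiddle hM
  have hn' : finrank E (M.toMot.eig (-1)) = finrank E (M.toMot.eig 1) :=
    Mot.finrank_eig _ hM' _ _
  let u : Basis (Fin (finrank E (M.toMot.eig 1))) E (M.toMot.eig 1) := finBasis E _
  let u' : Basis (Fin (finrank E (M.toMot.eig 1))) E (M.toMot.eig (-1)) :=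
    finBasisOfFinrankEq E _ hn'
  have h3 := Module.finrank_eq_card_basis (M.toMot.bB u u')
  rw [Fintype.card_sum, Fintype.card_fin] at h3
  have h4 : finrank E M.toMot.B = M.N := Module.finrank_fin_fun E
  have h5 := M.finrank_toMot 1
  omega

/-- the period of the zero motive -/
lemma period_zero (hN : M.N = 0) {s : ℤˣ} {c : K} (hc : M.IsPeriod s c) : c = 1 := by
  obtain ⟨n, B, Q, hB, -, -, -, rfl⟩ := hc
  have hn : n = 0 := by
    by_contra hn
    obtain ⟨m, rfl⟩ := Nat.exists_eq_succ_of_ne_zero hn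
    have : IsEmpty (Fin M.N) := by
      rw [hN]
      infer_instance
    have h1 : (fun _ : Fin (m + 1) => (0 : E)) = fun _ => 1 := hB (Subsingleton.elim _ _)
    exact zero_ne_one (congrFun h1 0)
  subst hn
  exact Matrix.det_isEmpty

/-- the exponent can be computed with rational numbers -/
lemma schur_exp (h : IsSchur M T k e π γ) (hk : Odd k) (hM : M.NoMiddle) (hT : T.NoMiddle) {r : ℤ}
    (hr : ∑ σ : Perm (Fin k), e σ * (oddLen σ * (M.N : E) ^ numCyc σ) = r * M.N) :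
    RatioPow M T r := by
  obtain ⟨r', h1, h2⟩ := schur_cyc h hk hM hT
  rw [hr] at h1
  by_cases hN : M.N = 0
  · intro s c c' t t' hc hc' ht ht'
    obtain ⟨a, ha, h3⟩ := h2 s c c' t t' hc hc' ht ht'
    refine ⟨a, ha, ?_⟩
    rw [h3, period_zero hN hc, period_zero hN hc', div_one, one_zpow, one_zpow]
  · have hN' : (M.N : E) ≠ 0 := by exact_mod_cast hN
    have h3 := mul_right_cancel₀ hN' h1
    have h4 : r' = r := by exact_mod_cast h3
    rwa [← h4]

/-- exterior powers -/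
theorem ext_main {l : ℕ} {e : Perm (Fin (2 * l + 1)) → E}
    {π : Matrix (Fin T.N) (Fin (2 * l + 1) → Fin M.N) E}
    {γ : Matrix (Fin (2 * l + 1) → Fin M.N) (Fin T.N) E} (h : IsSchur M T (2 * l + 1) e π γ)
    (he : ∀ σ, e σ = ((Perm.sign σ : ℤˣ) : ℤ) / ((2 * l + 1).factorial : E))
    (hM : M.NoMiddle) (hT : T.NoMiddle) :
    RatioPow M T ((-1) ^ l * ((M.dim 1 - 1).choose l : ℤ)) := by
  refine schur_exp h (odd_two_mul_add_one l) hM hT ?_
  have h1 := congrArg (fun x : ℤ => (x : E)) (sum_oddLen_sign (M.dim 1) l)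
  have hf : ((2 * l + 1).factorial : E) ≠ 0 := by exact_mod_cast (2 * l + 1).factorial_ne_zero
  have h2 : ∑ σ : Perm (Fin (2 * l + 1)), e σ * (oddLen σ * (M.N : E) ^ numCyc σ) =
      (∑ σ : Perm (Fin (2 * l + 1)), ((((Perm.sign σ : ℤˣ) : ℤ) : E)) *
        (oddLen σ * (2 * (M.dim 1 : E)) ^ numCyc σ)) / ((2 * l + 1).factorial : E) := by
    rw [Finset.sum_div]
    refine Finset.sum_congr rfl fun σ _ => ?_
    rw [he, N_eq hM]
    push_cast
    ring
  simp only [Int.cast_sum, Int.cast_mul, Int.cast_pow, Int.cast_natCast, Int.cast_ofNat,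
    Int.cast_neg, Int.cast_one] at h1
  rw [h2, h1, N_eq hM]
  push_cast
  field_simp

/-- symmetric powers -/
theorem sym_main {l : ℕ} {e : Perm (Fin (2 * l + 1)) → E}
    {π : Matrix (Fin T.N) (Fin (2 * l + 1) → Fin M.N) E}
    {γ : Matrix (Fin (2 * l + 1) → Fin M.N) (Fin T.N) E} (h : IsSchur M T (2 * l + 1) e π γ)
    (he : ∀ σ, e σ = 1 / ((2 * l + 1).factorial : E))
    (hM : M.NoMiddle) (hT : T.NoMiddle) :
    RatioPow M T ((M.dim 1 + l).choose l : ℤ) := by
  refine schur_exp h (odd_two_mul_add_one l) hM hT ?_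
  have h1 := congrArg (fun x : ℤ => (x : E)) (sum_oddLen (M.dim 1) l)
  have hf : ((2 * l + 1).factorial : E) ≠ 0 := by exact_mod_cast (2 * l + 1).factorial_ne_zero
  have h2 : ∑ σ : Perm (Fin (2 * l + 1)), e σ * (oddLen σ * (M.N : E) ^ numCyc σ) =
      (∑ σ : Perm (Fin (2 * l + 1)),
        (oddLen σ * (2 * (M.dim 1 : E)) ^ numCyc σ)) / ((2 * l + 1).factorial : E) := by
    rw [Finset.sum_div]
    refine Finset.sum_congr rfl fun σ _ => ?_
    rw [he, N_eq hM]
    push_cast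
    ring
  simp only [Int.cast_sum, Int.cast_mul, Int.cast_pow, Int.cast_natCast, Int.cast_ofNat] at h1
  rw [h2, h1, N_eq hM]
  push_cast
  field_simp

end PMot

end Pool.Agent.X33.DP
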