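import Pool.Agent.X33.DP.Func
import Pool.Agent.X33.DP.Bridge
import Pool.Agent.X33.DP.SDefs

/-!
# The functor of a Schur functor
-/

set_option autoImplicit false
set_option linter.unusedSectionVars false

namespace Pool.Agent.X33.DP

open TensorProduct Module

section mt

variable {E K : Type} [Field E] [Field K] [Algebra E K]

/-- the matrix of an operator -/
noncomputable def mt (E K : Type) [Field E] [Field K] [Algebra E K] (N : ℕ) :
    Module.End K (K ⊗[E] (Fin N → E)) →* Matrix (Fin N) (Fin N) K where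
  toFun g := LinearMap.toMatrix' ((phi E K (Fin N)).toLinearMap ∘ₗ g ∘ₗ
    (phi E K (Fin N)).symm.toLinearMap)
  map_one' := by
    rw [show (phi E K (Fin N)).toLinearMap ∘ₗ (1 : Module.End K (K ⊗[E] (Fin N → E))) ∘ₗ
      (phi E K (Fin N)).symm.toLinearMap = LinearMap.id from
      LinearMap.ext fun x => (phi E K (Fin N)).apply_symm_apply x, LinearMap.toMatrix'_id]
  map_mul' g h := by
    rw [← LinearMap.toMatrix'_comp]
    congr 1
    refine LinearMap.ext fun x => ?_
    change phi E K (Fin N) (g (h ((phi E K (Fin N)).symm x))) = phi E K (Fin N)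
      (g ((phi E K (Fin N)).symm (phi E K (Fin N) (h ((phi E K (Fin N)).symm x)))))
    rw [LinearEquiv.symm_apply_apply]

lemma mt_mulVec {N : ℕ} (g : Module.End K (K ⊗[E] (Fin N → E))) (z : K ⊗[E] (Fin N → E)) :
    (mt E K N g).mulVec (phi E K (Fin N) z) = phi E K (Fin N) (g z) := by
  change (LinearMap.toMatrix' _).mulVec _ = _
  rw [LinearMap.toMatrix'_mulVec]
  change phi E K (Fin N) (g ((phi E K (Fin N)).symm (phi E K (Fin N) z))) = _
  rw [LinearEquiv.symm_apply_apply]

/-- the operator of a matrix -/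
noncomputable def mi (E K : Type) [Field E] [Field K] [Algebra E K] (N : ℕ)
    (A : Matrix (Fin N) (Fin N) K) : Module.End K (K ⊗[E] (Fin N → E)) :=
  (phi E K (Fin N)).symm.toLinearMap ∘ₗ A.mulVecLin ∘ₗ (phi E K (Fin N)).toLinearMap

lemma mi_apply {N : ℕ} (A : Matrix (Fin N) (Fin N) K) (z : K ⊗[E] (Fin N → E)) :
    mi E K N A z = (phi E K (Fin N)).symm (A.mulVec (phi E K (Fin N) z)) := rfl

lemma phi_mi {N : ℕ} (A : Matrix (Fin N) (Fin N) K) (z : K ⊗[E] (Fin N → E)) :
    phi E K (Fin N) (mi E K N A z) = A.mulVec (phi E K (Fin N) z) := by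
  rw [mi_apply, LinearEquiv.apply_symm_apply]

lemma mi_one {N : ℕ} : mi E K N 1 = 1 := by
  refine LinearMap.ext fun z => (phi E K (Fin N)).injective ?_
  rw [phi_mi, Matrix.one_mulVec]
  rfl

lemma mi_mul {N : ℕ} (A B : Matrix (Fin N) (Fin N) K) :
    mi E K N (A * B) = mi E K N A * mi E K N B := by
  refine LinearMap.ext fun z => (phi E K (Fin N)).injective ?_
  rw [phi_mi, ← Matrix.mulVec_mulVec, ← phi_mi, ← phi_mi]
  rfl

lemma mi_neg {N : ℕ} (A : Matrix (Fin N) (Fin N) K) : mi E K N (-A) = -mi E K N A := by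
  refine LinearMap.ext fun z => (phi E K (Fin N)).injective ?_
  rw [phi_mi, Matrix.neg_mulVec, ← phi_mi, ← map_neg]
  rfl

lemma mi_map {N : ℕ} (A : Matrix (Fin N) (Fin N) E) :
    mi E K N (A.map (algebraMap E K)) = A.mulVecLin.baseChange K := by
  refine LinearMap.ext fun z => (phi E K (Fin N)).injective ?_
  rw [phi_mi, phi_mulVec]

lemma mt_baseChange {N : ℕ} (g : Module.End E (Fin N → E)) :
    mt E K N (g.baseChange K) = (LinearMap.toMatrix' g).map (algebraMap E K) := by
  have h : g = (LinearMap.toMatrix' g).mulVecLin := by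
    rw [← Matrix.toLin'_apply', Matrix.toLin'_toMatrix']
  have h1 : ∀ x, (mt E K N (g.baseChange K)).mulVec x =
      ((LinearMap.toMatrix' g).map (algebraMap E K)).mulVec x := by
    intro x
    obtain ⟨z, rfl⟩ := (phi E K (Fin N)).surjective x
    rw [mt_mulVec, ← phi_mulVec, ← h]
  ext i j
  have h2 := congrFun (h1 (Pi.single j 1)) i
  rwa [Matrix.mulVec_single_one, Matrix.mulVec_single_one] at h2

lemma mt_neg_one {N : ℕ} : mt E K N (-1) = -1 := by
  change LinearMap.toMatrix' _ = _
  have h : (phi E K (Fin N)).toLinearMap ∘ₗ (-1 : Module.End K (K ⊗[E] (Fin N → E))) ∘ₗ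
      (phi E K (Fin N)).symm.toLinearMap = -LinearMap.id := LinearMap.ext fun x => by
    change phi E K (Fin N) (-((phi E K (Fin N)).symm x)) = -x
    rw [map_neg, LinearEquiv.apply_symm_apply]
  rw [h, map_neg, LinearMap.toMatrix'_id]

end mt

namespace PMot

variable {E K : Type} [Field E] [Field K] [Algebra E K] {M T : PMot E K} {k : ℕ}
  {e : Equiv.Perm (Fin k) → E} {π : Matrix (Fin T.N) (Fin k → Fin M.N) E}
  {γ : Matrix (Fin k → Fin M.N) (Fin T.N) E}

lemma proj_map (h : IsSchur M T k e π γ) :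
    π.map (algebraMap E K) * γ.map (algebraMap E K) = 1 := by
  rw [← Matrix.map_mul, h.proj, Matrix.map_one _ (map_zero _) (map_one _)]

lemma sect_map (h : IsSchur M T k e π γ) :
    γ.map (algebraMap E K) * π.map (algebraMap E K) =
      sym (Fin M.N) (fun σ => algebraMap E K (e σ)) := by
  rw [← Matrix.map_mul, h.sect, map_sym]

/-- invariant matrices act on `T` -/
lemma act_mul (h : IsSchur M T k e π γ) {G H : Matrix (Fin k → Fin M.N) (Fin k → Fin M.N) K}
    (hG : Inv G) :
    (π.map (algebraMap E K) * G * γ.map (algebraMap E K)) *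
      (π.map (algebraMap E K) * H * γ.map (algebraMap E K)) =
      π.map (algebraMap E K) * (G * H) * γ.map (algebraMap E K) := by
  calc _ = π.map (algebraMap E K) * (G * (γ.map (algebraMap E K) * π.map (algebraMap E K))) * H *
        γ.map (algebraMap E K) := by simp only [Matrix.mul_assoc]
    _ = π.map (algebraMap E K) * (γ.map (algebraMap E K) * π.map (algebraMap E K)) * G * H *
        γ.map (algebraMap E K) := by
      rw [sect_map h, ← sym_comm _ hG]
      simp only [Matrix.mul_assoc]
    _ = _ := by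
      rw [← Matrix.mul_assoc (π.map (algebraMap E K)) (γ.map (algebraMap E K)), proj_map h,
        Matrix.one_mul]
      simp only [Matrix.mul_assoc]

/-- the action on images of tensors -/
lemma act_tv (h : IsSchur M T k e π γ) {G : Matrix (Fin k → Fin M.N) (Fin k → Fin M.N) K}
    (hG : Inv G) (x : (Fin k → Fin M.N) → K) :
    (π.map (algebraMap E K) * G * γ.map (algebraMap E K)).mulVec
      ((π.map (algebraMap E K)).mulVec x) = (π.map (algebraMap E K)).mulVec (G.mulVec x) := by
  rw [Matrix.mulVec_mulVec, Matrix.mulVec_mulVec]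
  congr 1
  calc _ = π.map (algebraMap E K) * (G * (γ.map (algebraMap E K) * π.map (algebraMap E K))) := by
        simp only [Matrix.mul_assoc]
    _ = π.map (algebraMap E K) * (γ.map (algebraMap E K) * π.map (algebraMap E K)) * G := by
      rw [sect_map h, ← sym_comm _ hG]
      simp only [Matrix.mul_assoc]
    _ = _ := by
      rw [← Matrix.mul_assoc, proj_map h, Matrix.one_mul]

/-- the functor -/
noncomputable def Th (h : IsSchur M T k e π γ) :
    Module.End K (K ⊗[E] (Fin M.N → E)) →* Module.End K (K ⊗[E] (Fin T.N → E)) where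
  toFun g := mi E K T.N (π.map (algebraMap E K) * tens k (mt E K M.N g) *
    γ.map (algebraMap E K))
  map_one' := by
    rw [map_one, tens_one, Matrix.mul_one, proj_map h, mi_one]
  map_mul' g g' := by
    rw [← mi_mul, act_mul h (inv_tens _), map_mul, tens_mul]

lemma Th_apply (h : IsSchur M T k e π γ) (g : Module.End K (K ⊗[E] (Fin M.N → E))) :
    Th h g = mi E K T.N (π.map (algebraMap E K) * tens k (mt E K M.N g) *
      γ.map (algebraMap E K)) := rfl

/-- the value on the image of a tensor -/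
lemma Th_tv (h : IsSchur M T k e π γ) (g : Module.End K (K ⊗[E] (Fin M.N → E)))
    (x : Fin k → K ⊗[E] (Fin M.N → E)) :
    Th h g ((phi E K (Fin T.N)).symm ((π.map (algebraMap E K)).mulVec
      (tv fun i => phi E K (Fin M.N) (x i)))) =
    (phi E K (Fin T.N)).symm ((π.map (algebraMap E K)).mulVec
      (tv fun i => phi E K (Fin M.N) (g (x i)))) := by
  rw [Th_apply, mi_apply, LinearEquiv.apply_symm_apply, act_tv h (inv_tens _), tens_mulVec]
  simp only [mt_mulVec]

lemma Th_F (h : IsSchur M T k e π γ) : Th h M.toMot.F = T.toMot.F := by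
  change Th h (M.F.mulVecLin.baseChange K) = T.F.mulVecLin.baseChange K
  have h1 : LinearMap.toMatrix' M.F.mulVecLin = M.F := by
    rw [← Matrix.toLin'_apply', LinearMap.toMatrix'_toLin']
  rw [Th_apply, mt_baseChange, h1, ← map_tens, ← Matrix.map_mul, ← Matrix.map_mul, ← h.frob,
    Matrix.mul_assoc, h.proj, Matrix.mul_one, mi_map]

lemma Th_neg_one (h : IsSchur M T k e π γ) (hk : Odd k) : Th h (-1) = -1 := by
  rw [Th_apply, mt_neg_one, tens_neg _ hk, tens_one, Matrix.mul_neg, Matrix.mul_one,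
    Matrix.neg_mul, proj_map h, mi_neg, mi_one]

lemma Th_rat (h : IsSchur M T k e π γ) (g : Module.End E (Fin M.N → E)) :
    ∃ g' : Module.End E (Fin T.N → E), Th h (g.baseChange K) = g'.baseChange K := by
  refine ⟨(π * tens k (LinearMap.toMatrix' g) * γ).mulVecLin, ?_⟩
  rw [Th_apply, mt_baseChange, ← map_tens, ← Matrix.map_mul, ← Matrix.map_mul, mi_map]

/-- two maps on `T` that agree on the images of tensors of basis vectors are equal -/
lemma T_ext (h : IsSchur M T k e π γ) {ν : Type} [Finite ν]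
    (v : Basis ν K (K ⊗[E] (Fin M.N → E))) {f g : Module.End K (K ⊗[E] (Fin T.N → E))}
    (hfg : ∀ j : Fin k → ν, f ((phi E K (Fin T.N)).symm ((π.map (algebraMap E K)).mulVec
      (tv fun i => phi E K (Fin M.N) (v (j i))))) =
      g ((phi E K (Fin T.N)).symm ((π.map (algebraMap E K)).mulVec
      (tv fun i => phi E K (Fin M.N) (v (j i)))))) : f = g := by
  have h1 : f ∘ₗ (phi E K (Fin T.N)).symm.toLinearMap ∘ₗ (π.map (algebraMap E K)).mulVecLin =
      g ∘ₗ (phi E K (Fin T.N)).symm.toLinearMap ∘ₗ (π.map (algebraMap E K)).mulVecLin :=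
    tv_ext (v.map (phi E K (Fin M.N))) fun j => by
      simp only [Basis.map_apply]
      exact hfg j
  refine LinearMap.ext fun z => ?_
  have h2 := LinearMap.congr_fun h1 ((γ.map (algebraMap E K)).mulVec (phi E K (Fin T.N) z))
  change f ((phi E K (Fin T.N)).symm ((π.map (algebraMap E K)).mulVec _)) =
    g ((phi E K (Fin T.N)).symm ((π.map (algebraMap E K)).mulVec _)) at h2
  rw [Matrix.mulVec_mulVec, proj_map h, Matrix.one_mulVec, LinearEquiv.symm_apply_apply] at h2
  exact h2

lemma Th_J (h : IsSchur M T k e π γ) :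
    Th h M.toMot.J * T.toMot.J = T.toMot.J * Th h M.toMot.J := by
  obtain ⟨ι, _, v, t, hv⟩ := M.toMot.hodge
  refine T_ext h v fun j => ?_
  have hmem : ∀ i, v (j i) ∈ M.toMot.H (t (j i)) := fun i => by
    rw [hv]
    exact Submodule.subset_span ⟨j i, rfl, rfl⟩
  have hmem' : ∀ i, phi E K (Fin M.N) (v (j i)) ∈ M.H (t (j i)) := fun i => by
    obtain ⟨y, hy, hy'⟩ := hmem i
    rw [← hy']
    change phi E K (Fin M.N) ((phi E K (Fin M.N)).symm y) ∈ _
    rwa [LinearEquiv.apply_symm_apply]
  have hT : (phi E K (Fin T.N)).symm ((π.map (algebraMap E K)).mulVec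
      (tv fun i => phi E K (Fin M.N) (v (j i)))) ∈ T.toMot.H (∑ i, t (j i)) :=
    ⟨_, h.hodge (fun i => t (j i)) _ hmem', rfl⟩
  have hJ : Th h M.toMot.J ((phi E K (Fin T.N)).symm ((π.map (algebraMap E K)).mulVec
      (tv fun i => phi E K (Fin M.N) (v (j i))))) = (∏ i, M.toMot.sg (t (j i))) •
      ((phi E K (Fin T.N)).symm ((π.map (algebraMap E K)).mulVec
      (tv fun i => phi E K (Fin M.N) (v (j i))))) := by
    have h1 : ∀ i, phi E K (Fin M.N) (M.toMot.J (v (j i))) =
        M.toMot.sg (t (j i)) • phi E K (Fin M.N) (v (j i)) := fun i => by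
      rw [M.toMot.J_mem (hmem i), map_zsmul]
    rw [Th_tv]
    simp only [h1]
    rw [tv_zsmul, Matrix.mulVec_smul, map_zsmul]
  rw [Module.End.mul_apply, Module.End.mul_apply, hJ, map_zsmul, T.toMot.J_mem hT, map_zsmul, hJ,
    smul_smul, smul_smul, mul_comm]

end PMot

end Pool.Agent.X33.DP
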