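import Pool.Agent.X33.DP.Tens

/-!
# The determinant of `K J` on `T^+` is a sign
-/

set_option autoImplicit false
set_option linter.unusedSectionVars false

namespace Pool.Agent.X33.DP

open TensorProduct Module

namespace Mot

variable {E R : Type} [Field E] [CommRing R] [Algebra E R] [CharZero E]
  {M N T : Mot E R}

lemma half_two (E R : Type) [Field E] [CommRing R] [Algebra E R] [CharZero E] :
    algebraMap E R (1 / 2) * 2 = 1 := by
  rw [show (2 : R) = algebraMap E R 2 by rw [map_ofNat], ← map_mul]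
  norm_num

/-- an operator which commutes with `F_∞` and is diagonal with entries `± 1` in a homogeneous basis has
determinant `± 1` on `T^+ ⊗ R` -/
lemma det_sign (T : Mot E R) {κ : Type} [Fintype κ] (t : Basis κ R (R ⊗[E] T.B))
    (g : κ → ℤ) (hg : ∀ k, g k = 1 ∨ g k = -1) (hJ : ∀ k, T.J (t k) = (g k : R) • t k)
    (s : κ → ℤ) (hs : ∀ k, s k = 1 ∨ s k = -1) {A : (R ⊗[E] T.B) →ₗ[R] (R ⊗[E] T.B)}
    (hA : ∀ k, A (t k) = (s k : R) • t k) (hAF : ∀ x, T.F (A x) = A (T.F x)) :
    ∃ c : ℤ, (c = 1 ∨ c = -1) ∧ LinearMap.det (T.res A 1 1) = (c : R) := by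
  classical
  let G := {k // g k = 1}
  let ext0 : (G → R) →ₗ[R] (R ⊗[E] T.B) := Fintype.linearCombination R (fun k : G => t k.1)
  let rG : (R ⊗[E] T.B) →ₗ[R] (G → R) := LinearMap.pi fun k : G =>
    Finsupp.lapply k.1 ∘ₗ t.repr.toLinearMap
  have hrG : ∀ z (k : G), rG z k = t.repr z k.1 := fun z k => rfl
  have hext : ∀ c : G → R, ext0 c = ∑ k, c k • t k.1 := fun c => rfl
  -- `J` on the image
  have hJe : ∀ c, T.J (ext0 c) = ext0 c := by
    intro c
    rw [hext, map_sum]
    refine Finset.sum_congr rfl fun k _ => ?_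
    rw [map_smul, hJ, k.2, Int.cast_one, one_smul]
  have hre : ∀ c, rG (ext0 c) = c := by
    intro c
    ext k
    rw [hrG, hext, map_sum, Finsupp.finsetSum_apply, Finset.sum_eq_single k]
    · rw [map_smul, Finsupp.smul_apply, Basis.repr_self, Finsupp.single_eq_same, smul_eq_mul,
        mul_one]
    · intro j _ hj
      rw [map_smul, Finsupp.smul_apply, Basis.repr_self, Finsupp.single_eq_of_ne
        (fun h => hj (Subtype.ext h.symm)), smul_zero]
    · intro h
      exact absurd (Finset.mem_univ k) h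
  have h2 := half_two E R
  -- vectors with `J z = - z` have no coordinates in `G`
  have hneg : ∀ z, T.J z = -z → rG z = 0 := by
    intro z hz
    ext k
    have h1 := repr_diag t hJ z k.1
    rw [hz, k.2, Int.cast_one, one_mul, map_neg, Finsupp.neg_apply] at h1
    rw [hrG, Pi.zero_apply]
    linear_combination -(t.repr z k.1) * h2 - algebraMap E R (1 / 2) * h1
  -- the projection
  have hpos : ∀ z, ext0 (rG z) = algebraMap E R (1 / 2) • (z + T.J z) := by
    intro z
    refine t.repr.injective ?_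
    ext k
    rw [map_smul, map_add, Finsupp.smul_apply, Finsupp.add_apply, repr_diag t hJ z k, smul_eq_mul]
    by_cases hk : g k = 1
    · have h3 := congrFun (hre (rG z)) ⟨k, hk⟩
      rw [hrG, hrG] at h3
      rw [h3, hk, Int.cast_one]
      linear_combination -(t.repr z k) * h2
    · have h3 : g k = -1 := (hg k).resolve_left hk
      rw [hext, map_sum, Finsupp.finsetSum_apply, Finset.sum_eq_zero]
      · rw [h3]
        push_cast
        ring
      · intro j _
        rw [map_smul, Finsupp.smul_apply, Basis.repr_self, Finsupp.single_eq_of_ne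
          (fun h => hk (by rw [h]; exact j.2)), smul_zero]
  let θ : (G → R) →ₗ[R] (R ⊗[E] T.eig 1) := T.pr 1 ∘ₗ ((2 : R) • ext0)
  let ψ : (R ⊗[E] T.eig 1) →ₗ[R] (G → R) := rG ∘ₗ T.inc 1
  have hθ : ∀ c, T.inc 1 (θ c) = ext0 c + T.F (ext0 c) := by
    intro c
    change T.inc 1 (T.pr 1 ((2 : R) • ext0 c)) = _
    rw [T.inc_pr, Units.val_one, one_smul, map_smul, ← smul_add, smul_smul, h2, one_smul]
  have hψθ : ∀ c, ψ (θ c) = c := by
    intro c
    change rG (T.inc 1 (θ c)) = c
    rw [hθ, map_add, hre, hneg _ (by rw [T.J_F, hJe]), add_zero]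
  have hθψ : ∀ z, θ (ψ z) = z := by
    intro z
    refine T.inc_inj 1 ?_
    rw [hθ]
    change ext0 (rG (T.inc 1 z)) + T.F (ext0 (rG (T.inc 1 z))) = _
    have h4 := T.F_inc 1 z
    rw [Units.val_one, one_smul] at h4
    rw [hpos, map_smul, map_add, h4]
    have h5 := T.J_F (T.inc 1 z)
    rw [h4] at h5
    have h6 : T.F (T.J (T.inc 1 z)) = -T.J (T.inc 1 z) := by
      have h7 := congrArg Neg.neg h5
      rw [neg_neg] at h7
      exact h7.symm
    rw [h6, ← smul_add, show T.inc 1 z + T.J (T.inc 1 z) + (T.inc 1 z + -T.J (T.inc 1 z)) =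
      (2 : R) • T.inc 1 z by rw [two_smul]; abel, smul_smul, h2, one_smul]
  let e : (G → R) ≃ₗ[R] (R ⊗[E] T.eig 1) := LinearEquiv.ofLinearMap θ ψ (LinearMap.ext hθψ)
    (LinearMap.ext hψθ)
  let D : (G → R) →ₗ[R] (G → R) := Matrix.toLin' (Matrix.diagonal fun k : G => (s k.1 : R))
  have hD : ∀ c k, D c k = (s k.1 : R) * c k := by
    intro c k
    rw [Matrix.toLin'_apply, Matrix.mulVec_diagonal]
  have hAe : ∀ c, A (ext0 c) = ext0 (D c) := by
    intro c
    rw [hext, hext, map_sum]
    refine Finset.sum_congr rfl fun k _ => ?_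
    rw [map_smul, hA, hD, smul_smul, mul_comm]
  have hres : T.res A 1 1 = e.toLinearMap ∘ₗ D ∘ₗ e.symm.toLinearMap := by
    refine LinearMap.ext fun z => ?_
    obtain ⟨c, rfl⟩ := e.surjective z
    rw [LinearMap.comp_apply, LinearMap.comp_apply, LinearEquiv.coe_coe, LinearEquiv.coe_coe,
      LinearEquiv.symm_apply_apply]
    refine T.inc_inj 1 ?_
    rw [T.inc_res (c := 1) (fun x => by rw [Units.val_one, one_smul, hAF]) (by rw [one_mul])]
    change A (T.inc 1 (θ c)) = T.inc 1 (θ (D c))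
    rw [hθ, hθ, map_add, hAe, ← hAF, hAe]
  rw [hres]
  refine ⟨∏ k : G, s k.1, ?_, ?_⟩
  · exact Finset.prod_induction (fun k : G => s k.1) (fun c => c = 1 ∨ c = -1)
      (by rintro a b (ha | ha) (hb | hb) <;> subst ha <;> subst hb <;> norm_num)
      (Or.inl rfl) (fun k _ => hs k.1)
  · rw [LinearMap.det_conj, LinearMap.det_toLin', Matrix.det_diagonal]
    push_cast
    rfl

end Mot

end Pool.Agent.X33.DP
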