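import Pool.Agent.X33.DP.Rat

/-!
# Tensor products
-/

set_option autoImplicit false
set_option linter.unusedSectionVars false

namespace Pool.Agent.X33.DP

open TensorProduct Module

namespace Mot

variable {E R : Type} [Field E] [CommRing R] [Algebra E R] [CharZero E]
  {M N T : Mot E R}

/-- the isomorphism over `R` -/
noncomputable def Phi (β : (M.B ⊗[E] N.B) ≃ₗ[E] T.B) :
    ((R ⊗[E] M.B) ⊗[R] (R ⊗[E] N.B)) ≃ₗ[R] (R ⊗[E] T.B) :=
  (AlgebraTensorModule.distribBaseChange E R M.B N.B).symm ≪≫ₗ β.baseChange E R _ _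

lemma Phi_tmul (β : (M.B ⊗[E] N.B) ≃ₗ[E] T.B) (x : R ⊗[E] M.B) (y : R ⊗[E] N.B) :
    Phi β (x ⊗ₜ y) = β.baseChange E R _ _ (tens x y) := rfl

lemma Phi_pure (β : (M.B ⊗[E] N.B) ≃ₗ[E] T.B) (r r' : R) (m : M.B) (n : N.B) :
    Phi β ((r ⊗ₜ m) ⊗ₜ (r' ⊗ₜ n)) = (r * r') ⊗ₜ β (m ⊗ₜ n) := by
  rw [Phi_tmul, tens, AlgebraTensorModule.distribBaseChange_symm_tmul, LinearEquiv.baseChange_tmul]

lemma F_Phi {β : (M.B ⊗[E] N.B) ≃ₗ[E] T.B} (h : IsTensor M N T β) (x : R ⊗[E] M.B)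
    (y : R ⊗[E] N.B) : T.F (Phi β (x ⊗ₜ y)) = Phi β (M.F x ⊗ₜ N.F y) := by
  induction x using TensorProduct.induction_on with
  | zero => rw [zero_tmul, map_zero, map_zero, map_zero, zero_tmul, map_zero]
  | add x x' hx hx' => rw [add_tmul, map_add, map_add, hx, hx', map_add, add_tmul, map_add]
  | tmul r m =>
    induction y using TensorProduct.induction_on with
    | zero => rw [tmul_zero, map_zero, map_zero, map_zero, tmul_zero, map_zero]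
    | add y y' hy hy' => rw [tmul_add, map_add, map_add, hy, hy', map_add, tmul_add, map_add]
    | tmul r' n =>
      rw [Phi_pure, LinearMap.baseChange_tmul, h.frob, LinearMap.baseChange_tmul,
        LinearMap.baseChange_tmul, Phi_pure]

lemma ext_T {β : (M.B ⊗[E] N.B) ≃ₗ[E] T.B} {W : Type} [AddCommGroup W] [Module R W]
    {f g : (R ⊗[E] T.B) →ₗ[R] W} (h : ∀ a b, ∀ x ∈ M.H a, ∀ y ∈ N.H b,
      f (Phi β (x ⊗ₜ y)) = g (Phi β (x ⊗ₜ y))) : f = g := by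
  have h1 : f ∘ₗ (Phi β).toLinearMap = g ∘ₗ (Phi β).toLinearMap := by
    refine TensorProduct.ext' fun x y => ?_
    have h2 : ∀ a, ∀ x ∈ M.H a, ∀ y, f (Phi β (x ⊗ₜ y)) = g (Phi β (x ⊗ₜ y)) := by
      intro a x hx y
      have : (f ∘ₗ (Phi β).toLinearMap) ∘ₗ TensorProduct.mk R _ _ x =
          (g ∘ₗ (Phi β).toLinearMap) ∘ₗ TensorProduct.mk R _ _ x :=
        N.ext_H fun b y hy => h a b x hx y hy
      exact LinearMap.congr_fun this y
    have : (f ∘ₗ (Phi β).toLinearMap) ∘ₗ (TensorProduct.mk R _ _).flip y =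
        (g ∘ₗ (Phi β).toLinearMap) ∘ₗ (TensorProduct.mk R _ _).flip y :=
      M.ext_H fun a x hx => h2 a x hx y
    exact LinearMap.congr_fun this x
  refine LinearMap.ext fun z => ?_
  have := LinearMap.congr_fun h1 ((Phi β).symm z)
  simpa using this

/-- the operator `J ⊗ 1` -/
noncomputable def K (β : (M.B ⊗[E] N.B) ≃ₗ[E] T.B) : (R ⊗[E] T.B) →ₗ[R] (R ⊗[E] T.B) :=
  (Phi β).toLinearMap ∘ₗ (TensorProduct.map M.J LinearMap.id) ∘ₗ (Phi β).symm.toLinearMap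

lemma K_Phi (β : (M.B ⊗[E] N.B) ≃ₗ[E] T.B) (x : R ⊗[E] M.B) (y : R ⊗[E] N.B) :
    K β (Phi β (x ⊗ₜ y)) = Phi β (M.J x ⊗ₜ y) := by
  rw [K, LinearMap.comp_apply, LinearMap.comp_apply, LinearEquiv.coe_coe, LinearEquiv.coe_coe,
    LinearEquiv.symm_apply_apply, TensorProduct.map_tmul, LinearMap.id_apply]

lemma J_Phi {β : (M.B ⊗[E] N.B) ≃ₗ[E] T.B} (h : IsTensor M N T β) {a b : ℤ} {x : R ⊗[E] M.B}
    (hx : x ∈ M.H a) {y : R ⊗[E] N.B} (hy : y ∈ N.H b) :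
    T.J (Phi β (x ⊗ₜ y)) = T.sg (a + b) • Phi β (x ⊗ₜ y) :=
  T.J_mem (h.hodge a b x hx y hy)

lemma F_K {β : (M.B ⊗[E] N.B) ≃ₗ[E] T.B} (h : IsTensor M N T β) (z : R ⊗[E] T.B) :
    T.F (K β z) = ((-1 : ℤˣ) : ℤ) • K β (T.F z) := by
  have h1 : T.F ∘ₗ K β = -(K β ∘ₗ T.F) := ext_T (β := β) fun a b x _ y _ => by
    change T.F (K β (Phi β (x ⊗ₜ y))) = -K β (T.F (Phi β (x ⊗ₜ y)))
    rw [K_Phi, F_Phi h, F_Phi h, K_Phi, M.J_F, ← neg_one_smul R (M.F (M.J x)),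
      ← smul_tmul', (Phi β).map_smul, neg_one_smul, neg_neg]
  rw [Units.val_neg, Units.val_one, neg_smul, one_smul]
  exact LinearMap.congr_fun h1 z

lemma K_K (β : (M.B ⊗[E] N.B) ≃ₗ[E] T.B) (hM : M.NoMiddle) : K β ∘ₗ K β = LinearMap.id :=
  ext_T (β := β) fun a b x _ y _ => by
    change K β (K β (Phi β (x ⊗ₜ y))) = Phi β (x ⊗ₜ y)
    rw [K_Phi, K_Phi, M.J_J hM]

/-- coordinates of a diagonal operator -/
lemma repr_diag {V κ : Type} [AddCommGroup V] [Module R V] (t : Basis κ R V) {A : V →ₗ[R] V}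
    {a : κ → R} (h : ∀ k, A (t k) = a k • t k) (z : V) (k : κ) :
    t.repr (A z) k = a k * t.repr z k := by
  have h1 : (Finsupp.lapply k ∘ₗ (t.repr : V →ₗ[R] (κ →₀ R))) ∘ₗ A =
      a k • (Finsupp.lapply k ∘ₗ (t.repr : V →ₗ[R] (κ →₀ R))) := by
    refine t.ext fun i => ?_
    change t.repr (A (t i)) k = a k * t.repr (t i) k
    rw [h, map_smul, Finsupp.smul_apply, smul_eq_mul, Basis.repr_self]
    by_cases hik : i = k
    · rw [hik]
    · rw [Finsupp.single_eq_of_ne (Ne.symm hik), mul_zero, mul_zero]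
  exact LinearMap.congr_fun h1 z

end Mot

end Pool.Agent.X33.DP
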