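import Pool.Agent.X33.DP.Weight
import Pool.Agent.X33.DP.Cyc

/-!
# The trace in terms of cycles
-/

set_option autoImplicit false
set_option linter.unusedSectionVars false

namespace Pool.Agent.X33.DP

open TensorProduct Module

section

variable {E : Type} [Field E] {k : ℕ}

lemma der_tens_comm {ι κ : Type} [Fintype ι] [DecidableEq ι] [Fintype κ] [DecidableEq κ]
    {F : Matrix ι ι E} {U : Matrix ι κ E} {D : Matrix κ κ E} (h : F * U = U * D) :
    der k F * tens k U = tens k U * der k D := by
  rw [der, der, Matrix.sum_mul, Matrix.mul_sum]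
  refine Finset.sum_congr rfl fun i _ => ?_
  rw [tens, tq_mul, tq_mul]
  congr 1
  funext j
  by_cases hj : j = i
  · subst hj
    rw [Function.update_self, Function.update_self, h]
  · rw [Function.update_of_ne hj, Function.update_of_ne hj, Matrix.one_mul, Matrix.mul_one]

lemma tens_diagonal {κ : Type} [DecidableEq κ] (d : κ → E) :
    tens k (Matrix.diagonal d) = Matrix.diagonal fun s : Fin k → κ => ∏ i, d (s i) := by
  ext s t
  rw [tens, tq, Matrix.of_apply, Matrix.diagonal_apply]
  simp only [Matrix.diagonal_apply]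
  by_cases h : s = t
  · subst h
    simp
  · rw [if_neg h]
    obtain ⟨i, hi⟩ := Function.ne_iff.1 h
    exact Finset.prod_eq_zero (Finset.mem_univ i) (if_neg hi)

lemma der_diagonal {κ : Type} [DecidableEq κ] (d : κ → E) :
    der k (Matrix.diagonal d) = Matrix.diagonal fun s : Fin k → κ => ∑ i, d (s i) := by
  ext s t
  rw [der, Matrix.sum_apply, Matrix.diagonal_apply]
  by_cases h : s = t
  · subst h
    rw [if_pos rfl]
    refine Finset.sum_congr rfl fun i _ => ?_
    rw [tq, Matrix.of_apply, ← Finset.mul_prod_erase _ _ (Finset.mem_univ i), Function.update_self,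
      Matrix.diagonal_apply_eq, Finset.prod_eq_one, mul_one]
    intro j hj
    rw [Function.update_of_ne (Finset.ne_of_mem_erase hj), Matrix.one_apply_eq]
  · rw [if_neg h]
    obtain ⟨j, hj⟩ := Function.ne_iff.1 h
    refine Finset.sum_eq_zero fun i _ => ?_
    rw [tq, Matrix.of_apply]
    refine Finset.prod_eq_zero (Finset.mem_univ j) ?_
    by_cases hji : j = i
    · subst hji
      rw [Function.update_self, Matrix.diagonal_apply_ne _ hj]
    · rw [Function.update_of_ne hji, Matrix.one_apply_ne hj]

lemma trace_diag_sym {κ : Type} [Fintype κ] [DecidableEq κ] (e : Equiv.Perm (Fin k) → E)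
    (f : (Fin k → κ) → E) :
    (Matrix.diagonal f * sym κ e).trace =
      ∑ σ : Equiv.Perm (Fin k), e σ * ∑ s : Fin k → κ, if s ∘ σ = s then f s else 0 := by
  simp only [Matrix.trace, Matrix.diag_apply, Matrix.diagonal_mul, sym, Matrix.of_apply,
    Finset.mul_sum]
  rw [Finset.sum_comm]
  refine Finset.sum_congr rfl fun σ _ => Finset.sum_congr rfl fun s _ => ?_
  split_ifs
  · ring
  · ring

end

namespace PMot

variable {E K : Type} [Field E] [Field K] [Algebra E K] [CharZero E] {M T : PMot E K} {k : ℕ}
  {e : Equiv.Perm (Fin k) → E} {π : Matrix (Fin T.N) (Fin k → Fin M.N) E}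
  {γ : Matrix (Fin k → Fin M.N) (Fin T.N) E} {n : ℕ}

/-- the trace in terms of the cycles of the permutations -/
lemma trace_cyc (h : IsSchur M T k e π γ) (u : Basis (Fin n) E (M.toMot.eig 1))
    (u' : Basis (Fin n) E (M.toMot.eig (-1))) :
    (π * der k M.F * γ * T.F).trace =
      ∑ σ : Equiv.Perm (Fin k), e σ * ((oddLen σ : E) * (2 * (n : E)) ^ numCyc σ) := by
  have h1 : π * der k M.F * γ * T.F = π * (der k M.F * tens k M.F) * γ := by
    rw [← act_mul' h (inv_der _), ← h.frob, Matrix.mul_assoc T.F, h.proj, Matrix.mul_one]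
  have h2 : (π * (der k M.F * tens k M.F) * γ).trace =
      ((der k M.F * tens k M.F) * sym (Fin M.N) e).trace := by
    rw [Matrix.mul_assoc, Matrix.trace_mul_comm, Matrix.mul_assoc, h.sect]
  -- the base change
  let b : Basis (Fin n ⊕ Fin n) E (Fin M.N → E) := M.toMot.bB u u'
  let U : Matrix (Fin M.N) (Fin n ⊕ Fin n) E := (Pi.basisFun E (Fin M.N)).toMatrix b
  let V : Matrix (Fin n ⊕ Fin n) (Fin M.N) E := b.toMatrix (Pi.basisFun E (Fin M.N))
  have hUV : U * V = 1 := (Pi.basisFun E (Fin M.N)).toMatrix_mul_toMatrix_flip b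
  have hVU : V * U = 1 := b.toMatrix_mul_toMatrix_flip (Pi.basisFun E (Fin M.N))
  have hU : ∀ x j, U x j = b j x := fun x j => rfl
  let D : Matrix (Fin n ⊕ Fin n) (Fin n ⊕ Fin n) E := Matrix.diagonal fun x => ((eps x : ℤ) : E)
  have hFU : M.F * U = U * D := by
    ext x j
    have h3 : M.F.mulVec (b j) = ((Mot.sgn j : ℤˣ) : ℤ) • b j := M.toMot.frob_bB u u' j
    have h4 := congrFun h3 x
    rw [Matrix.mul_diagonal, hU, mul_comm]
    change M.F.mulVec (b j) x = _
    rw [h4, Pi.smul_apply, zsmul_eq_mul]
    congr 2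
    rcases j with j | j <;> rfl
  have h3 : (der k M.F * tens k M.F) * tens k U = tens k U * (der k D * tens k D) := by
    rw [Matrix.mul_assoc, tens_mul, hFU, ← tens_mul, ← Matrix.mul_assoc, der_tens_comm hFU,
      Matrix.mul_assoc]
  have h4 : der k M.F * tens k M.F = tens k U * (der k D * tens k D) * tens k V := by
    rw [← h3, Matrix.mul_assoc, tens_mul, hUV, tens_one, Matrix.mul_one]
  have h5 : (tens k U * (der k D * tens k D) * tens k V * sym (Fin M.N) e).trace =
      ((der k D * tens k D) * sym (Fin n ⊕ Fin n) e).trace := by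
    calc (tens k U * (der k D * tens k D) * tens k V * sym (Fin M.N) e).trace =
        (tens k U * ((der k D * tens k D) * tens k V * sym (Fin M.N) e)).trace := by
          simp only [Matrix.mul_assoc]
      _ = (((der k D * tens k D) * tens k V * sym (Fin M.N) e) * tens k U).trace :=
        Matrix.trace_mul_comm _ _
      _ = ((der k D * tens k D) * (tens k V * (sym (Fin M.N) e * tens k U))).trace := by
          simp only [Matrix.mul_assoc]
      _ = ((der k D * tens k D) * ((tens k V * tens k U) * sym (Fin n ⊕ Fin n) e)).trace := by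
          rw [sym_comm e (inv_tens U), Matrix.mul_assoc (tens k V)]
      _ = _ := by rw [tens_mul, hVU, tens_one, Matrix.one_mul]
  have h6 : der k D * tens k D = Matrix.diagonal fun s : Fin k → Fin n ⊕ Fin n =>
      ((((∑ i, eps (s i)) * ∏ i, eps (s i) : ℤ)) : E) := by
    rw [der_diagonal, tens_diagonal, Matrix.diagonal_mul_diagonal]
    congr 1
    funext s
    push_cast
    rfl
  rw [h1, h2, h4, h5, h6, trace_diag_sym]
  refine Finset.sum_congr rfl fun σ _ => ?_
  congr 1
  have h7 := congrArg (fun x : ℤ => (x : E)) (sum_fixed_eps n σ)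
  simp only [Int.cast_sum, Int.cast_mul, Int.cast_pow, Int.cast_natCast, Int.cast_ofNat] at h7
  rw [← h7]
  refine Finset.sum_congr rfl fun s _ => ?_
  split_ifs
  · push_cast
    rfl
  · rw [Int.cast_zero]

end PMot

end Pool.Agent.X33.DP
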